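import Pool.Agent.TH992.F.E2
import Pool.Agent.W424.NC.Corr

/-!
The volume of finite clusters in infinite volume: upper bound.
-/

set_option autoImplicit false

namespace TH992.F

open H974 Finset TH992.T MeasureTheory
open Pool.Agent.H160R2.CV (Far nv)
open Pool.Agent.H160R2.CV.Quad (bo LA LA_of_far far_of_LA LA_of_reach)

theorem FF_inter {S T : Finset Edg} (h : T ⊆ S) (ω : sqLattice.edgeSet → Bool) :
    FF S ω ∩ T = FF T ω := by
  ext e
  rw [mem_inter, mem_FF, mem_FF]
  exact ⟨fun h1 => ⟨h1.2, h1.1.2⟩, fun h1 => ⟨⟨h h1.1, h1.2⟩, h1.1⟩⟩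

theorem bo_zero (r : ℕ) : bo (0, 0) r = boxE r := by
  unfold bo boxE
  congr 1 <;> ring

/-- all points of a finite cluster are reached in a finite box -/
theorem common_box {ω : sqLattice.edgeSet → Bool} (T : Finset Vtx)
    (hT : ∀ u ∈ T, Reach (opn ω) (0, 0) u) (m : ℕ) :
    ∃ M : ℕ, m ≤ M ∧ ∀ u ∈ T, Reach (opn ω ∩ ↑(boxE M)) (0, 0) u := by
  induction T using Finset.induction_on with
  | empty => exact ⟨m, le_rfl, fun u hu => by simp at hu⟩
  | insert a T ha ih =>
    obtain ⟨M, h1, h2⟩ := ih fun u hu => hT u (mem_insert_of_mem hu)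
    obtain ⟨N, hN⟩ := Pool.Agent.W424.NC.reach_box (hT a (mem_insert_self a T))
    refine ⟨max M N, h1.trans (le_max_left _ _), fun u hu => ?_⟩
    have s1 : boxE M ⊆ boxE (max M N) := boxE_mono (le_max_left _ _)
    have s2 : boxE N ⊆ boxE (max M N) := boxE_mono (le_max_right _ _)
    rw [mem_insert] at hu
    rcases hu with rfl | hu
    · exact hN.mono (Set.inter_subset_inter_right _ (by exact_mod_cast s2))
    · exact (h2 u hu).mono (Set.inter_subset_inter_right _ (by exact_mod_cast s1))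

/-- a finite cluster with at least two vertices has its radius in a dyadic interval -/
theorem fin_scale {ω : sqLattice.edgeSet → Bool} (hfin : (cluster0 ω).Finite) {n : ℕ} (hn : 2 ≤ n)
    (hc : n ≤ (cluster0 ω).ncard) :
    ∃ i : ℕ, Ev n (2^i) (0, 0) (FF (boxE (2 * 2^i)) ω) := by
  classical
  obtain ⟨T, hT⟩ : ∃ T : Finset Vtx, T = hfin.toFinset := ⟨_, rfl⟩
  have hmem : ∀ u, u ∈ T ↔ Reach (opn ω) (0, 0) u := by
    intro u
    rw [hT, Set.Finite.mem_toFinset]
    exact open_reach ω _ _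
  have hcard : n ≤ T.card := by
    rw [hT, ← Set.ncard_eq_toFinset_card _ hfin]
    exact hc
  obtain ⟨u, hu, hmax⟩ := exists_max_image T (fun u => nv u) (card_pos.mp (by omega))
  have hr1 : 1 ≤ nv u := by
    by_contra hcon
    have h0 : nv u = 0 := by omega
    have h1 : T ⊆ {(0, 0)} := by
      intro w hw
      have := hmax w hw
      rw [mem_singleton]
      unfold nv at this h0
      have e1 : w.1 = 0 := by omega
      have e2 : w.2 = 0 := by omega
      exact Prod.ext e1 e2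
    have := card_le_card h1
    rw [card_singleton] at this
    omega
  refine ⟨Nat.log 2 (nv u), ?_⟩
  obtain ⟨i, hi⟩ : ∃ i : ℕ, i = Nat.log 2 (nv u) := ⟨_, rfl⟩
  rw [← hi]
  have h1 : 2^i ≤ nv u := by rw [hi]; exact Nat.pow_log_le_self 2 (by omega)
  have h2 : nv u < 2 * 2^i := by
    have := Nat.lt_pow_succ_log_self (b := 2) (by norm_num) (nv u)
    rw [← hi, pow_succ] at this
    omega
  obtain ⟨M, hM1, hM2⟩ := common_box (ω := ω) T (fun u hu => (hmem u).mp hu) (2 * 2^i)
  have hrF : ∀ w, Reach (↑(FF (boxE M) ω) : Set Edg) (0, 0) w ↔ w ∈ T := by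
    intro w
    rw [FF_coe]
    exact ⟨fun h => (hmem w).mpr (h.mono Set.inter_subset_left), fun h => hM2 w h⟩
  have hE : Ev n (2^i) (0, 0) (FF (boxE M) ω) := by
    refine ⟨⟨u, ?_, (hrF u).mpr hu⟩, ?_, T, by exact_mod_cast hcard, fun w hw => (hrF w).mpr hw⟩
    · rw [show u - (0, 0) = u from sub_zero u]; exact h1
    · rintro ⟨w, hw1, hw2⟩
      rw [show w - (0, 0) = w from sub_zero w] at hw1
      have := hmax w ((hrF w).mp hw2)
      omega
  have hE2 := (Ev_loc (F := FF (boxE M) ω)).mp hE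
  have e : bo (0, 0) (2 * 2^i) = boxE (2 * 2^i) := bo_zero _
  have e2 : FF (boxE M) ω ∩ bo (0, 0) (2 * 2^i) = FF (boxE (2 * 2^i)) ω := by
    rw [e]; exact FF_inter (boxE_mono hM1) ω
  exact e2 ▸ hE2

theorem real_le_of_union {Ω : Type*} [MeasurableSpace Ω] (μ : Measure Ω) [IsFiniteMeasure μ]
    {A : Set Ω} {U : ℕ → Set Ω} (hA : A ⊆ ⋃ i, U i) {B : ℝ}
    (hB : ∀ J, ∑ i ∈ range J, μ.real (U i) ≤ B) : μ.real A ≤ B := by
  have hB0 : 0 ≤ B := by simpa using hB 0
  have h1 : μ A ≤ ENNReal.ofReal B := by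
    refine (measure_mono hA).trans ((measure_iUnion_le _).trans ?_)
    refine ENNReal.tsum_le_of_sum_range_le fun J => ?_
    have e : ∑ i ∈ range J, μ (U i) = ENNReal.ofReal (∑ i ∈ range J, μ.real (U i)) := by
      rw [ENNReal.ofReal_sum_of_nonneg fun i _ => measureReal_nonneg]
      exact sum_congr rfl fun i _ => (ofReal_measureReal (measure_ne_top _ _)).symm
    rw [e]
    exact ENNReal.ofReal_le_ofReal (hB J)
  exact ENNReal.toReal_le_of_le_ofReal hB0 h1

/-- the upper bound for the volume of finite clusters -/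
theorem vol_upper : ∃ C c : ℝ, 0 < C ∧ 0 < c ∧ ∀ p : unitInterval, (1/2 : ℝ) < p →
    ∀ n : ℕ, 1 ≤ n →
      (bondLaw p).real {ω | (cluster0 ω).Finite ∧ n ≤ (cluster0 ω).ncard} ≤
        C * (n:ℝ)^(-(5/91) : ℝ) *
          Real.exp (-(c * Real.sqrt (n * ((p:ℝ) - 1/2)^(91/36 : ℝ)))) := by
  obtain ⟨C, c, hC, hc, h⟩ := sum_scales
  refine ⟨max C (Real.exp c), c, by positivity, hc, fun p hp n hn => ?_⟩
  have hn1 : (1:ℝ) ≤ n := by exact_mod_cast hn
  have hn0 : (0:ℝ) < n := by linarith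
  rcases Nat.lt_or_ge n 2 with h2 | h2
  · have e : n = 1 := by omega
    rw [e]
    push_cast
    rw [Real.one_rpow, mul_one, one_mul]
    have hs : 0 < (p:ℝ) - 1/2 := by linarith
    have h3 : Real.sqrt (((p:ℝ) - 1/2)^(91/36 : ℝ)) ≤ 1 := by
      rw [Real.sqrt_le_one]
      exact Real.rpow_le_one hs.le (by have := p.2.2; linarith) (by norm_num)
    have h4 : 1 ≤ max C (Real.exp c) *
        Real.exp (-(c * Real.sqrt (((p:ℝ) - 1/2)^(91/36 : ℝ)))) := by
      calc (1:ℝ) = Real.exp c * Real.exp (-(c * 1)) := by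
            rw [← Real.exp_add]; simp
        _ ≤ max C (Real.exp c) * Real.exp (-(c * 1)) :=
            mul_le_mul_of_nonneg_right (le_max_right _ _) (Real.exp_pos _).le
        _ ≤ _ := by
            refine mul_le_mul_of_nonneg_left (Real.exp_le_exp.mpr (neg_le_neg ?_)) (by positivity)
            exact mul_le_mul_of_nonneg_left h3 hc.le
    exact measureReal_le_one.trans h4
  · have h3 := h p hp p.2.2 n hn1
    have h4 : (bondLaw p).real {ω | (cluster0 ω).Finite ∧ n ≤ (cluster0 ω).ncard} ≤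
        C * (n:ℝ)^(-(5/91) : ℝ) *
          Real.exp (-(c * Real.sqrt (n * ((p:ℝ) - 1/2)^(91/36 : ℝ)))) := by
      refine real_le_of_union (bondLaw p)
        (U := fun i => {ω | Ev n (2^i) (0, 0) (FF (boxE (2 * 2^i)) ω)}) ?_ fun J => ?_
      · rintro ω ⟨h5, h6⟩
        obtain ⟨i, hi⟩ := fin_scale h5 h2 h6
        exact Set.mem_iUnion.mpr ⟨i, hi⟩
      · have e : ∀ i : ℕ, (bondLaw p).real {ω | Ev n (2^i) (0, 0) (FF (boxE (2 * 2^i)) ω)} =
            Pr (fun _ => (p:ℝ)) (boxE (2 * 2^i)) (Ev n (2^i) (0, 0)) := fun i => law_event _ _ _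
        rw [sum_congr rfl fun i _ => e i]
        exact h3 J
    refine h4.trans (mul_le_mul_of_nonneg_right ?_ (Real.exp_pos _).le)
    exact mul_le_mul_of_nonneg_right (le_max_left _ _) (by positivity)

end TH992.F
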