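import Pool.Agent.TH992.F.L2
import Pool.Agent.TH992.F.G1

/-!
The volume of finite clusters in infinite volume: lower bound.
-/

set_option autoImplicit false

namespace TH992.F

open H974 Finset TH992.T MeasureTheory
open Pool.Agent.H160R2.CV (Far nv)

/-- a closed dual circuit in an annulus above the critical point -/
theorem pr_Blk_ge : ∃ c C : ℝ, 0 < c ∧ 0 < C ∧ ∀ p : ℝ, 1/2 ≤ p → p ≤ 3/4 → ∀ m : ℕ, 1 ≤ m →
    ∀ S : Finset Edg, annE m (2 * m) ⊆ S →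
      c * Real.exp (-(C * (m * (p - 1/2)^(4/3 : ℝ)))) ≤
        Pr (fun _ => p) S (Blk m ((2 * m : ℕ) : ℤ)) := by
  obtain ⟨c, C, hc, hC, h⟩ := Pool.Agent.W424.NC.win_lower_dual 4 (by norm_num)
  refine ⟨c^4, 4 * C, by positivity, by positivity, fun p hp hp1 m hm S hS => ?_⟩
  have h0 : 0 ≤ p := by linarith
  have h1 : p ≤ 1 := by linarith
  have ok := okq h0 h1
  have hval := h (1 - p) (by linarith) (by linarith) m (4 * m) hm (by omega) (by omega) (by omega)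
  have e0 : 1/2 - (1 - p) = p - 1/2 := by ring
  have e00 : 1 - (1 - p) = p := by ring
  rw [e0, e00] at hval
  obtain ⟨s1, s2, s3, s4⟩ := ann_sub (n := m) (m := 2 * m) (by omega)
  obtain ⟨R2, hR2⟩ : ∃ R2 : ℤ, R2 = ((2 * m : ℕ) : ℤ) := ⟨_, rfl⟩
  rw [← hR2] at s1 s2 s3 s4 ⊢
  have hR2' : R2 = 2 * m := by rw [hR2]; push_cast; ring
  have e1 := pr_LRc p (s1.trans hS)
  have e2 := pr_LRc p (s2.trans hS)
  have e3 := pr_TBc p (s3.trans hS)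
  have e4 := pr_TBc p (s4.trans hS)
  have d1 : R2 - m = m := by omega
  have d2 : R2 - -R2 = ((4 * m : ℕ) : ℤ) := by push_cast; omega
  have d3 : -(m:ℤ) - -R2 = m := by omega
  rw [d1, d2] at e1
  rw [d3, d2] at e2
  rw [d1, d2] at e3
  rw [d3, d2] at e4
  have i1 := Pr_harris_dd ok (LRc_incr S m R2 (-R2) R2) (LRc_incr S (-R2) (-m) (-R2) R2)
  have i2 := Pr_harris_dd ok (TBc_incr S (-R2) R2 m R2) (TBc_incr S (-R2) R2 (-R2) (-m))
  rw [e1, e2] at i1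
  rw [e3, e4] at i2
  have c1 : IncrE S (fun F => LRc m R2 (-R2) R2 F ∨ LRc (-R2) (-m) (-R2) R2 F) :=
    fun F G hFG _ hF => hF.imp (LRc.mono hFG) (LRc.mono hFG)
  have c2 : IncrE S (fun F => TBc (-R2) R2 m R2 F ∨ TBc (-R2) R2 (-R2) (-m) F) :=
    fun F G hFG _ hF => hF.imp (TBc.mono hFG) (TBc.mono hFG)
  have i3 := Pr_harris_dd ok c1 c2
  rw [← Pr_not, ← Pr_not] at i3
  have j1 : Pr (fun _ => p) S (fun F => ¬ (LRc m R2 (-R2) R2 F ∨
      LRc (-R2) (-m) (-R2) R2 F)) = Pr (fun _ => p) S (fun F => ¬ LRc m R2 (-R2) R2 F ∧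
      ¬ LRc (-R2) (-m) (-R2) R2 F) := Pr_congr (fun F _ => not_or)
  have j2 : Pr (fun _ => p) S (fun F => ¬ (TBc (-R2) R2 m R2 F ∨
      TBc (-R2) R2 (-R2) (-m) F)) = Pr (fun _ => p) S (fun F => ¬ TBc (-R2) R2 m R2 F ∧
      ¬ TBc (-R2) R2 (-R2) (-m) F) := Pr_congr (fun F _ => not_or)
  rw [j1, j2] at i3
  obtain ⟨z, hz⟩ : ∃ z : ℝ, z = c * Real.exp (-(C * (m * (p - 1/2)^(4/3 : ℝ)))) := ⟨_, rfl⟩
  have hz0 : 0 < z := by rw [hz]; positivity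
  rw [← hz] at hval
  have k1 : z * z ≤ (1 - hh p m ((4 * m : ℕ) : ℤ)) * (1 - hh p m ((4 * m : ℕ) : ℤ)) :=
    mul_le_mul hval hval hz0.le (hz0.le.trans hval)
  have k2 : (z * z) * (z * z) ≤ _ := mul_le_mul (k1.trans i1) (k1.trans i2) (by positivity)
    ((by positivity : 0 ≤ z * z).trans (k1.trans i1))
  have e5 : c^4 * Real.exp (-(4 * C * (m * (p - 1/2)^(4/3 : ℝ)))) = (z * z) * (z * z) := by
    have e6 : Real.exp (-(4 * C * (m * (p - 1/2)^(4/3 : ℝ)))) =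
        (Real.exp (-(C * (m * (p - 1/2)^(4/3 : ℝ)))))^4 := by
      rw [← Real.exp_nat_mul]; congr 1; push_cast; ring
    rw [e6, hz]; ring
  rw [e5]
  exact k2.trans i3

/-- large finite clusters in infinite volume -/
theorem vol_ge (p : unitInterval) {n m : ℕ} {t : ℝ} (hn : (n:ℝ) ≤ t) (hm : 1 ≤ m) :
    Pr (fun _ => (p:ℝ)) (boxE m) (Vl t (0, 0)) *
      Pr (fun _ => (p:ℝ)) (annE m (2 * m)) (Blk m ((2 * m : ℕ) : ℤ)) ≤
      (bondLaw p).real {ω | (cluster0 ω).Finite ∧ n ≤ (cluster0 ω).ncard} := by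
  have ok := okq p.2.1 p.2.2
  have s1 : boxE m ⊆ boxE (2 * m) := boxE_mono (by omega)
  have s2 : annE m (2 * m) ⊆ boxE (2 * m) := Finset.sdiff_subset
  have hi := Pr_indep (p := fun _ => (p:ℝ)) (U := boxE (2 * m)) (S := boxE m)
    (T := annE m (2 * m)) (A := fun F => Vl t (0, 0) (F ∩ boxE m))
    (B := Blk m ((2 * m : ℕ) : ℤ)) s1 s2 Finset.disjoint_sdiff
    (fun F _ => by simp only [inter_assoc, inter_self])
    (fun F _ => Blk_local (by omega) (Finset.Subset.refl _) F)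
  have e1 : Pr (fun _ => (p:ℝ)) (boxE (2 * m)) (fun F => Vl t (0, 0) (F ∩ boxE m)) =
      Pr (fun _ => (p:ℝ)) (boxE m) (Vl t (0, 0)) := by
    rw [Pr_local s1 (fun F _ => by simp only [inter_assoc, inter_self])]
    exact Pr_congr fun F hF => by rw [inter_eq_left.mpr hF]
  have e2 : Pr (fun _ => (p:ℝ)) (boxE (2 * m)) (Blk m ((2 * m : ℕ) : ℤ)) =
      Pr (fun _ => (p:ℝ)) (annE m (2 * m)) (Blk m ((2 * m : ℕ) : ℤ)) :=
    Pr_local s2 (fun F _ => Blk_local (by omega) (Finset.Subset.refl _) F)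
  rw [e1, e2] at hi
  rw [← hi, ← law_event]
  refine measureReal_mono ?_
  rintro ω ⟨⟨T, hT1, hT2⟩, hB⟩
  have hfin : (cluster0 ω).Finite := by
    by_contra hinf
    have h1 := (infinite_iff ω).mp hinf (2 * m)
    obtain ⟨v, hv, hr⟩ := h1
    exact not_blk_of_arm (R1 := (m:ℤ)) (R2 := ((2 * m : ℕ) : ℤ)) (by positivity)
      (by push_cast; omega) (hr.mono Set.inter_subset_left) (by
        unfold onB at hv
        omega) hB
  refine ⟨hfin, ?_⟩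
  have h2 : (↑T : Set Vtx) ⊆ cluster0 ω := by
    intro u hu
    refine (open_reach ω _ _).mpr ((hT2 u hu).mono ?_)
    rw [coe_inter, FF_coe]
    exact fun e he => he.1.1
  have h3 := Set.ncard_le_ncard h2 hfin
  rw [Set.ncard_coe_finset] at h3
  have h4 : n ≤ T.card := by exact_mod_cast hn.trans hT1
  exact h4.trans h3

/-- choice of the scale -/
theorem choose_scale (I : ℕ) {c3 : ℝ} (hc3 : 0 < c3) {n : ℝ} (hn : 1 ≤ n) : ∃ i : ℕ,
    n ≤ c3 * (((2:ℝ)^i)^2 * ((2:ℝ)^(min i I))^(-(5/48) : ℝ)) ∧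
    ((2:ℝ)^i)^2 * ((2:ℝ)^(min i I))^(-(5/48) : ℝ) ≤ (1 + 4 / c3) * n := by
  classical
  obtain ⟨f, hf⟩ : ∃ f : ℕ → ℝ, f = fun i => ((2:ℝ)^i)^2 * ((2:ℝ)^(min i I))^(-(5/48) : ℝ) :=
    ⟨_, rfl⟩
  have hf1 : ∀ i, (2:ℝ)^i ≤ f i := by
    intro i
    rw [hf]
    simp only
    have h1 : ((2:ℝ)^i)⁻¹ ≤ ((2:ℝ)^(min i I))^(-(5/48) : ℝ) := by
      have h2 : (1:ℝ) ≤ (2:ℝ)^(min i I) := one_le_pow₀ (by norm_num)
      calc ((2:ℝ)^i)⁻¹ ≤ ((2:ℝ)^(min i I))⁻¹ :=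
            inv_anti₀ (by positivity) (pow_le_pow_right₀ (by norm_num) (min_le_left _ _))
        _ = ((2:ℝ)^(min i I))^(-1 : ℝ) := (Real.rpow_neg_one _).symm
        _ ≤ _ := Real.rpow_le_rpow_of_exponent_le h2 (by norm_num)
    calc (2:ℝ)^i = ((2:ℝ)^i)^2 * ((2:ℝ)^i)⁻¹ := by field_simp
      _ ≤ _ := mul_le_mul_of_nonneg_left h1 (by positivity)
  have hf2 : ∀ i, f (i + 1) ≤ 4 * f i := by
    intro i
    rw [hf]
    simp only
    have h1 : ((2:ℝ)^(min (i + 1) I))^(-(5/48) : ℝ) ≤ ((2:ℝ)^(min i I))^(-(5/48) : ℝ) := by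
      refine Real.rpow_le_rpow_of_nonpos (by positivity) ?_ (by norm_num)
      exact pow_le_pow_right₀ (by norm_num) (by omega)
    have h2 := mul_le_mul_of_nonneg_left h1 (show (0:ℝ) ≤ ((2:ℝ)^(i + 1))^2 by positivity)
    refine h2.trans (le_of_eq ?_)
    rw [pow_succ]; ring
  have hf0 : f 0 = 1 := by
    rw [hf]; simp
  have hex : ∃ i : ℕ, n ≤ c3 * f i := by
    obtain ⟨i, hi⟩ := pow_unbounded_of_one_lt (n / c3) (by norm_num : (1:ℝ) < 2)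
    refine ⟨i, ?_⟩
    rw [div_lt_iff₀ hc3] at hi
    have := mul_le_mul_of_nonneg_left (hf1 i) hc3.le
    linarith
  have hfe : ∀ i, f i = ((2:ℝ)^i)^2 * ((2:ℝ)^(min i I))^(-(5/48) : ℝ) := fun i => by rw [hf]
  refine ⟨Nat.find hex, ?_, ?_⟩
  · have := Nat.find_spec hex
    rwa [hfe] at this
  · have hgoal : f (Nat.find hex) ≤ (1 + 4 / c3) * n := by
      have h4 : 0 < 4 / c3 := by positivity
      rcases Nat.eq_zero_or_pos (Nat.find hex) with h0 | h0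
      · rw [h0, hf0]; nlinarith
      · have h1 := Nat.find_min hex (show Nat.find hex - 1 < Nat.find hex by omega)
        push Not at h1
        have h2 := hf2 (Nat.find hex - 1)
        rw [Nat.sub_add_cancel h0] at h2
        have h3 : f (Nat.find hex - 1) ≤ n / c3 := by
          rw [le_div_iff₀ hc3]; linarith
        have h5 : (1 + 4 / c3) * n = n + 4 * (n / c3) := by ring
        rw [h5]; linarith
    rwa [hfe] at hgoal

/-- the lower bound for the volume of finite clusters -/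
theorem vol_lower : ∃ c C : ℝ, 0 < c ∧ 0 < C ∧ ∀ p : unitInterval, (1/2 : ℝ) < p → (p:ℝ) ≤ 3/4 →
    ∀ n : ℕ, 1 ≤ n →
      c * (n:ℝ)^(-(5/91) : ℝ) *
          Real.exp (-(C * Real.sqrt (n * ((p:ℝ) - 1/2)^(91/36 : ℝ)))) ≤
      (bondLaw p).real {ω | (cluster0 ω).Finite ∧ n ≤ (cluster0 ω).ncard} := by
  obtain ⟨E, C0, c0, hE, hC0, hc0, hsc⟩ := scaleN
  obtain ⟨c3, c4, hc3, hc4, hbig⟩ := big_vol hC0 hc0
  obtain ⟨cb, Cb, hcb, hCb, hblk⟩ := pr_Blk_ge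
  obtain ⟨C5, hC5⟩ : ∃ C5 : ℝ, C5 = 1 + 4 / c3 := ⟨_, rfl⟩
  have hC50 : 0 < C5 := by rw [hC5]; positivity
  refine ⟨c4 * C5^(-(5/91) : ℝ) * cb, 7 * Cb * Real.sqrt (C5 * E), by positivity, by positivity,
    fun p hp hp1 n hn => ?_⟩
  obtain ⟨s, hs⟩ : ∃ s : ℝ, s = (p:ℝ) - 1/2 := ⟨_, rfl⟩
  have hs0 : 0 < s := by rw [hs]; linarith
  obtain ⟨I, hI1, hI2, hI3, hI4, hup, hlow, hlow2⟩ := hsc p hp p.2.2
  rw [← hs] at hI2 hI3 ⊢
  have hSc : Sc C0 p I := ⟨p.2.1, p.2.2, hup⟩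
  have hn1 : (1:ℝ) ≤ n := by exact_mod_cast hn
  have hn0 : (0:ℝ) < n := by linarith
  obtain ⟨i, hi1, hi2⟩ := choose_scale I hc3 hn1
  obtain ⟨m, hm⟩ : ∃ m : ℕ, m = min i I := ⟨_, rfl⟩
  rw [← hm] at hi1 hi2
  rw [← hC5] at hi2
  have hmi : m ≤ i := by rw [hm]; exact min_le_left _ _
  have hmI : m ≤ I := by rw [hm]; exact min_le_right _ _
  have h1 := hbig p I hp hSc hlow hlow2 i m hm
  have h2 := hblk p hp.le hp1 (7 * 2^i) (by have : 1 ≤ 2^i := Nat.one_le_two_pow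
                                            omega)
    (annE (7 * 2^i) (2 * (7 * 2^i))) (Finset.Subset.refl _)
  rw [← hs] at h2
  have h3 := vol_ge p (n := n) (m := 7 * 2^i) hi1 (by
    have : 1 ≤ 2^i := Nat.one_le_two_pow
    omega)
  refine le_trans ?_ h3
  -- the one-arm factor
  have g1 : C5^(-(5/91) : ℝ) * (n:ℝ)^(-(5/91) : ℝ) ≤ ((2:ℝ)^m)^(-(5/48) : ℝ) := by
    rw [← Real.mul_rpow hC50.le hn0.le]
    have e1 : ((2:ℝ)^m)^(-(5/48) : ℝ) = (((2:ℝ)^m)^(2 - 5/48 : ℝ))^(-(5/91) : ℝ) := by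
      rw [← Real.rpow_mul (by positivity)]
      norm_num
    rw [e1]
    refine Real.rpow_le_rpow_of_nonpos (by positivity) ?_ (by norm_num)
    refine le_trans ?_ hi2
    have e2 : ((2:ℝ)^m)^(2 - 5/48 : ℝ) = ((2:ℝ)^m)^2 * ((2:ℝ)^m)^(-(5/48) : ℝ) := by
      rw [← Real.rpow_natCast ((2:ℝ)^m) 2, ← Real.rpow_add (by positivity)]
      congr 1
    rw [e2]
    refine mul_le_mul_of_nonneg_right ?_ (by positivity)
    exact pow_le_pow_left₀ (by positivity) (pow_le_pow_right₀ (by norm_num) hmi) 2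
  -- the scale
  have g2 : (2:ℝ)^i * s^(4/3 : ℝ) ≤ Real.sqrt (C5 * E) * Real.sqrt (n * s^(91/36 : ℝ)) := by
    rw [← Real.sqrt_mul (by positivity)]
    refine Real.le_sqrt_of_sq_le ?_
    have e1 : ((2:ℝ)^i * s^(4/3 : ℝ))^2 = (((2:ℝ)^i)^2 * ((2:ℝ)^m)^(-(5/48) : ℝ)) *
        (((2:ℝ)^m)^(5/48 : ℝ) * s^(8/3 : ℝ)) := by
      have e2 : ((2:ℝ)^m)^(-(5/48) : ℝ) * ((2:ℝ)^m)^(5/48 : ℝ) = 1 := by
        rw [← Real.rpow_add (by positivity)]; norm_num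
      have e3 : (s^(4/3 : ℝ))^2 = s^(8/3 : ℝ) := by
        rw [← Real.rpow_natCast, ← Real.rpow_mul hs0.le]; norm_num
      calc ((2:ℝ)^i * s^(4/3 : ℝ))^2 = ((2:ℝ)^i)^2 * (s^(4/3 : ℝ))^2 * 1 := by ring
        _ = _ := by rw [e3, ← e2]; ring
    have e4 : ((2:ℝ)^m)^(5/48 : ℝ) * s^(8/3 : ℝ) ≤ E * s^(91/36 : ℝ) := by
      have e5 : s^(8/3 : ℝ) = (s^(4/3 : ℝ))^(5/48 : ℝ) * s^(91/36 : ℝ) := by
        rw [← Real.rpow_mul hs0.le, ← Real.rpow_add hs0]; norm_num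
      rw [e5, ← mul_assoc, ← Real.mul_rpow (by positivity) (by positivity)]
      refine mul_le_mul_of_nonneg_right ?_ (by positivity)
      calc ((2:ℝ)^m * s^(4/3 : ℝ))^(5/48 : ℝ) ≤ E^(5/48 : ℝ) := by
            refine Real.rpow_le_rpow (by positivity) (le_trans ?_ hI2) (by norm_num)
            exact mul_le_mul_of_nonneg_right (pow_le_pow_right₀ (by norm_num) hmI) (by positivity)
        _ ≤ E^(1:ℝ) := Real.rpow_le_rpow_of_exponent_le hE (by norm_num)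
        _ = E := Real.rpow_one E
    rw [e1]
    calc _ ≤ (C5 * n) * (E * s^(91/36 : ℝ)) := mul_le_mul hi2 e4 (by positivity) (by positivity)
      _ = _ := by ring
  have g3 : Real.exp (-(7 * Cb * Real.sqrt (C5 * E) * Real.sqrt (n * s^(91/36 : ℝ)))) ≤
      Real.exp (-(Cb * (((7 * 2^i : ℕ) : ℝ) * s^(4/3 : ℝ)))) := by
    refine Real.exp_le_exp.mpr (neg_le_neg ?_)
    push_cast
    have := mul_le_mul_of_nonneg_left g2 (show 0 ≤ 7 * Cb by positivity)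
    linarith
  calc c4 * C5^(-(5/91) : ℝ) * cb * (n:ℝ)^(-(5/91) : ℝ) *
        Real.exp (-(7 * Cb * Real.sqrt (C5 * E) * Real.sqrt (n * s^(91/36 : ℝ))))
      = (c4 * (C5^(-(5/91) : ℝ) * (n:ℝ)^(-(5/91) : ℝ))) *
        (cb * Real.exp (-(7 * Cb * Real.sqrt (C5 * E) * Real.sqrt (n * s^(91/36 : ℝ))))) := by ring
    _ ≤ (c4 * ((2:ℝ)^m)^(-(5/48) : ℝ)) *
        (cb * Real.exp (-(Cb * (((7 * 2^i : ℕ) : ℝ) * s^(4/3 : ℝ))))) :=
        mul_le_mul (mul_le_mul_of_nonneg_left g1 hc4.le) (mul_le_mul_of_nonneg_left g3 hcb.le)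
          (by positivity) (by positivity)
    _ ≤ _ := mul_le_mul h1 h2 (by positivity) (Pr_nonneg (okq p.2.1 p.2.2) _ _)

end TH992.F
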