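import Pool.Agent.TH992.F.M1
import Pool.Agent.TH992.F.L3

/-!
The moments of the volume of finite clusters.
-/

set_option autoImplicit false

namespace TH992.F

open H974 Finset TH992.T MeasureTheory
open Pool.Agent.H160R2.CV (Far nv)

theorem meas_mem (x : Vtx) : MeasurableSet {ω : sqLattice.edgeSet → Bool | x ∈ cluster0 ω} := by
  have hU : {ω : sqLattice.edgeSet → Bool | x ∈ cluster0 ω} =
      ⋃ N : ℕ, {ω | TP x (FF (boxE N) ω)} := by
    ext ω
    simp only [Set.mem_iUnion, Set.mem_ofPred_eq]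
    constructor
    · intro h
      obtain ⟨N, hN⟩ := Pool.Agent.W424.NC.reach_box ((open_reach ω _ _).mp h)
      exact ⟨N, by unfold TP; rw [FF_coe]; exact hN⟩
    · rintro ⟨N, h⟩
      exact (open_reach ω _ _).mpr (Reach.mono (by rw [FF_coe]; exact Set.inter_subset_left) h)
  rw [hU]
  exact MeasurableSet.iUnion fun N => meas_event (boxE N) (TP x)

theorem meas_fin : MeasurableSet {ω : sqLattice.edgeSet → Bool | (cluster0 ω).Finite} := by
  have hU : {ω : sqLattice.edgeSet → Bool | (cluster0 ω).Finite} =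
      (⋂ n : ℕ, {ω | Arm n (FF (boxE n) ω)})ᶜ := by
    ext ω
    rw [Set.mem_compl_iff, Set.mem_iInter, Set.mem_ofPred_eq, ← Set.not_infinite,
      infinite_iff ω]
    have h : ∀ n : ℕ, Arm n (FF (boxE n) ω) ↔ ω ∈ {ω | Arm n (FF (boxE n) ω)} := fun n => Iff.rfl
    rw [not_iff_not]
    constructor
    · intro h1 n
      rw [Set.mem_ofPred_eq]
      exact h1 n
    · intro h1 n
      exact h1 n
  rw [hU]
  exact (MeasurableSet.iInter fun n => meas_event (boxE n) (Arm n)).compl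

theorem meas_vol (n : ℕ) : MeasurableSet {ω : sqLattice.edgeSet → Bool |
    (cluster0 ω).Finite ∧ n ≤ (cluster0 ω).ncard} := by
  have hU : {ω : sqLattice.edgeSet → Bool | (cluster0 ω).Finite ∧ n ≤ (cluster0 ω).ncard} =
      {ω | (cluster0 ω).Finite} ∩ ⋃ T : {T : Finset Vtx // T.card = n},
        ⋂ x ∈ T.1, {ω | x ∈ cluster0 ω} := by
    ext ω
    simp only [Set.mem_inter_iff, Set.mem_iUnion, Set.mem_iInter, Set.mem_ofPred_eq]
    refine and_congr_right fun hf => ?_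
    constructor
    · intro h
      rw [Set.ncard_eq_toFinset_card _ hf] at h
      obtain ⟨T, h1, h2⟩ := exists_subset_card_eq h
      exact ⟨⟨T, h2⟩, fun x hx => by
        have := h1 hx
        rwa [Set.Finite.mem_toFinset] at this⟩
    · rintro ⟨⟨T, h2⟩, h1⟩
      have h3 : (↑T : Set Vtx) ⊆ cluster0 ω := fun x hx => h1 x hx
      have h4 := Set.ncard_le_ncard h3 hf
      rw [Set.ncard_coe_finset, h2] at h4
      exact h4
  rw [hU]
  refine meas_fin.inter (MeasurableSet.iUnion fun T => ?_)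
  exact Finset.measurableSet_biInter _ fun x _ => meas_mem x

theorem pow_le_tsum {m k : ℕ} (hm : 1 ≤ m) : ((m : ENNReal))^k ≤
    ∑' j : ℕ, (if 2^j ≤ m then ENNReal.ofReal (((2:ℝ)^(j + 1))^k) else 0) := by
  have h1 : 2^(Nat.log 2 m) ≤ m := Nat.pow_log_le_self 2 (by omega)
  have h2 : m ≤ 2^(Nat.log 2 m + 1) := (Nat.lt_pow_succ_log_self (b := 2) (by norm_num) m).le
  refine le_trans ?_ (ENNReal.le_tsum (Nat.log 2 m))
  rw [if_pos h1, ENNReal.ofReal_pow (by positivity)]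
  refine pow_le_pow_left' ?_ k
  rw [← ENNReal.ofReal_natCast m]
  refine ENNReal.ofReal_le_ofReal ?_
  exact_mod_cast h2

theorem card_pos {ω : sqLattice.edgeSet → Bool} (hf : (cluster0 ω).Finite) :
    1 ≤ (cluster0 ω).ncard := by
  have h : (0, 0) ∈ cluster0 ω := (open_reach ω _ _).mpr (Reach.refl _ _)
  exact (Set.ncard_pos hf).mpr ⟨_, h⟩

/-- the moments of the volume of finite clusters: upper bound -/
theorem mom_upper {k : ℕ} (hk : 1 ≤ k) : ∃ C : ℝ, 0 < C ∧ ∀ p : unitInterval, (1/2 : ℝ) < p →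
    ∫⁻ ω in {ω | (cluster0 ω).Finite}, (((cluster0 ω).ncard : ENNReal))^k ∂(bondLaw p) ≤
      ENNReal.ofReal (C * ((p:ℝ) - 1/2)^(-((91 * k - 5) / 36) : ℝ)) := by
  obtain ⟨C1, c, hC1, hc, hvol⟩ := vol_upper
  obtain ⟨C2, hC2, hsum⟩ := sum_mom hc hk
  refine ⟨C1 * C2, by positivity, fun p hp => ?_⟩
  obtain ⟨s, hs⟩ : ∃ s : ℝ, s = (p:ℝ) - 1/2 := ⟨_, rfl⟩
  have hs0 : 0 < s := by rw [hs]; linarith
  have hs1 : s ≤ 1 := by rw [hs]; have := p.2.2; linarith
  rw [← hs]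
  obtain ⟨z, hz⟩ : ∃ z : ℝ, z = s^(-(91/36) : ℝ) := ⟨_, rfl⟩
  have hz1 : 1 ≤ z := by
    rw [hz]; exact Real.one_le_rpow_of_pos_of_le_one_of_nonpos hs0 hs1 (by norm_num)
  have hz0 : 0 < z := by linarith
  have hL : s^(91/36 : ℝ) = 1 / z := by
    rw [hz, Real.rpow_neg hs0.le, one_div, inv_inv]
  have hzp : z^((k:ℝ) - 5/91) = s^(-((91 * k - 5) / 36) : ℝ) := by
    rw [hz, ← Real.rpow_mul hs0.le]; congr 1; ring
  rw [← hzp]
  obtain ⟨A, hA⟩ : ∃ A : ℕ → Set (sqLattice.edgeSet → Bool), A = fun j =>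
    {ω | (cluster0 ω).Finite ∧ 2^j ≤ (cluster0 ω).ncard} := ⟨_, rfl⟩
  have hAm : ∀ j, MeasurableSet (A j) := fun j => by rw [hA]; exact meas_vol (2^j)
  have h1 : ∫⁻ ω in {ω | (cluster0 ω).Finite}, (((cluster0 ω).ncard : ENNReal))^k ∂(bondLaw p) ≤
      ∫⁻ ω, ∑' j : ℕ, (A j).indicator (fun _ => ENNReal.ofReal (((2:ℝ)^(j + 1))^k)) ω
        ∂(bondLaw p) := by
    refine (setLIntegral_mono' meas_fin (g := fun ω => ∑' j : ℕ, (A j).indicator
      (fun _ => ENNReal.ofReal (((2:ℝ)^(j + 1))^k)) ω) fun ω hω => ?_).trans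
      (setLIntegral_le_lintegral _ _)
    have hf : (cluster0 ω).Finite := hω
    refine (pow_le_tsum (card_pos hf)).trans (ENNReal.tsum_le_tsum fun j => ?_)
    by_cases h : 2^j ≤ (cluster0 ω).ncard
    · rw [if_pos h]
      have h2 : ω ∈ A j := by rw [hA]; exact ⟨hf, h⟩
      rw [Set.indicator_of_mem h2]
    · rw [if_neg h]
      exact bot_le
  refine h1.trans ?_
  rw [lintegral_tsum fun j => (measurable_const.indicator (hAm j)).aemeasurable]
  refine ENNReal.tsum_le_of_sum_range_le fun J => ?_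
  have h2 : ∀ j : ℕ, ∫⁻ ω, (A j).indicator (fun _ => ENNReal.ofReal (((2:ℝ)^(j + 1))^k)) ω
      ∂(bondLaw p) = ENNReal.ofReal (((2:ℝ)^(j + 1))^k * (bondLaw p).real (A j)) := by
    intro j
    rw [lintegral_indicator_const (hAm j), ENNReal.ofReal_mul (by positivity),
      ofReal_measureReal (measure_ne_top _ _)]
  rw [sum_congr rfl fun j _ => h2 j, ← ENNReal.ofReal_sum_of_nonneg fun j _ =>
    mul_nonneg (by positivity) measureReal_nonneg]
  refine ENNReal.ofReal_le_ofReal ?_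
  have h3 : ∀ j ∈ range J, ((2:ℝ)^(j + 1))^k * (bondLaw p).real (A j) ≤
      C1 * (((2:ℝ)^(j + 1))^k * (((2:ℝ)^j)^(-(5/91) : ℝ) *
        Real.exp (-(c * Real.sqrt ((2:ℝ)^j / z))))) := by
    intro j _
    have h4 := hvol p hp (2^j) Nat.one_le_two_pow
    rw [← hs, hL] at h4
    push_cast at h4
    have h5 : (2:ℝ)^j * (1 / z) = (2:ℝ)^j / z := by ring
    rw [h5] at h4
    have h6 : (bondLaw p).real (A j) ≤ C1 * ((2:ℝ)^j)^(-(5/91) : ℝ) *
        Real.exp (-(c * Real.sqrt ((2:ℝ)^j / z))) := by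
      rw [hA]; exact h4
    have h7 := mul_le_mul_of_nonneg_left h6 (show 0 ≤ ((2:ℝ)^(j + 1))^k by positivity)
    refine h7.trans (le_of_eq ?_)
    ring
  refine (sum_le_sum h3).trans ?_
  rw [← mul_sum]
  have h4 := mul_le_mul_of_nonneg_left (hsum z hz1 J) hC1.le
  linarith

/-- the moments of the volume of finite clusters: lower bound -/
theorem mom_lower (k : ℕ) : ∃ c : ℝ, 0 < c ∧ ∀ p : unitInterval, (1/2 : ℝ) < p →
    (p:ℝ) ≤ 3/4 → ENNReal.ofReal (c * ((p:ℝ) - 1/2)^(-((91 * k - 5) / 36) : ℝ)) ≤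
    ∫⁻ ω in {ω | (cluster0 ω).Finite}, (((cluster0 ω).ncard : ENNReal))^k ∂(bondLaw p) := by
  obtain ⟨c, C, hc, hC, hvol⟩ := vol_lower
  refine ⟨c * 2^(-(5/91) : ℝ) * Real.exp (-(C * Real.sqrt 2)), by positivity, fun p hp hp1 => ?_⟩
  obtain ⟨s, hs⟩ : ∃ s : ℝ, s = (p:ℝ) - 1/2 := ⟨_, rfl⟩
  have hs0 : 0 < s := by rw [hs]; linarith
  have hs1 : s ≤ 1 := by rw [hs]; have := p.2.2; linarith
  rw [← hs]
  obtain ⟨z, hz⟩ : ∃ z : ℝ, z = s^(-(91/36) : ℝ) := ⟨_, rfl⟩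
  have hz1 : 1 ≤ z := by
    rw [hz]; exact Real.one_le_rpow_of_pos_of_le_one_of_nonpos hs0 hs1 (by norm_num)
  have hz0 : 0 < z := by linarith
  have hL : s^(91/36 : ℝ) = 1 / z := by
    rw [hz, Real.rpow_neg hs0.le, one_div, inv_inv]
  have hzp : z^((k:ℝ) - 5/91) = s^(-((91 * k - 5) / 36) : ℝ) := by
    rw [hz, ← Real.rpow_mul hs0.le]; congr 1; ring
  rw [← hzp]
  obtain ⟨n, hn⟩ : ∃ n : ℕ, n = ⌈z⌉₊ := ⟨_, rfl⟩
  have hnz : z ≤ n := by rw [hn]; exact Nat.le_ceil z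
  have hnz2 : (n:ℝ) ≤ 2 * z := by
    have := Nat.ceil_lt_add_one hz0.le
    rw [hn]; linarith
  have hn1 : 1 ≤ n := by
    have : (1:ℝ) ≤ n := by linarith
    exact_mod_cast this
  have h1 := hvol p hp hp1 n hn1
  rw [← hs, hL] at h1
  obtain ⟨A, hA⟩ : ∃ A : Set (sqLattice.edgeSet → Bool), A =
    {ω | (cluster0 ω).Finite ∧ n ≤ (cluster0 ω).ncard} := ⟨_, rfl⟩
  have hAm : MeasurableSet A := by rw [hA]; exact meas_vol n
  have h2 : c * 2^(-(5/91) : ℝ) * Real.exp (-(C * Real.sqrt 2)) * z^(-(5/91) : ℝ) ≤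
      (bondLaw p).real A := by
    rw [hA]
    refine le_trans ?_ h1
    have e1 : Real.exp (-(C * Real.sqrt 2)) ≤ Real.exp (-(C * Real.sqrt (n * (1 / z)))) := by
      refine Real.exp_le_exp.mpr (neg_le_neg (mul_le_mul_of_nonneg_left ?_ hC.le))
      refine Real.sqrt_le_sqrt ?_
      rw [mul_one_div, div_le_iff₀ hz0]
      exact hnz2
    have e2 : 2^(-(5/91) : ℝ) * z^(-(5/91) : ℝ) ≤ (n:ℝ)^(-(5/91) : ℝ) := by
      rw [← Real.mul_rpow (by norm_num) hz0.le]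
      exact Real.rpow_le_rpow_of_nonpos (by positivity) hnz2 (by norm_num)
    calc _ = c * (2^(-(5/91) : ℝ) * z^(-(5/91) : ℝ)) * Real.exp (-(C * Real.sqrt 2)) := by ring
      _ ≤ _ := mul_le_mul (mul_le_mul_of_nonneg_left e2 hc.le) e1 (Real.exp_pos _).le
        (by positivity)
  have h3 : ∫⁻ ω in A, (((cluster0 ω).ncard : ENNReal))^k ∂(bondLaw p) ≤
      ∫⁻ ω in {ω | (cluster0 ω).Finite}, (((cluster0 ω).ncard : ENNReal))^k ∂(bondLaw p) := by
    refine lintegral_mono_set ?_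
    rw [hA]
    exact fun ω hω => hω.1
  refine le_trans ?_ h3
  have h4 : ∫⁻ _ in A, ENNReal.ofReal (z^k) ∂(bondLaw p) ≤
      ∫⁻ ω in A, (((cluster0 ω).ncard : ENNReal))^k ∂(bondLaw p) := by
    refine setLIntegral_mono' hAm fun ω hω => ?_
    rw [hA] at hω
    rw [ENNReal.ofReal_pow hz0.le]
    refine pow_le_pow_left' ?_ k
    rw [← ENNReal.ofReal_natCast]
    refine ENNReal.ofReal_le_ofReal (hnz.trans ?_)
    exact_mod_cast hω.2
  refine le_trans ?_ h4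
  rw [setLIntegral_const, ← ofReal_measureReal (measure_ne_top _ _),
    ← ENNReal.ofReal_mul (by positivity)]
  refine ENNReal.ofReal_le_ofReal ?_
  have h5 := mul_le_mul_of_nonneg_left h2 (show 0 ≤ z^k by positivity)
  refine le_trans (le_of_eq ?_) h5
  have e3 : z^((k:ℝ) - 5/91) = z^k * z^(-(5/91) : ℝ) := by
    rw [← Real.rpow_natCast z k, ← Real.rpow_add hz0]; congr 1
  rw [e3]
  ring

end TH992.F
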