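import Pool.Agent.W424.NC.Win

/-!
The correlation scale above the critical point: it is a power of two `2 ^ I` of order
`(p - 1/2) ^ (-4/3)`; the one-arm probability is of order `n ^ (-5/48)` up to this scale, and does
not decrease any more beyond it.
-/

set_option autoImplicit false

namespace TH992.F

open H31K H974 Finset

theorem scaleN : ∃ E C c : ℝ, 1 ≤ E ∧ 0 < C ∧ 0 < c ∧ ∀ p : ℝ, 1/2 < p → p ≤ 1 → ∃ I : ℕ, 1 ≤ I ∧
    ((2:ℝ)^I) * (p - 1/2)^(4/3 : ℝ) ≤ E ∧ 1 ≤ ((2:ℝ)^I) * (p - 1/2)^(4/3 : ℝ) ∧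
    eps p (2^I) ≤ 1/100 ∧
    (∀ n : ℕ, 1 ≤ n → n ≤ 2^I → arm p n ≤ C * (n:ℝ)^(-(5/48) : ℝ)) ∧
    (∀ n : ℕ, 1 ≤ n → n ≤ 2^I → c * (n:ℝ)^(-(5/48) : ℝ) ≤ arm p n) ∧
    (∀ n : ℕ, c * ((2:ℝ)^I)^(-(5/48) : ℝ) ≤ arm p n) := by
  obtain ⟨E0, hE0, hfar⟩ := Pool.Agent.W424.NC.farS
  obtain ⟨κ0, b, hκ0, hb, hst⟩ := Pool.Agent.W424.NC.armS
  obtain ⟨c1, C1, hc1, hC1, harm⟩ := Pool.Agent.W424.NC.arm_crit
  obtain ⟨G, hG⟩ : ∃ G : ℝ, G = 4 * E0 * b^(-(4/3) : ℝ) + 1 := ⟨_, rfl⟩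
  have hbp : 0 < b^(-(4/3) : ℝ) := Real.rpow_pos_of_pos hb _
  have hG1 : 1 ≤ G := by rw [hG]; have : 0 < 4 * E0 * b^(-(4/3) : ℝ) := by positivity
                         linarith
  have hG0 : 0 < G := by linarith
  have hGp : 1 ≤ G^(5/48 : ℝ) := Real.one_le_rpow hG1 (by norm_num)
  refine ⟨2 * E0, 3 * C1 * G^(5/48 : ℝ) + G^(5/48 : ℝ), min c1 (1/2 * (c1 * (2:ℝ)^(-(5/48) : ℝ))),
    by linarith, by positivity, by positivity, ?_⟩
  intro p hp hp1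
  have hp0 : 0 ≤ p := by linarith
  obtain ⟨s, hs⟩ : ∃ s : ℝ, s = p - 1/2 := ⟨_, rfl⟩
  have hs0 : 0 < s := by rw [hs]; linarith
  have hs1 : s ≤ 1/2 := by rw [hs]; linarith
  rw [← hs]
  obtain ⟨x, hx⟩ : ∃ x : ℝ, x = s^(-(4/3) : ℝ) := ⟨_, rfl⟩
  have hx0 : 0 < x := by rw [hx]; positivity
  have hx2 : 2 < x := by
    have h1 : (1/2 : ℝ)^(-(4/3) : ℝ) ≤ x := by
      rw [hx]
      exact Real.rpow_le_rpow_of_nonpos hs0 hs1 (by norm_num)
    have h2 : (2:ℝ) < (1/2 : ℝ)^(-(4/3) : ℝ) := by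
      rw [Real.rpow_neg (by norm_num), ← Real.inv_rpow (by norm_num)]
      have h3 : ((1/2 : ℝ)⁻¹) = 2 := by norm_num
      rw [h3]
      calc (2:ℝ) = 2^(1:ℝ) := (Real.rpow_one 2).symm
        _ < 2^(4/3 : ℝ) := Real.rpow_lt_rpow_of_exponent_lt (by norm_num) (by norm_num)
    linarith
  have hxs : x * s^(4/3 : ℝ) = 1 := by
    rw [hx, ← Real.rpow_add hs0]; norm_num
  have hs43 : 0 < s^(4/3 : ℝ) := by positivity
  obtain ⟨I, hI, hImin⟩ : ∃ I : ℕ, E0 * x ≤ (2:ℝ)^I ∧ ∀ J : ℕ, J < I → (2:ℝ)^J < E0 * x := by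
    classical
    have hex : ∃ n : ℕ, E0 * x ≤ (2:ℝ)^n := by
      obtain ⟨n, hn⟩ := pow_unbounded_of_one_lt (E0 * x) (by norm_num : (1:ℝ) < 2)
      exact ⟨n, hn.le⟩
    refine ⟨Nat.find hex, Nat.find_spec hex, fun J hJ => ?_⟩
    have := Nat.find_min hex hJ
    push Not at this
    exact this
  have hEx : 2 < E0 * x := by nlinarith
  have hI1 : 1 ≤ I := by
    by_contra hcon
    have h0 : I = 0 := by omega
    rw [h0, pow_zero] at hI
    linarith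
  have hIle : (2:ℝ)^I ≤ 2 * (E0 * x) := by
    have h1 := hImin (I - 1) (by omega)
    have h2 : (2:ℝ)^I = 2 * 2^(I - 1) := by
      rw [← pow_succ']; congr 1; omega
    linarith
  have hfar' : eps p (2^I) ≤ 1/100 := by
    apply hfar p hp hp1
    rw [← hs, ← hx]
    push_cast
    exact hI
  have hlow : ∀ n : ℕ, 1 ≤ n → c1 * (n:ℝ)^(-(5/48) : ℝ) ≤ arm p n := fun n hn =>
    (harm n hn).1.trans (arm_mono_param (by norm_num) hp.le hp1 n)
  refine ⟨I, hI1, ?_, ?_, hfar', ?_, ?_, ?_⟩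
  · calc (2:ℝ)^I * s^(4/3 : ℝ) ≤ (2 * (E0 * x)) * s^(4/3 : ℝ) :=
        mul_le_mul_of_nonneg_right hIle hs43.le
      _ = 2 * E0 * (x * s^(4/3 : ℝ)) := by ring
      _ = 2 * E0 := by rw [hxs, mul_one]
  · calc (1:ℝ) ≤ E0 * 1 := by linarith
      _ = (E0 * x) * s^(4/3 : ℝ) := by rw [mul_assoc, hxs]
      _ ≤ (2:ℝ)^I * s^(4/3 : ℝ) := mul_le_mul_of_nonneg_right hI hs43.le
  · intro n hn hnI
    have hn1 : (1:ℝ) ≤ n := by exact_mod_cast hn
    have hn0 : (0:ℝ) < n := by linarith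
    have hnI' : (n:ℝ) ≤ 2^I := by exact_mod_cast hnI
    have hnp : 0 < (n:ℝ)^(-(5/48) : ℝ) := Real.rpow_pos_of_pos hn0 _
    obtain ⟨y, hy⟩ : ∃ y : ℝ, y = (b/s)^(4/3 : ℝ) := ⟨_, rfl⟩
    have hbs : 0 < b / s := by positivity
    have hya : y^(3/4 : ℝ) = b/s := by
      rw [hy, ← Real.rpow_mul hbs.le]; norm_num
    have hyx : y = b^(4/3 : ℝ) * x := by
      rw [hy, Real.div_rpow hb.le hs0.le, hx, Real.rpow_neg hs0.le, div_eq_mul_inv]
    have hy0 : 0 < y := by rw [hy]; positivity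
    -- `n ≤ G y / 2`
    have hnG : (n:ℝ) ≤ G * (y / 2) := by
      have h1 : (n:ℝ) ≤ 2 * (E0 * x) := hnI'.trans hIle
      have h2 : 2 * (E0 * x) = 4 * E0 * b^(-(4/3) : ℝ) * (y / 2) := by
        rw [hyx]
        have h3 : b^(-(4/3) : ℝ) * b^(4/3 : ℝ) = 1 := by
          rw [← Real.rpow_add hb]; norm_num
        calc 2 * (E0 * x) = 2 * (E0 * x) * 1 := by ring
          _ = 2 * (E0 * x) * (b^(-(4/3) : ℝ) * b^(4/3 : ℝ)) := by rw [h3]
          _ = _ := by ring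
      rw [h2] at h1
      refine h1.trans (mul_le_mul_of_nonneg_right ?_ (by positivity))
      rw [hG]; linarith
    have hwin : ∀ m : ℕ, 1 ≤ m → (m:ℝ) ≤ y → arm p m ≤ 3 * (C1 * (m:ℝ)^(-(5/48) : ℝ)) := by
      intro m hm hmy
      have hm0 : (0:ℝ) < m := by exact_mod_cast hm
      have h1 : |p - 1/2| ≤ b * (m:ℝ)^(-(3/4 : ℝ)) := by
        rw [← hs, abs_of_pos hs0]
        have h3 : (m:ℝ)^(3/4 : ℝ) ≤ b/s := by
          rw [← hya]; exact Real.rpow_le_rpow hm0.le hmy (by norm_num)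
        rw [Real.rpow_neg hm0.le, ← div_eq_mul_inv, le_div_iff₀ (by positivity)]
        rw [le_div_iff₀ hs0] at h3
        linarith
      obtain ⟨_, h5, _⟩ := hst m hm p h1
      have h6 := (harm m hm).2
      linarith
    rcases le_or_gt (n:ℝ) y with hny | hny
    · refine (hwin n hn hny).trans ?_
      have h1 : 3 * C1 ≤ 3 * C1 * G^(5/48 : ℝ) + G^(5/48 : ℝ) := by nlinarith
      calc 3 * (C1 * (n:ℝ)^(-(5/48) : ℝ)) = (3 * C1) * (n:ℝ)^(-(5/48) : ℝ) := by ring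
        _ ≤ _ := mul_le_mul_of_nonneg_right h1 hnp.le
    · rcases le_or_gt 1 y with hy1 | hy1
      · obtain ⟨m, hm⟩ : ∃ m : ℕ, m = ⌊y⌋₊ := ⟨_, rfl⟩
        have hm1 : 1 ≤ m := by rw [hm]; exact Nat.le_floor (by exact_mod_cast hy1)
        have hmy : (m:ℝ) ≤ y := by rw [hm]; exact Nat.floor_le hy0.le
        have hmn : m ≤ n := by
          have : (m:ℝ) ≤ n := by linarith
          exact_mod_cast this
        have hym : y / 2 ≤ m := by
          have h1 := Nat.lt_floor_add_one y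
          rw [← hm] at h1
          have h2 : (1:ℝ) ≤ m := by exact_mod_cast hm1
          linarith
        have h1 := hwin m hm1 hmy
        have h2 : (m:ℝ)^(-(5/48) : ℝ) ≤ G^(5/48 : ℝ) * (n:ℝ)^(-(5/48) : ℝ) := by
          calc (m:ℝ)^(-(5/48) : ℝ) ≤ ((n:ℝ) / G)^(-(5/48) : ℝ) := by
                refine Real.rpow_le_rpow_of_nonpos (by positivity) ?_ (by norm_num)
                rw [div_le_iff₀ hG0]
                calc (n:ℝ) ≤ G * (y / 2) := hnG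
                  _ ≤ G * m := mul_le_mul_of_nonneg_left hym hG0.le
                  _ = m * G := mul_comm _ _
            _ = _ := by
                rw [Real.div_rpow hn0.le hG0.le, Real.rpow_neg hG0.le, div_inv_eq_mul, mul_comm]
        calc arm p n ≤ arm p m := arm_anti hp0 hp1 hmn
          _ ≤ 3 * (C1 * (m:ℝ)^(-(5/48) : ℝ)) := h1
          _ ≤ 3 * (C1 * (G^(5/48 : ℝ) * (n:ℝ)^(-(5/48) : ℝ))) := by
              have := mul_le_mul_of_nonneg_left h2 hC1.le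
              linarith
          _ = (3 * C1 * G^(5/48 : ℝ)) * (n:ℝ)^(-(5/48) : ℝ) := by ring
          _ ≤ _ := by
              apply mul_le_mul_of_nonneg_right _ hnp.le
              linarith
      · have h1 : (n:ℝ) ≤ G := by
          calc (n:ℝ) ≤ G * (y / 2) := hnG
            _ ≤ G * 1 := mul_le_mul_of_nonneg_left (by linarith) hG0.le
            _ = G := mul_one G
        have h2 : 1 ≤ G^(5/48 : ℝ) * (n:ℝ)^(-(5/48) : ℝ) := by
          rw [Real.rpow_neg hn0.le, ← div_eq_mul_inv, le_div_iff₀ (by positivity), one_mul]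
          exact Real.rpow_le_rpow hn0.le h1 (by norm_num)
        calc arm p n ≤ 1 := arm_le_one hp0 hp1 n
          _ ≤ G^(5/48 : ℝ) * (n:ℝ)^(-(5/48) : ℝ) := h2
          _ ≤ _ := by
              apply mul_le_mul_of_nonneg_right _ hnp.le
              have : 0 < 3 * C1 * G^(5/48 : ℝ) := by positivity
              linarith
  · intro n hn _
    refine le_trans (mul_le_mul_of_nonneg_right (min_le_left _ _) (by positivity)) (hlow n hn)
  · intro n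
    have h2 : 2 ≤ 2^I := by
      calc 2 = 2^1 := rfl
        _ ≤ 2^I := Nat.pow_le_pow_right (by norm_num) hI1
    have h1 := arm_chain hp0 hp1 h2 hfar' n
    have h3 := hlow (2 * 2^I) (by omega)
    have h4 : ((2 * 2^I : ℕ) : ℝ)^(-(5/48) : ℝ) =
        (2:ℝ)^(-(5/48) : ℝ) * ((2:ℝ)^I)^(-(5/48) : ℝ) := by
      push_cast
      rw [Real.mul_rpow (by norm_num) (by positivity)]
    rw [h4] at h3
    calc min c1 (1/2 * (c1 * (2:ℝ)^(-(5/48) : ℝ))) * ((2:ℝ)^I)^(-(5/48) : ℝ)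
        ≤ (1/2 * (c1 * (2:ℝ)^(-(5/48) : ℝ))) * ((2:ℝ)^I)^(-(5/48) : ℝ) :=
          mul_le_mul_of_nonneg_right (min_le_right _ _) (by positivity)
      _ = 1/2 * (c1 * ((2:ℝ)^(-(5/48) : ℝ) * ((2:ℝ)^I)^(-(5/48) : ℝ))) := by ring
      _ ≤ 1/2 * arm p (2 * 2^I) := by linarith
      _ ≤ arm p n := h1

end TH992.F
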