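import Pool.Agent.TH992.F.A
import Pool.Agent.TH992.T.Tail3
import Pool.Agent.H160R2.CV.Quad

/-!
The number of vertices with an arm, in boxes below a given scale: exponential moments.
-/

set_option autoImplicit false

namespace TH992.F

open H974 Finset TH992.T
open Pool.Agent.H160R2.CV (Far nv)
open Pool.Agent.H160R2.CV.Quad (bo LA LA_of_far far_of_LA LA_of_reach)

/-- The one-arm probability has the critical order up to the scale `2 ^ I`. -/
structure Sc (C p : ℝ) (I : ℕ) : Prop where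
  h0 : 0 ≤ p
  h1 : p ≤ 1
  arm_le : ∀ n : ℕ, 1 ≤ n → n ≤ 2^I → arm p n ≤ C * (n:ℝ)^(-(5/48) : ℝ)

/-- The indicator of an arm from `v` to distance `s / 5`, for `s ≤ 2 ^ I`. -/
noncomputable def xc (I : ℕ) (s : ℕ) (v : Vtx) (F : Finset Edg) : ℝ :=
  if s ≤ 2^I then ind (Far v (s / 5) F) else 0

theorem far_mono_F {v : Vtx} {r : ℕ} {F G : Finset Edg} (h : F ⊆ G) (hF : Far v r F) :
    Far v r G := by
  obtain ⟨u, h1, h2⟩ := hF
  exact ⟨u, h1, h2.mono (by exact_mod_cast h)⟩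

theorem far_mono_r {v : Vtx} {r s : ℕ} {F : Finset Edg} (h : r ≤ s) (hF : Far v s F) :
    Far v r F := by
  obtain ⟨u, h1, h2⟩ := hF
  exact ⟨u, h.trans h1, h2⟩

theorem far_loc {S F : Finset Edg} (hF : F ⊆ S) {v : Vtx} {r s : ℕ} (h : r ≤ s) :
    Far v r F ↔ Far v r (F ∩ (RE (v.1 - s) (v.1 + s) (v.2 - s) (v.2 + s) ∩ S)) := by
  constructor
  · intro h1
    obtain ⟨w, k1, k2, k3⟩ := LA_of_far le_rfl h1
    refine ⟨w, ?_, k3.mono ?_⟩
    · unfold nv
      simp only [Prod.fst_sub, Prod.snd_sub]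
      unfold inR at k1
      omega
    · rintro e ⟨he1, he2⟩
      rw [mem_coe] at he1 he2 ⊢
      refine mem_inter.mpr ⟨he1, mem_inter.mpr ⟨?_, hF he1⟩⟩
      unfold bo at he2
      exact RE_sub_RE (by omega) (by omega) (by omega) (by omega) he2
  · exact far_mono_F inter_subset_left

theorem pr_far {p : ℝ} (h0 : 0 ≤ p) (h1 : p ≤ 1) (S : Finset Edg) (v : Vtx) (r : ℕ) :
    Pr (fun _ => p) S (Far v r) ≤ arm p r := by
  refine le_trans (Pr_mono (okq h0 h1) ?_) (arm_bound h0 h1 S v r)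
  rintro F _ ⟨w, k1, k2⟩
  unfold nv at k1
  simp only [Prod.fst_sub, Prod.snd_sub] at k1
  exact ⟨w, by omega, k2⟩

theorem arm_fifth {C p : ℝ} {I : ℕ} (hC : 0 < C) (h : Sc C p I) {s : ℕ} (hs : 1 ≤ s)
    (hsI : s ≤ 2^I) : arm p (s / 5) ≤ (10 * C + 5) * (s : ℝ) ^ (-(5/48) : ℝ) := by
  have hs0 : (0 : ℝ) < s := by exact_mod_cast hs
  have hp : 0 < (s : ℝ) ^ (-(5/48) : ℝ) := Real.rpow_pos_of_pos hs0 _
  rcases Nat.lt_or_ge s 5 with h5 | h5
  · have h1 : (1 : ℝ) / 5 ≤ (s : ℝ) ^ (-(5/48) : ℝ) := by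
      calc (1 : ℝ) / 5 = (5 : ℝ) ^ (-1 : ℝ) := by rw [Real.rpow_neg_one]; norm_num
        _ ≤ (5 : ℝ) ^ (-(5/48) : ℝ) :=
          Real.rpow_le_rpow_of_exponent_le (by norm_num) (by norm_num)
        _ ≤ (s : ℝ) ^ (-(5/48) : ℝ) := by
          refine Real.rpow_le_rpow_of_nonpos hs0 ?_ (by norm_num)
          exact_mod_cast h5.le
    have h2 : 0 ≤ 10 * C * (s : ℝ) ^ (-(5/48) : ℝ) := by positivity
    have h3 := arm_le_one h.h0 h.h1 (s / 5)
    linarith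
  · have h1 : 1 ≤ s / 5 := by omega
    have h2 : s ≤ 10 * (s / 5) := by omega
    have h3 : (s : ℝ) ≤ 10 * ((s / 5 : ℕ) : ℝ) := by exact_mod_cast h2
    have h4 : (0 : ℝ) < ((s / 5 : ℕ) : ℝ) := by exact_mod_cast h1
    refine (h.arm_le (s / 5) h1 ((Nat.div_le_self _ _).trans hsI)).trans ?_
    have h5 : ((s / 5 : ℕ) : ℝ) ^ (-(5 / 48) : ℝ) ≤ 10 * (s : ℝ) ^ (-(5/48) : ℝ) := by
      calc ((s / 5 : ℕ) : ℝ) ^ (-(5 / 48) : ℝ) ≤ ((s : ℝ) / 10) ^ (-(5 / 48) : ℝ) :=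
            Real.rpow_le_rpow_of_nonpos (by positivity) (by linarith) (by norm_num)
        _ = (s : ℝ) ^ (-(5/48) : ℝ) * (10 : ℝ) ^ (5/48 : ℝ) := by
            rw [Real.div_rpow hs0.le (by norm_num), Real.rpow_neg (by norm_num : (0:ℝ) ≤ 10),
              div_inv_eq_mul]
        _ ≤ (s : ℝ) ^ (-(5/48) : ℝ) * 10 := by
            refine mul_le_mul_of_nonneg_left ?_ hp.le
            calc (10 : ℝ) ^ (5/48 : ℝ) ≤ (10 : ℝ) ^ (1 : ℝ) :=
                  Real.rpow_le_rpow_of_exponent_le (by norm_num) (by norm_num)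
              _ = 10 := Real.rpow_one _
        _ = _ := by ring
    have h6 := mul_le_mul_of_nonneg_left h5 hC.le
    linarith

theorem xc_fam {C p : ℝ} {I : ℕ} (hC : 0 < C) (h : Sc C p I) (S : Finset Edg) :
    Fam (5/48) 1 (10 * C + 5) (fun _ => p) S (xc I) := by
  exact {
    ok := okq h.h0 h.h1
    nonneg := fun s v F => by
      unfold xc; split_ifs
      · exact ind_nonneg _
      · exact le_rfl
    le := fun s v F => by
      unfold xc; split_ifs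
      · exact ind_le_one _
      · exact zero_le_one
    anti := fun s s' v F hs => by
      unfold xc
      split_ifs with h1 h2 h2
      · exact ind_mono (far_mono_r (Nat.div_le_div_right hs))
      · exact absurd (hs.trans h1) h2
      · exact ind_nonneg _
      · exact le_rfl
    loc := fun s v F hF => by
      unfold xc
      split_ifs
      · rw [propext (far_loc hF (Nat.div_le_self s 5))]
      · rfl
    mean := fun s hs b c => by
      have hs0 : (0 : ℝ) < s := by exact_mod_cast hs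
      by_cases hsI : s ≤ 2^I
      · have h1 : ∀ v ∈ Bq b c s, Ex (fun _ => p) S (xc I s v) ≤
            (10 * C + 5) * (s : ℝ) ^ (-(5/48) : ℝ) := by
          intro v _
          refine le_trans ?_ (arm_fifth hC h hs hsI)
          refine le_trans ?_ (pr_far h.h0 h.h1 S v (s / 5))
          unfold Pr
          refine Ex_mono (okq h.h0 h.h1) fun F _ => ?_
          unfold xc
          rw [if_pos hsI]
        refine (sum_le_sum h1).trans ?_
        rw [sum_const, card_Bq, nsmul_eq_mul]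
        push_cast
        have e : (s : ℝ) ^ (2 - 5/48 : ℝ) = (s : ℝ) * s * (s : ℝ) ^ (-(5/48) : ℝ) := by
          rw [show (2 - 5/48 : ℝ) = 1 + (1 + (-(5/48))) by norm_num, Real.rpow_add hs0,
            Real.rpow_add hs0, Real.rpow_one]
          ring
        rw [e]
        refine le_of_eq ?_
        ring
      · have h1 : ∀ v ∈ Bq b c s, Ex (fun _ => p) S (xc I s v) = 0 := by
          intro v _
          have h2 : xc I s v = fun _ => (0:ℝ) := by
            funext F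
            unfold xc
            rw [if_neg hsI]
          rw [h2, Ex_const]
        rw [sum_congr rfl h1, sum_const_zero]
        positivity }

/-- exponential moments of the normalised numbers, uniform in all parameters -/
theorem exp_mom {C : ℝ} (hC : 0 < C) : ∃ K : ℝ, 1 ≤ K ∧ ∀ (p : ℝ) (I : ℕ), Sc C p I →
    ∀ (S : Finset Edg) (s : ℕ) (b c : ℤ), 1 ≤ s →
      Ex (fun _ => p) S (fun F => Real.exp (Yb (5/48) (xc I) s b c F / 2)) ≤ K := by
  obtain ⟨u0, h0⟩ := tail0 (a := 5/48) (C0 := 10 * C + 5) (by norm_num) (by norm_num) 1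
    (by positivity)
  refine ⟨max (Real.exp (u0 + 1 / 2) * (1 - Real.exp (-(1/2)))⁻¹) 1, le_max_right _ _,
    fun p I h S s b c hs => ?_⟩
  have hf := xc_fam hC h S
  refine (expmom hf.ok (Yb (5/48) (xc I) s b c) (fun F => Yb_nonneg hf s b c F) (u0 := u0)
    (fun v hv => ?_) ⌈1 * (s : ℝ) ^ (5/48 : ℝ)⌉₊ (fun F _ => ?_)).trans (le_max_left _ _)
  · exact h0 _ S _ hf s _ _ v hs hv
  · exact (Yb_le hf hs _ _ F).trans (Nat.le_ceil _)

/-- The number of vertices of the box `[-2 · 2^i, 3 · 2^i)²` with an arm at scale `2 ^ m`. -/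
noncomputable def MM (I i m : ℕ) (F : Finset Edg) : ℝ :=
  ∑ q ∈ range (5 * 2^(i - m)) ×ˢ range (5 * 2^(i - m)),
    Nb (xc I) (2^m) (-(2 * 2^i) + q.1 * ((2^m : ℕ) : ℤ)) (-(2 * 2^i) + q.2 * ((2^m : ℕ) : ℤ)) F

theorem MM_nonneg {C p : ℝ} {I : ℕ} (hC : 0 < C) (h : Sc C p I) (i m : ℕ) (F : Finset Edg) :
    0 ≤ MM I i m F := sum_nonneg fun _ _ => Nb_nonneg (xc_fam hC h ∅) _ _ _ _

theorem MM_eq (I i m : ℕ) (F : Finset Edg) :
    MM I i m F = ((2^m : ℕ) : ℝ)^(2 - 5/48 : ℝ) *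
      ∑ q ∈ range (5 * 2^(i - m)) ×ˢ range (5 * 2^(i - m)), Yb (5/48) (xc I) (2^m)
        (-(2 * 2^i) + q.1 * ((2^m : ℕ) : ℤ)) (-(2 * 2^i) + q.2 * ((2^m : ℕ) : ℤ)) F := by
  unfold MM Yb
  rw [mul_sum]
  refine sum_congr rfl fun q _ => ?_
  have h1 : ((2^m : ℕ) : ℝ)^(2 - 5/48 : ℝ) ≠ 0 :=
    (Real.rpow_pos_of_pos (by positivity) _).ne'
  field_simp

/-- tail of the number -/
theorem MM_tail {C : ℝ} (hC : 0 < C) : ∃ k : ℝ, 0 ≤ k ∧ ∀ (p : ℝ) (I : ℕ), Sc C p I →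
    ∀ (S : Finset Edg) (i m : ℕ) (n : ℝ), Pr (fun _ => p) S (fun F => n ≤ MM I i m F) ≤
      9 * Real.exp (k * ((2:ℝ)^(i - m))^2 - n / ((2:ℝ)^m)^(2 - 5/48 : ℝ) / 18) := by
  obtain ⟨K, hK1, hK⟩ := exp_mom hC
  refine ⟨25 * Real.log K, by have := Real.log_nonneg hK1; positivity,
    fun p I h S i m n => ?_⟩
  have hK0 : 0 < K := by linarith
  have hf := xc_fam hC h S
  have hm1 : 1 ≤ 2^m := Nat.one_le_two_pow
  have hm0 : (0:ℝ) < ((2:ℝ)^m)^(2 - 5/48 : ℝ) := Real.rpow_pos_of_pos (by positivity) _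
  obtain ⟨t, ht⟩ : ∃ t : ℝ, t = n / ((2:ℝ)^m)^(2 - 5/48 : ℝ) / 18 := ⟨_, rfl⟩
  rw [← ht]
  have h1 : Pr (fun _ => p) S (fun F => n ≤ MM I i m F) ≤
      Pr (fun _ => p) S (fun F => 9 * t ≤
        ∑ q ∈ range (5 * 2^(i - m)) ×ˢ range (5 * 2^(i - m)), Yb (5/48) (xc I) (2^m)
        (-(2 * 2^i) + q.1 * ((2^m : ℕ) : ℤ)) (-(2 * 2^i) + q.2 * ((2^m : ℕ) : ℤ)) F / 2) := by
    refine Pr_mono hf.ok fun F _ hF => ?_
    rw [MM_eq] at hF
    rw [← sum_div]
    push_cast at hF ⊢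
    rw [mul_comm, ← div_le_iff₀ hm0] at hF
    rw [ht]
    linarith
  refine h1.trans ?_
  have hB := chern9 hf.ok (5 * 2^(i - m))
    (fun q => Tb S (2^m) (-(2 * 2^i) + q.1 * ((2^m : ℕ) : ℤ)) (-(2 * 2^i) + q.2 * ((2^m : ℕ) : ℤ)))
    (fun q => inter_subset_right) (fun q q' hqq h1 h2 => Tb_disj hm1 hqq h1 h2)
    (fun q F => Yb (5/48) (xc I) (2^m)
        (-(2 * 2^i) + q.1 * ((2^m : ℕ) : ℤ)) (-(2 * 2^i) + q.2 * ((2^m : ℕ) : ℤ)) F / 2)
    (fun q F hF => by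
        simp only [Yb]
        rw [← Nb_local hf (2^m) _ _ F hF])
    (M := K) hK1 (fun q => hK p I h S (2^m) _ _ hm1) t
  refine hB.trans (mul_le_mul_of_nonneg_left ?_ (by norm_num))
  have e1 : K ^ (5 * 2^(i - m) * (5 * 2^(i - m))) =
      Real.exp (25 * Real.log K * ((2:ℝ)^(i - m))^2) := by
    have e2 : 25 * Real.log K * ((2:ℝ)^(i - m))^2 =
        ((5 * 2^(i - m) * (5 * 2^(i - m)) : ℕ) : ℝ) * Real.log K := by
      push_cast; ring
    rw [e2, Real.exp_nat_mul, Real.exp_log hK0]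
  rw [e1, ← Real.exp_add]
  refine Real.exp_le_exp.mpr ?_
  linarith

theorem pow_le_exp_half {y : ℝ} (hy : 0 ≤ y) : y^3 ≤ 48 * Real.exp (y / 2) := by
  have h := Real.pow_div_factorial_le_exp (y / 2) (by linarith) 3
  have e : (Nat.factorial 3 : ℝ) = 6 := by norm_num [Nat.factorial]
  rw [e] at h
  have h2 : (y / 2)^3 = y^3 / 8 := by ring
  rw [h2] at h
  linarith

theorem sq_le_exp_half {y : ℝ} (hy : 0 ≤ y) : y^2 ≤ 8 * Real.exp (y / 2) := by
  have h := Real.pow_div_factorial_le_exp (y / 2) (by linarith) 2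
  have e : (Nat.factorial 2 : ℝ) = 2 := by norm_num [Nat.factorial]
  rw [e] at h
  have h2 : (y / 2)^2 = y^2 / 4 := by ring
  rw [h2] at h
  linarith

/-- second and third moments of the number -/
theorem MM_mom {C : ℝ} (hC : 0 < C) : ∃ K : ℝ, 0 < K ∧ ∀ (p : ℝ) (I : ℕ), Sc C p I →
    ∀ (S : Finset Edg) (i m : ℕ),
      Ex (fun _ => p) S (fun F => MM I i m F ^ 2) ≤
        K * (((2:ℝ)^(i - m))^2 * ((2:ℝ)^m)^(2 - 5/48 : ℝ))^2 ∧
      Ex (fun _ => p) S (fun F => MM I i m F ^ 3) ≤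
        K * (((2:ℝ)^(i - m))^2 * ((2:ℝ)^m)^(2 - 5/48 : ℝ))^3 := by
  obtain ⟨K, hK1, hK⟩ := exp_mom hC
  refine ⟨750000 * K, by linarith, fun p I h S i m => ?_⟩
  have hf := xc_fam hC h S
  have hm1 : 1 ≤ 2^m := Nat.one_le_two_pow
  obtain ⟨G, hG⟩ : ∃ G : Finset (ℕ × ℕ), G = range (5 * 2^(i - m)) ×ˢ range (5 * 2^(i - m)) :=
    ⟨_, rfl⟩
  obtain ⟨Y, hY⟩ : ∃ Y : ℕ × ℕ → Finset Edg → ℝ, Y = fun q F => Yb (5/48) (xc I) (2^m)
        (-(2 * 2^i) + q.1 * ((2^m : ℕ) : ℤ)) (-(2 * 2^i) + q.2 * ((2^m : ℕ) : ℤ)) F := ⟨_, rfl⟩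
  obtain ⟨W, hW⟩ : ∃ W : ℝ, W = ((2:ℝ)^m)^(2 - 5/48 : ℝ) := ⟨_, rfl⟩
  have hW0 : 0 < W := by rw [hW]; exact Real.rpow_pos_of_pos (by positivity) _
  have hMM : ∀ F, MM I i m F = W * ∑ q ∈ G, Y q F := by
    intro F
    rw [MM_eq, hG, hY, hW]
    push_cast
    rfl
  have hY0 : ∀ q F, 0 ≤ Y q F := fun q F => by rw [hY]; exact Yb_nonneg hf _ _ _ _
  have hcard : (G.card : ℝ) = 25 * ((2:ℝ)^(i - m))^2 := by
    rw [hG, card_product, card_range]
    push_cast; ring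
  have hcard0 : (0:ℝ) < G.card := by rw [hcard]; positivity
  have hKq : ∀ q, Ex (fun _ => p) S (fun F => Real.exp (Y q F / 2)) ≤ K := by
    intro q
    rw [hY]
    exact hK p I h S (2^m) _ _ hm1
  have key : ∀ (j : ℕ) (A : ℝ), 0 ≤ A → (∀ y : ℝ, 0 ≤ y → y^(j + 1) ≤ A * Real.exp (y / 2)) →
      Ex (fun _ => p) S (fun F => MM I i m F ^ (j + 1)) ≤
        (A * K) * (G.card * W)^(j + 1) := by
    intro j A hA hj
    have h1 : Ex (fun _ => p) S (fun F => MM I i m F ^ (j + 1)) ≤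
        Ex (fun _ => p) S (fun F => (W^(j + 1) * (G.card : ℝ)^j * A) *
          ∑ q ∈ G, Real.exp (Y q F / 2)) := by
      refine Ex_mono hf.ok fun F _ => ?_
      rw [hMM, mul_pow]
      have h3 : (∑ q ∈ G, Y q F)^(j + 1) ≤ (G.card : ℝ)^j * ∑ q ∈ G, Y q F ^ (j + 1) := by
        have := pow_sum_div_card_le_sum_pow (s := G) (f := fun q => Y q F) (fun q _ => hY0 q F) j
        rwa [div_le_iff₀ (by positivity), mul_comm] at this
      have h4 : ∑ q ∈ G, Y q F ^ (j + 1) ≤ A * ∑ q ∈ G, Real.exp (Y q F / 2) := by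
        rw [mul_sum]
        exact sum_le_sum fun q _ => hj _ (hY0 q F)
      calc W^(j + 1) * (∑ q ∈ G, Y q F)^(j + 1)
          ≤ W^(j + 1) * ((G.card : ℝ)^j * (A * ∑ q ∈ G, Real.exp (Y q F / 2))) := by
            refine mul_le_mul_of_nonneg_left (h3.trans ?_) (by positivity)
            exact mul_le_mul_of_nonneg_left h4 (by positivity)
        _ = _ := by ring
    refine h1.trans ?_
    rw [Ex_mul_left, Ex_sum]
    have h5 : ∑ q ∈ G, Ex (fun _ => p) S (fun F => Real.exp (Y q F / 2)) ≤ G.card * K := by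
      refine (sum_le_sum fun q _ => hKq q).trans ?_
      rw [sum_const, nsmul_eq_mul]
    calc (W^(j + 1) * (G.card : ℝ)^j * A) *
          ∑ q ∈ G, Ex (fun _ => p) S (fun F => Real.exp (Y q F / 2))
        ≤ (W^(j + 1) * (G.card : ℝ)^j * A) * (G.card * K) :=
          mul_le_mul_of_nonneg_left h5 (by positivity)
      _ = _ := by ring
  have k2 := key 1 8 (by norm_num) (fun y hy => sq_le_exp_half hy)
  have k3 := key 2 48 (by norm_num) (fun y hy => pow_le_exp_half hy)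
  rw [hcard] at k2 k3
  rw [← hW]
  constructor
  · refine k2.trans ?_
    have h1 : 0 ≤ ((((2:ℝ)^(i - m))^2 * W))^2 := by positivity
    have e : (8 * K) * (25 * ((2:ℝ)^(i - m))^2 * W)^(1 + 1) =
        (5000 * K) * (((2:ℝ)^(i - m))^2 * W)^2 := by ring
    rw [e]
    exact mul_le_mul_of_nonneg_right (by linarith) h1
  · refine k3.trans (le_of_eq ?_)
    ring

end TH992.F
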