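import Pool.Agent.TH992.F.B
import Pool.Agent.H974R2.Static
import Pool.Agent.H974R2.FinalFin

/-!
Clusters which cross an annulus far beyond the correlation length have a long arm, except on an
event of small probability.
-/

set_option autoImplicit false

namespace TH992.F

open H974 Finset TH992.T
open Pool.Agent.H160R2.CV (Far nv)
open Pool.Agent.H160R2.CV.Quad (bo LA LA_of_far far_of_LA LA_of_reach)

/-- The circuit in the annulus and the first steps of the chain of crossings. -/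
def Gd (N : ℕ) (F : Finset Edg) : Prop := Circ N ((2 * N : ℕ) : ℤ) F ∧ ∀ j ≤ 4, Step N j F

theorem Gd_mono {N : ℕ} {F G : Finset Edg} (h : F ⊆ G) (hF : Gd N F) : Gd N G :=
  ⟨hF.1.mono h, fun j hj => (hF.2 j hj).mono h⟩

theorem Gd_far {N : ℕ} (hN : 2 ≤ N) {F : Finset Edg} (h : Gd N F) {u w : Vtx}
    (hu : nv u ≤ N) (hw : 2 * N ≤ nv w) (hr : Reach (↑F) u w) :
    ∃ v : Vtx, 32 * N ≤ nv v ∧ Reach (↑F) u v := by
  have hN' : (2:ℤ) ≤ N := by exact_mod_cast hN
  have hu' : inR (-(N:ℤ)) N (-(N:ℤ)) N u := by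
    unfold nv at hu; unfold inR; omega
  obtain ⟨z, hz⟩ := circ_meet (R1 := (N:ℤ)) (R2 := ((2 * N : ℕ) : ℤ)) (by omega)
    (by push_cast; omega) h.1
  obtain ⟨a, v, hv, hza, hst⟩ := chain_conn hN (F := F) (z := z) hz 4 h.2
  have hev : Even 4 := by decide
  rw [if_pos hev] at hst
  obtain ⟨w', k1, k2, k3⟩ := first_exit (a := -((2 * N : ℕ) : ℤ)) (b := ((2 * N : ℕ) : ℤ))
    (c := -((2 * N : ℕ) : ℤ)) (d := ((2 * N : ℕ) : ℤ)) (by unfold inR at hu' ⊢; push_cast; omega)
    hr (by unfold nv at hw; push_cast; omega)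
  have h1 := hz u w' hu' k2 k3
  refine ⟨v, ?_, (h1.mono Set.inter_subset_left).trans ((hza.mono Set.inter_subset_left).trans
    (hst.2.2.mono Set.inter_subset_left))⟩
  have h2 := hst.2.1
  unfold nv
  push_cast at h2
  have h3 : ((v.1.natAbs : ℕ) : ℤ) = 2 * (2^4 * (N:ℤ)) := by
    rw [h2]
    exact Int.natAbs_of_nonneg (by positivity)
  omega

theorem pr_not_Gd {p : ℝ} (h0 : 0 ≤ p) (h1 : p ≤ 1) {I : ℕ} (hI : 1 ≤ I)
    (he : eps p (2^I) ≤ 1/100) (j : ℕ) {S : Finset Edg} (hS : boxE (32 * (2^j * 2^I)) ⊆ S) :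
    Pr (fun _ => p) S (fun F => ¬ Gd (2^j * 2^I) F) ≤ (1/4)^(2^j) := by
  have ok := okq h0 h1
  have h2I : 2 ≤ 2^I := by
    calc 2 = 2^1 := rfl
      _ ≤ 2^I := Nat.pow_le_pow_right (by norm_num) hI
  obtain ⟨N, hN⟩ : ∃ N : ℕ, N = 2^j * 2^I := ⟨_, rfl⟩
  have hN2 : 2 ≤ N := by
    rw [hN]
    exact h2I.trans (Nat.le_mul_of_pos_left _ (by positivity))
  rw [← hN] at hS ⊢
  have e1 := pr_circ_ge h0 h1 hN2 (S := S) ((boxE_mono (by omega)).trans hS)
  have hst : ∀ k : ℕ, k ≤ 4 → Pr (fun _ => p) S (fun F => ¬ Step N k F) = eps p (2^k * N) := by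
    intro k hk
    have hk2 : 2^k ≤ 16 := by
      calc 2^k ≤ 2^4 := Nat.pow_le_pow_right (by norm_num) hk
        _ = 16 := by norm_num
    rw [Pr_not, pr_step ((boxE_mono (by nlinarith)).trans hS)]
    ring
  have hep : ∀ k : ℕ, 25 * eps p (2^k * N) ≤ (1/4)^(2^j) := by
    intro k
    have h3 := H31K.eps_pow2 h0 h1 h2I he (k + j)
    have e : 2^(k + j) * 2^I = 2^k * N := by rw [hN, pow_add]; ring
    rw [e] at h3
    refine h3.trans ?_
    exact pow_le_pow_of_le_one (by norm_num) (by norm_num)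
      (Nat.pow_le_pow_right (by norm_num) (by omega))
  have hu : Pr (fun _ => p) S (fun F => ¬ Gd N F) ≤
      Pr (fun _ => p) S (fun F => ¬ Circ N ((2 * N : ℕ) : ℤ) F) +
        ∑ k ∈ range 5, Pr (fun _ => p) S (fun F => ¬ Step N k F) := by
    unfold Pr
    rw [← Ex_sum, ← Ex_add]
    refine Ex_mono ok fun F _ => ?_
    by_cases hG : Gd N F
    · rw [ind_not_of (not_not.mpr hG)]
      exact add_nonneg (ind_nonneg _) (sum_nonneg fun _ _ => ind_nonneg _)
    · rw [ind_of hG]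
      by_cases hC : Circ N ((2 * N : ℕ) : ℤ) F
      · obtain ⟨k, hk, hk2⟩ : ∃ k, k ≤ 4 ∧ ¬ Step N k F := by
          by_contra hcon
          push Not at hcon
          exact hG ⟨hC, hcon⟩
        have h3 : ind (¬ Step N k F) ≤ ∑ k ∈ range 5, ind (¬ Step N k F) :=
          single_le_sum (f := fun k => ind (¬ Step N k F)) (fun _ _ => ind_nonneg _)
            (by rw [mem_range]; omega)
        rw [ind_of hk2] at h3
        have := ind_nonneg (¬ Circ N ((2 * N : ℕ) : ℤ) F)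
        linarith
      · rw [ind_of hC]
        have : 0 ≤ ∑ k ∈ range 5, ind (¬ Step N k F) := sum_nonneg fun _ _ => ind_nonneg _
        linarith
  refine hu.trans ?_
  rw [Pr_not, sum_congr rfl (fun k hk => hst k (by rw [mem_range] at hk; omega))]
  have a0 := hep 0
  have a1 := hep 1
  have a2 := hep 2
  have a3 := hep 3
  have a4 := hep 4
  simp only [sum_range_succ, sum_range_zero]
  rw [pow_zero, one_mul] at a0 ⊢
  linarith

end TH992.F
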