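import Pool.Agent.TH992.F.C

/-!
Clusters of radius in `[R, 2 R)`: translation, averaging over the starting point.
-/

set_option autoImplicit false

namespace TH992.F

open H974 Finset TH992.T
open Pool.Agent.H160R2.CV (Far nv)
open Pool.Agent.H160R2.CV.Quad (bo LA LA_of_far far_of_LA LA_of_reach)

/-- The cluster of `v` has at least `n` vertices and radius in `[R, 2R)`. -/
def Ev (n : ℝ) (R : ℕ) (v : Vtx) (F : Finset Edg) : Prop :=
  Far v R F ∧ ¬ Far v (2 * R) F ∧ ∃ T : Finset Vtx, n ≤ (T.card : ℝ) ∧ ∀ u ∈ T, Reach (↑F) v u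

theorem nv_sub_lt {v u : Vtx} {r : ℕ} (h : nv (u - v) < r) :
    (v.1 - r < u.1 ∧ u.1 < v.1 + r) ∧ (v.2 - r < u.2 ∧ u.2 < v.2 + r) := by
  unfold nv at h
  simp only [Prod.fst_sub, Prod.snd_sub] at h
  omega

theorem stay {F : Finset Edg} {v : Vtx} {r : ℕ} (h : ¬ Far v r F) {u : Vtx}
    (hr : Reach (↑F) v u) : Reach (↑F ∩ ↑(bo v r)) v u := by
  induction hr with
  | refl => exact Reach.refl _ _
  | @tail w w' hw hs ih =>
    have h1 : nv (w - v) < r := by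
      by_contra hcon
      exact h ⟨w, by omega, hw⟩
    have h2 : nv (w' - v) < r := by
      by_contra hcon
      exact h ⟨w', by omega, hw.tail hs⟩
    have g1 := nv_sub_lt h1
    have g2 := nv_sub_lt h2
    obtain ⟨⟨x, y, b⟩, he, hc⟩ := hs
    refine ih.trans (Adj.reach ⟨(x, y, b), ⟨he, ?_⟩, hc⟩)
    rw [mem_coe]
    unfold bo
    cases b
    · rw [mem_RE_false]
      rcases hc with ⟨h3, h4⟩ | ⟨h3, h4⟩
      · rw [← h3] at g1
        rw [← h4] at g2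
        simp only [src_mk, tgt_false] at g1 g2
        omega
      · rw [← h4] at g1
        rw [← h3] at g2
        simp only [src_mk, tgt_false] at g1 g2
        omega
    · rw [mem_RE_true]
      rcases hc with ⟨h3, h4⟩ | ⟨h3, h4⟩
      · rw [← h3] at g1
        rw [← h4] at g2
        simp only [src_mk, tgt_true] at g1 g2
        omega
      · rw [← h4] at g1
        rw [← h3] at g2
        simp only [src_mk, tgt_true] at g1 g2
        omega

theorem far_bo {v : Vtx} {r s : ℕ} (h : r ≤ s) {F : Finset Edg} :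
    Far v r F ↔ Far v r (F ∩ bo v s) := by
  constructor
  · intro hF
    obtain ⟨w, k1, k2, k3⟩ := LA_of_far le_rfl hF
    refine ⟨w, ?_, k3.mono ?_⟩
    · unfold nv
      simp only [Prod.fst_sub, Prod.snd_sub]
      unfold inR at k1
      omega
    · rintro e ⟨he1, he2⟩
      rw [mem_coe] at he1 he2 ⊢
      refine mem_inter.mpr ⟨he1, ?_⟩
      unfold bo at he2 ⊢
      exact RE_sub_RE (by omega) (by omega) (by omega) (by omega) he2
  · exact far_mono_F inter_subset_left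

theorem Ev_loc {n : ℝ} {R : ℕ} {v : Vtx} {F : Finset Edg} :
    Ev n R v F ↔ Ev n R v (F ∩ bo v (2 * R)) := by
  unfold Ev
  rw [← far_bo (show R ≤ 2 * R by omega), ← far_bo (le_refl (2 * R))]
  constructor
  · rintro ⟨h1, h2, T, hT, h3⟩
    refine ⟨h1, h2, T, hT, fun u hu => ?_⟩
    rw [coe_inter]
    exact stay h2 (h3 u hu)
  · rintro ⟨h1, h2, T, hT, h3⟩
    exact ⟨h1, h2, T, hT, fun u hu => (h3 u hu).mono (by
      rw [coe_inter]; exact Set.inter_subset_left)⟩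

theorem reach_trl {F : Finset Edg} {a b : ℤ} {u v : Vtx} :
    Reach (↑((trl a b).mp F) : Set Edg) (u.1 + a, u.2 + b) (v.1 + a, v.2 + b) ↔
      Reach (↑F : Set Edg) u v := by
  rw [LSym.coe_mp]
  exact (trl a b).reach_iff (u := u) (v := v)

theorem far_trl {F : Finset Edg} {a b : ℤ} {r : ℕ} :
    Far (a, b) r ((trl a b).mp F) ↔ Far (0, 0) r F := by
  constructor
  · rintro ⟨u, h1, h2⟩
    refine ⟨(u.1 - a, u.2 - b), ?_, ?_⟩
    · unfold nv at h1 ⊢
      simp only [Prod.fst_sub, Prod.snd_sub] at h1 ⊢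
      omega
    · rw [← reach_trl (a := a) (b := b)]
      simpa using h2
  · rintro ⟨u, h1, h2⟩
    refine ⟨(u.1 + a, u.2 + b), ?_, ?_⟩
    · unfold nv at h1 ⊢
      simp only [Prod.fst_sub, Prod.snd_sub] at h1 ⊢
      omega
    · rw [← reach_trl (a := a) (b := b)] at h2
      simpa using h2

theorem Ev_trl {n : ℝ} {R : ℕ} {F : Finset Edg} {a b : ℤ} :
    Ev n R (a, b) ((trl a b).mp F) ↔ Ev n R (0, 0) F := by
  unfold Ev
  rw [far_trl, far_trl]
  have hT : (∃ T : Finset Vtx, n ≤ (T.card : ℝ) ∧ ∀ u ∈ T, Reach (↑((trl a b).mp F)) (a, b) u) ↔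
      ∃ T : Finset Vtx, n ≤ (T.card : ℝ) ∧ ∀ u ∈ T, Reach (↑F) (0, 0) u := by
    constructor
    · rintro ⟨T, h1, h2⟩
      refine ⟨T.map (trl a b).ψ.symm.toEmbedding, by rwa [card_map], fun u hu => ?_⟩
      rw [mem_map] at hu
      obtain ⟨w, hw, rfl⟩ := hu
      have h3 := h2 w hw
      rw [← reach_trl (a := a) (b := b)]
      have e : (trl a b).ψ.symm.toEmbedding w = (w.1 - a, w.2 - b) := rfl
      rw [e]
      simpa using h3
    · rintro ⟨T, h1, h2⟩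
      refine ⟨T.map (trl a b).ψ.toEmbedding, by rwa [card_map], fun u hu => ?_⟩
      rw [mem_map] at hu
      obtain ⟨w, hw, rfl⟩ := hu
      have h3 := h2 w hw
      rw [← reach_trl (a := a) (b := b)] at h3
      have e : (trl a b).ψ.toEmbedding w = (w.1 + a, w.2 + b) := rfl
      rw [e]
      simpa using h3
  rw [hT]

theorem bo_trl (v : Vtx) (r : ℕ) : bo v r = (trl v.1 v.2).mp (boxE r) := by
  unfold bo boxE
  rw [trl_RE]
  congr 1 <;> ring

theorem pr_Ev (p : ℝ) (n : ℝ) (R : ℕ) (v : Vtx) {S : Finset Edg} (hS : bo v (2 * R) ⊆ S) :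
    Pr (fun _ => p) S (Ev n R v) = Pr (fun _ => p) (boxE (2 * R)) (Ev n R (0, 0)) := by
  have e1 : Pr (fun _ => p) S (Ev n R v) = Pr (fun _ => p) (bo v (2 * R)) (Ev n R v) :=
    Pr_local hS (fun F _ => Ev_loc)
  have e2 : Pr (fun _ => p) (bo v (2 * R)) (Ev n R v) =
      Pr (fun _ => p) ((trl v.1 v.2).mp (boxE (2 * R))) (Ev n R v) :=
    congrArg (fun B => Pr (fun _ => p) B (Ev n R v)) (bo_trl v (2 * R))
  have e3 := (trl v.1 v.2).pr p (boxE (2 * R)) (Ev n R v)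
  exact e1.trans (e2.trans (e3.trans (Pr_congr fun F _ => Ev_trl)))

/-! ### Counting -/

theorem Bq_cover {s r n : ℕ} (hr : 1 ≤ r) (hn : s ≤ n * r) (b c : ℤ) :
    Bq b c s ⊆ (range n ×ˢ range n).biUnion
      (fun q => Bq (b + q.1 * r) (c + q.2 * r) r) := by
  intro v hv
  rw [mem_Bq] at hv
  rw [mem_biUnion]
  have hr' : (0 : ℤ) < r := by exact_mod_cast hr
  obtain ⟨i, hi⟩ := Int.eq_ofNat_of_zero_le (Int.ediv_nonneg (show 0 ≤ v.1 - b by linarith) hr'.le)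
  obtain ⟨j, hj⟩ := Int.eq_ofNat_of_zero_le (Int.ediv_nonneg (show 0 ≤ v.2 - c by linarith) hr'.le)
  have e1 := Int.emod_add_mul_ediv (v.1 - b) r
  have e2 := Int.emod_add_mul_ediv (v.2 - c) r
  have e3 := Int.emod_nonneg (v.1 - b) hr'.ne'
  have e4 := Int.emod_lt_of_pos (v.1 - b) hr'
  have e5 := Int.emod_nonneg (v.2 - c) hr'.ne'
  have e6 := Int.emod_lt_of_pos (v.2 - c) hr'
  have hn' : (s : ℤ) ≤ n * r := by exact_mod_cast hn
  rw [hi] at e1
  rw [hj] at e2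
  refine ⟨(i, j), ?_, ?_⟩
  · rw [mem_product, mem_range, mem_range]
    constructor
    · by_contra hcon
      push Not at hcon
      have : (n : ℤ) * r ≤ r * i := by
        rw [mul_comm]
        exact mul_le_mul_of_nonneg_left (by exact_mod_cast hcon) hr'.le
      linarith
    · by_contra hcon
      push Not at hcon
      have : (n : ℤ) * r ≤ r * j := by
        rw [mul_comm]
        exact mul_le_mul_of_nonneg_left (by exact_mod_cast hcon) hr'.le
      linarith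
  · rw [mem_Bq]
    have f1 : (i : ℤ) * r = r * i := mul_comm _ _
    have f2 : (j : ℤ) * r = r * j := mul_comm _ _
    simp only
    rw [f1, f2]
    refine ⟨⟨?_, ?_⟩, ?_, ?_⟩ <;> linarith

theorem xc_nonneg (I s : ℕ) (v : Vtx) (F : Finset Edg) : 0 ≤ xc I s v F := by
  unfold xc; split_ifs
  · exact ind_nonneg _
  · exact le_rfl

theorem card_le_MM {I i m : ℕ} (hmi : m ≤ i) (hmI : m ≤ I) {F : Finset Edg} (A : Finset Vtx)
    (hA : ∀ u ∈ A, u ∈ Bq (-(2 * 2^i)) (-(2 * 2^i)) (5 * 2^i) ∧ Far u (2^m / 5) F) :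
    (A.card : ℝ) ≤ MM I i m F := by
  have hm1 : 1 ≤ 2^m := Nat.one_le_two_pow
  have hcov := Bq_cover (s := 5 * 2^i) (r := 2^m) (n := 5 * 2^(i - m)) hm1 (by
    rw [mul_assoc, ← pow_add, Nat.sub_add_cancel hmi]) (-(2 * 2^i)) (-(2 * 2^i))
  have h1 : (A.card : ℝ) = ∑ u ∈ A, xc I (2^m) u F := by
    rw [card_eq_sum_ones]
    push_cast
    refine sum_congr rfl fun u hu => ?_
    unfold xc
    rw [if_pos (Nat.pow_le_pow_right (by norm_num) hmI), ind_of (hA u hu).2]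
  rw [h1]
  calc ∑ u ∈ A, xc I (2^m) u F
      ≤ ∑ u ∈ (range (5 * 2^(i - m)) ×ˢ range (5 * 2^(i - m))).biUnion
        (fun q => Bq (-(2 * 2^i) + q.1 * ((2^m : ℕ) : ℤ)) (-(2 * 2^i) + q.2 * ((2^m : ℕ) : ℤ)) (2^m)),
          xc I (2^m) u F :=
        sum_le_sum_of_subset_of_nonneg (fun u hu => hcov (hA u hu).1)
          fun _ _ _ => xc_nonneg _ _ _ _
    _ ≤ _ := sum_bi_le _ _ _ fun v => xc_nonneg _ _ _ _

theorem in_big {i s : ℕ} (hs : (s:ℤ) ≤ 2^i) {v u : Vtx} (h1 : v ∈ Bq 0 0 s)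
    (h7 : (v.1 - ((2 * 2^i : ℕ) : ℤ) < u.1 ∧ u.1 < v.1 + ((2 * 2^i : ℕ) : ℤ)) ∧
      (v.2 - ((2 * 2^i : ℕ) : ℤ) < u.2 ∧ u.2 < v.2 + ((2 * 2^i : ℕ) : ℤ))) :
    u ∈ Bq (-(2 * 2^i)) (-(2 * 2^i)) (5 * 2^i) := by
  rw [mem_Bq] at h1 ⊢
  push_cast at h7 ⊢
  generalize (2:ℤ)^i = Q at *
  obtain ⟨⟨a1, a2⟩, a3, a4⟩ := h1
  obtain ⟨⟨b1, b2⟩, b3, b4⟩ := h7
  refine ⟨⟨?_, ?_⟩, ?_, ?_⟩ <;> linarith

theorem tri_far {Q P : ℕ} (h : P ≤ Q) {u v w : Vtx} (hw : Q ≤ nv (w - v))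
    (h8 : ¬ P / 5 ≤ nv (v - u)) : P / 5 ≤ nv (w - u) := by
  unfold nv at *
  simp only [Prod.fst_sub, Prod.snd_sub] at *
  omega

theorem sum_Ev_le {I i m : ℕ} (hmi : m ≤ i) (hmI : m ≤ I) (n : ℝ) (F : Finset Edg)
    {s : ℕ} (hs : s ≤ 2^i) :
    ∑ v ∈ Bq 0 0 s, ind (Ev n (2^i) v F) ≤ MM I i m F * ind (n ≤ MM I i m F) := by
  classical
  have hMM0 : 0 ≤ MM I i m F := sum_nonneg fun _ _ => sum_nonneg fun _ _ => xc_nonneg _ _ _ _
  have hle : 2^m ≤ 2^i := Nat.pow_le_pow_right (by norm_num) hmi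
  obtain ⟨A, hA⟩ : ∃ A : Finset Vtx, A = (Bq 0 0 s).filter (fun v => Ev n (2^i) v F) := ⟨_, rfl⟩
  have e1 : ∑ v ∈ Bq 0 0 s, ind (Ev n (2^i) v F) = (A.card : ℝ) := by
    rw [hA, card_filter]
    push_cast
    refine sum_congr rfl fun v _ => ?_
    by_cases h : Ev n (2^i) v F
    · rw [ind_of h, if_pos h]
    · rw [ind_not_of h, if_neg h]
  rw [e1]
  rcases A.eq_empty_or_nonempty with h0 | ⟨v, hv⟩
  · rw [h0, card_empty, Nat.cast_zero]
    exact mul_nonneg hMM0 (ind_nonneg _)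
  have hs' : (s:ℤ) ≤ 2^i := by exact_mod_cast hs
  have hmem : ∀ v ∈ A, (v ∈ Bq 0 0 s ∧ Ev n (2^i) v F) := by
    intro v hv
    rw [hA, mem_filter] at hv
    exact hv
  have hcA : (A.card : ℝ) ≤ MM I i m F := by
    refine card_le_MM hmi hmI A fun u hu => ?_
    obtain ⟨h1, h2⟩ := hmem u hu
    rw [mem_Bq] at h1 ⊢
    refine ⟨?_, far_mono_r ?_ h2.1⟩
    · push_cast
      omega
    · exact (Nat.div_le_self _ _).trans hle
  obtain ⟨h1, h2, h3, T, hT, h4⟩ := hmem v hv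
  have hcT : (T.card : ℝ) ≤ MM I i m F := by
    refine card_le_MM hmi hmI T fun u hu => ?_
    have h5 := h4 u hu
    have h6 : nv (u - v) < 2 * 2^i := by
      by_contra hcon
      exact h3 ⟨u, by omega, h5⟩
    have h7 := nv_sub_lt h6
    obtain ⟨w, hw1, hw2⟩ := h2
    constructor
    · exact in_big (by exact_mod_cast hs) h1 h7
    · by_cases h8 : 2^m / 5 ≤ nv (v - u)
      · exact ⟨v, h8, h5.symm⟩
      · exact ⟨w, tri_far hle hw1 h8, h5.symm.trans hw2⟩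
  rw [ind_of (hT.trans hcT), mul_one]
  exact hcA

theorem Gd_of_Ev {i j : ℕ} (hij : j + 3 = i) (hj : 1 ≤ j) {n : ℝ} {v : Vtx} {F : Finset Edg}
    (hv : v ∈ Bq 0 0 (2^j)) (h : Ev n (2^i) v F) : ¬ Gd (2^j) F := by
  intro hG
  obtain ⟨⟨w, hw1, hw2⟩, h3, -⟩ := h
  have e : 2^i = 8 * 2^j := by rw [← hij, pow_add]; ring
  have h2 : 2 ≤ 2^j := by
    calc 2 = 2^1 := rfl
      _ ≤ 2^j := Nat.pow_le_pow_right (by norm_num) hj
  rw [e] at hw1 h3
  rw [mem_Bq] at hv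
  have hv' : ((2^j : ℕ) : ℤ) = (2:ℤ)^j := by push_cast; rfl
  have hvn : nv v ≤ 2^j := by unfold nv; omega
  have hwn : 2 * 2^j ≤ nv w := by
    unfold nv at hw1 ⊢
    simp only [Prod.fst_sub, Prod.snd_sub] at hw1
    omega
  obtain ⟨z, hz1, hz2⟩ := Gd_far h2 hG hvn hwn hw2
  apply h3
  refine ⟨z, ?_, hz2⟩
  unfold nv at hz1 ⊢
  simp only [Prod.fst_sub, Prod.snd_sub]
  omega

/-! ### The bound at one scale -/

theorem Nb_incr (I s : ℕ) (b c : ℤ) {F G : Finset Edg} (h : F ⊆ G) :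
    Nb (xc I) s b c F ≤ Nb (xc I) s b c G := by
  unfold Nb
  refine sum_le_sum fun v _ => ?_
  unfold xc
  split_ifs
  · exact ind_mono (far_mono_F h)
  · exact le_rfl

theorem MM_incr (I i m : ℕ) {F G : Finset Edg} (h : F ⊆ G) : MM I i m F ≤ MM I i m G :=
  sum_le_sum fun _ _ => Nb_incr _ _ _ _ h

theorem MM_ind_incr (I i m : ℕ) (n : ℝ) (S : Finset Edg) :
    Incr S (fun F => MM I i m F * ind (n ≤ MM I i m F)) := by
  intro F G h _
  have h0 : 0 ≤ MM I i m F := sum_nonneg fun _ _ => sum_nonneg fun _ _ => xc_nonneg _ _ _ _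
  have h1 := MM_incr I i m h
  exact mul_le_mul h1 (ind_mono fun h2 => h2.trans h1) (ind_nonneg _) (h0.trans h1)

/-- positive association, one increasing function and one decreasing event -/
theorem Ex_mul_not {p : ℝ} (h0 : 0 ≤ p) (h1 : p ≤ 1) {S : Finset Edg} {f : Finset Edg → ℝ}
    (hf : Incr S f) {A : Finset Edg → Prop} (hA : IncrE S A) :
    Ex (fun _ => p) S (fun F => f F * ind (¬ A F)) ≤
      Ex (fun _ => p) S f * Pr (fun _ => p) S (fun F => ¬ A F) := by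
  have h := harris (okq h0 h1) hf hA.incr
  have e1 : Ex (fun _ => p) S (fun F => f F * ind (¬ A F)) =
      Ex (fun _ => p) S f - Ex (fun _ => p) S (fun F => f F * ind (A F)) := by
    rw [← Ex_sub]
    refine Ex_congr fun F _ => ?_
    rw [ind_not]; ring
  rw [e1, Pr_not]
  unfold Pr
  linarith

theorem exp_half_sq (y : ℝ) : Real.exp (y / 2) ^ 2 = Real.exp y := by
  rw [← Real.exp_nat_mul]
  congr 1
  push_cast
  ring

/-- The term at the scale `2 ^ i`. -/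
theorem term {C : ℝ} (hC : 0 < C) : ∃ K k : ℝ, 0 < K ∧ 0 ≤ k ∧ ∀ (p : ℝ) (I : ℕ), Sc C p I →
    1 ≤ I → eps p (2^I) ≤ 1/100 → ∀ (i m : ℕ), m ≤ i → m ≤ I → ∀ n : ℝ,
      Pr (fun _ => p) (boxE (2 * 2^i)) (Ev n (2^i) (0, 0)) ≤
        K * ((2:ℝ)^m)^(-(5/48) : ℝ) *
          min 1 (Real.exp ((k * ((2:ℝ)^(i - m))^2 - n / ((2:ℝ)^m)^(2 - 5/48 : ℝ) / 18) / 2)) *
          (if I + 3 ≤ i then (1/4)^(2^(i - 3 - I)) else 1) := by
  obtain ⟨k, hk, htail⟩ := MM_tail hC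
  obtain ⟨K, hK, hmom⟩ := MM_mom hC
  refine ⟨64 * Real.sqrt (9 * K), k, by positivity, hk,
    fun p I h hI he i m hmi hmI n => ?_⟩
  have ok := okq h.h0 h.h1
  obtain ⟨s, hs⟩ : ∃ s : ℕ, s = 2^(i - 3) := ⟨_, rfl⟩
  have hsi : s ≤ 2^i := by rw [hs]; exact Nat.pow_le_pow_right (by norm_num) (by omega)
  have hs8 : 2^i ≤ 8 * s := by
    rw [hs]
    calc 2^i ≤ 2^(3 + (i - 3)) := Nat.pow_le_pow_right (by norm_num) (by omega)
      _ = 8 * 2^(i - 3) := by rw [pow_add]; norm_num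
  have hs0 : 1 ≤ s := by rw [hs]; exact Nat.one_le_two_pow
  obtain ⟨U, hU⟩ : ∃ U : Finset Edg, U = boxE (32 * 2^i) := ⟨_, rfl⟩
  obtain ⟨A, hA⟩ : ∃ A : ℝ, A = Pr (fun _ => p) (boxE (2 * 2^i)) (Ev n (2^i) (0, 0)) := ⟨_, rfl⟩
  have hA0 : 0 ≤ A := by rw [hA]; exact Pr_nonneg ok _ _
  obtain ⟨W, hW⟩ : ∃ W : ℝ, W = ((2:ℝ)^(i - m))^2 * ((2:ℝ)^m)^(2 - 5/48 : ℝ) := ⟨_, rfl⟩
  have hW0 : 0 < W := by rw [hW]; positivity
  obtain ⟨X, hX⟩ : ∃ X : ℝ, X = min 1 (Real.exp ((k * ((2:ℝ)^(i - m))^2 -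
    n / ((2:ℝ)^m)^(2 - 5/48 : ℝ) / 18) / 2)) := ⟨_, rfl⟩
  have hX0 : 0 < X := by rw [hX]; exact lt_min one_pos (Real.exp_pos _)
  obtain ⟨g, hg⟩ : ∃ g : ℝ, g = (if I + 3 ≤ i then ((1:ℝ)/4)^(2^(i - 3 - I)) else 1) := ⟨_, rfl⟩
  rw [← hA, ← hX, ← hg]
  have hg0 : 0 < g := by rw [hg]; split_ifs <;> positivity
  -- the average
  have h1 : ((s:ℝ) * s) * A = Ex (fun _ => p) U (fun F => ∑ v ∈ Bq 0 0 s, ind (Ev n (2^i) v F)) := by
    rw [Ex_sum]
    have h2 : ∀ v ∈ Bq 0 0 s, Ex (fun _ => p) U (fun F => ind (Ev n (2^i) v F)) = A := by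
      intro v hv
      rw [hA]
      refine pr_Ev p n (2^i) v ?_
      rw [hU]
      rw [mem_Bq] at hv
      have hs' : (s:ℤ) ≤ 2^i := by exact_mod_cast hsi
      unfold bo boxE
      push_cast
      exact RE_sub_RE (by omega) (by omega) (by omega) (by omega)
    rw [sum_congr rfl h2, sum_const, card_Bq, nsmul_eq_mul]
    push_cast
    ring
  obtain ⟨f, hf⟩ : ∃ f : Finset Edg → ℝ, f = fun F => MM I i m F * ind (n ≤ MM I i m F) := ⟨_, rfl⟩
  have hf0 : ∀ F, 0 ≤ f F := fun F => by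
    rw [hf]
    exact mul_nonneg (sum_nonneg fun _ _ => sum_nonneg fun _ _ => xc_nonneg _ _ _ _) (ind_nonneg _)
  -- removal of the circuit
  have h2 : ((s:ℝ) * s) * A ≤ Ex (fun _ => p) U f * g := by
    rw [h1]
    by_cases hc : I + 3 ≤ i
    · have e3 : (1/4 : ℝ)^(2^(i - 3 - I)) = g := by rw [hg, if_pos hc]
      have h3 := pr_not_Gd h.h0 h.h1 hI he (i - 3 - I) (S := U) (by
        rw [hU]
        refine boxE_mono (Nat.mul_le_mul_left _ ?_)
        rw [← pow_add]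
        exact Nat.pow_le_pow_right (by norm_num) (by omega))
      have e4 : 2^(i - 3 - I) * 2^I = 2^(i - 3) := by
        rw [← pow_add]; congr 1; omega
      rw [e4, e3] at h3
      have h4 : Ex (fun _ => p) U (fun F => ∑ v ∈ Bq 0 0 s, ind (Ev n (2^i) v F)) ≤
          Ex (fun _ => p) U (fun F => f F * ind (¬ Gd (2^(i - 3)) F)) := by
        refine Ex_mono ok fun F _ => ?_
        by_cases hG : Gd (2^(i - 3)) F
        · have h5 : ∑ v ∈ Bq 0 0 s, ind (Ev n (2^i) v F) = 0 := by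
            refine sum_eq_zero fun v hv => ?_
            rw [hs] at hv
            exact ind_not_of fun hE => Gd_of_Ev (by omega) (by omega) hv hE hG
          rw [h5]
          exact mul_nonneg (hf0 F) (ind_nonneg _)
        · rw [ind_of hG, mul_one, hf]
          exact sum_Ev_le hmi hmI n F hsi
      refine h4.trans ?_
      have h5 := Ex_mul_not h.h0 h.h1 (S := U) (f := f) (A := Gd (2^(i - 3)))
        (by rw [hf]; exact MM_ind_incr I i m n U) (fun F G h _ hF => Gd_mono h hF)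
      refine h5.trans (mul_le_mul_of_nonneg_left h3 (Ex_nonneg ok fun F _ => hf0 F))
    · rw [hg, if_neg hc, mul_one]
      refine Ex_mono ok fun F _ => ?_
      rw [hf]
      exact sum_Ev_le hmi hmI n F hsi
  -- Cauchy-Schwarz
  have h3 : Ex (fun _ => p) U f ≤ Real.sqrt (9 * K) * W * X := by
    have c1 := Ex_cs ok U (fun F => MM I i m F) (fun F => ind (n ≤ MM I i m F))
    have c2 := (hmom p I h U i m).1
    rw [← hW] at c2
    have c3 := htail p I h U i m n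
    have c4 : Ex (fun _ => p) U (fun F => ind (n ≤ MM I i m F)^2) ≤ 9 * X^2 := by
      have e5 : Ex (fun _ => p) U (fun F => ind (n ≤ MM I i m F)^2) =
          Pr (fun _ => p) U (fun F => n ≤ MM I i m F) := by
        unfold Pr
        refine Ex_congr fun F _ => ?_
        rw [sq, ind_sq]
      rw [e5]
      have c5 := Pr_le_one ok U (fun F => n ≤ MM I i m F)
      rcases min_choice (1:ℝ) (Real.exp ((k * ((2:ℝ)^(i - m))^2 -
        n / ((2:ℝ)^m)^(2 - 5/48 : ℝ) / 18) / 2)) with hm | hm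
      · rw [hX, hm]; linarith
      · rw [hX, hm]
        refine c3.trans (le_of_eq ?_)
        rw [exp_half_sq]
    have c6 : (Ex (fun _ => p) U f)^2 ≤ (K * W^2) * (9 * X^2) := by
      rw [hf]
      refine c1.trans (mul_le_mul c2 c4 (Ex_nonneg ok fun F _ => sq_nonneg _) (by positivity))
    have c7 : (K * W^2) * (9 * X^2) = (Real.sqrt (9 * K) * W * X)^2 := by
      rw [mul_pow, mul_pow, Real.sq_sqrt (by positivity)]
      ring
    rw [c7] at c6
    exact (abs_le_of_sq_le_sq' c6 (by positivity)).2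
  -- conclusion
  have hs0' : (0:ℝ) < s := by exact_mod_cast hs0
  have h4 : ((s:ℝ) * s) * A ≤ (Real.sqrt (9 * K) * W * X) * g :=
    h2.trans (mul_le_mul_of_nonneg_right h3 hg0.le)
  have h5 : W ≤ 64 * ((s:ℝ) * s) * ((2:ℝ)^m)^(-(5/48) : ℝ) := by
    have e6 : ((2:ℝ)^m)^(2 - 5/48 : ℝ) = ((2:ℝ)^m)^2 * ((2:ℝ)^m)^(-(5/48) : ℝ) := by
      rw [← Real.rpow_natCast ((2:ℝ)^m) 2, ← Real.rpow_add (by positivity)]
      congr 1
    have e7 : (2:ℝ)^(i - m) * 2^m = 2^i := by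
      rw [← pow_add, Nat.sub_add_cancel hmi]
    have e8 : W = ((2:ℝ)^i)^2 * ((2:ℝ)^m)^(-(5/48) : ℝ) := by
      rw [hW, e6, ← e7]; ring
    rw [e8]
    refine mul_le_mul_of_nonneg_right ?_ (by positivity)
    have h8 : (2:ℝ)^i ≤ 8 * s := by exact_mod_cast hs8
    have h9 : (0:ℝ) ≤ (2:ℝ)^i := by positivity
    nlinarith
  have h6 : ((s:ℝ) * s) * A ≤ ((s:ℝ) * s) *
      ((64 * Real.sqrt (9 * K)) * ((2:ℝ)^m)^(-(5/48) : ℝ) * X * g) := by
    refine h4.trans ?_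
    have h7 := mul_le_mul_of_nonneg_left h5 (Real.sqrt_nonneg (9 * K))
    have h8 := mul_le_mul_of_nonneg_right h7 (mul_pos hX0 hg0).le
    calc (Real.sqrt (9 * K) * W * X) * g = Real.sqrt (9 * K) * W * (X * g) := by ring
      _ ≤ _ := h8
      _ = _ := by ring
  exact le_of_mul_le_mul_left h6 (by positivity)

end TH992.F
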