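import Mathlib

/-!
Sums over dyadic scales.
-/

set_option autoImplicit false

namespace TH992.F

open Finset

theorem geo_up {β : ℝ} (hβ : 0 < β) (J : ℕ) :
    ∑ i ∈ range J, ((2:ℝ)^i)^β ≤ ((2:ℝ)^J)^β / (2^β - 1) := by
  have h2 : 1 < (2:ℝ)^β := Real.one_lt_rpow (by norm_num) hβ
  have h3 : 0 < (2:ℝ)^β - 1 := by linarith
  induction J with
  | zero => simp only [range_zero, sum_empty]; positivity
  | succ J ih =>
    rw [sum_range_succ]
    have e : ((2:ℝ)^(J + 1))^β = ((2:ℝ)^J)^β * 2^β := by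
      rw [pow_succ, Real.mul_rpow (by positivity) (by norm_num)]
    rw [e]
    have e2 : ((2:ℝ)^J)^β * 2^β / (2^β - 1) = ((2:ℝ)^J)^β / (2^β - 1) + ((2:ℝ)^J)^β := by
      field_simp
      ring
    rw [e2]
    linarith

theorem geo_dn {a : ℝ} (ha : 0 < a) (J M : ℕ) :
    ∑ i ∈ range M, ((2:ℝ)^(J + i))^(-a) ≤ ((2:ℝ)^J)^(-a) / (1 - 2^(-a)) := by
  have h2 : (2:ℝ)^(-a) < 1 := Real.rpow_lt_one_of_one_lt_of_neg (by norm_num) (by linarith)
  have h0 : 0 < (2:ℝ)^(-a) := by positivity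
  have e : ∀ i : ℕ, ((2:ℝ)^(J + i))^(-a) = ((2:ℝ)^J)^(-a) * ((2:ℝ)^(-a))^i := by
    intro i
    rw [pow_add, Real.mul_rpow (by positivity) (by positivity), ← Real.rpow_natCast ((2:ℝ)^(-a)) i,
      ← Real.rpow_mul (by norm_num), mul_comm (-a) (i:ℝ), Real.rpow_mul (by norm_num),
      Real.rpow_natCast]
  rw [sum_congr rfl fun i _ => e i, ← mul_sum, div_eq_mul_inv]
  refine mul_le_mul_of_nonneg_left ?_ (by positivity)
  have h8 := hasSum_geometric_of_lt_one h0.le h2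
  rw [← h8.tsum_eq]
  exact h8.summable.sum_le_tsum _ (fun k _ => pow_nonneg h0.le _)

/-- `min` of an increasing and a decreasing power, summed over the scales -/
theorem sum_min {n : ℝ} (hn : 1 ≤ n) {C : ℝ} (hC : 0 < C) (M : ℕ) :
    ∑ i ∈ range M, ((2:ℝ)^i)^(-(5/48) : ℝ) * min 1 (C * (((2:ℝ)^i)^(2 - 5/48 : ℝ) / n)) ≤
      (C * (2^(43/24 : ℝ) / (2^(43/24 : ℝ) - 1)) + 1 / (1 - 2^(-(5/48) : ℝ))) *
        n^(-(5/91) : ℝ) := by
  have hn0 : 0 < n := by linarith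
  obtain ⟨z, hz⟩ : ∃ z : ℝ, z = n^(48/91 : ℝ) := ⟨_, rfl⟩
  have hz1 : 1 ≤ z := by rw [hz]; exact Real.one_le_rpow hn (by norm_num)
  have hz0 : 0 < z := by linarith
  obtain ⟨J, hJ, hJ2⟩ : ∃ J : ℕ, z ≤ (2:ℝ)^J ∧ ∀ i < J, (2:ℝ)^i < z := by
    classical
    have hex : ∃ n : ℕ, z ≤ (2:ℝ)^n := by
      obtain ⟨n, hn⟩ := pow_unbounded_of_one_lt z (by norm_num : (1:ℝ) < 2)
      exact ⟨n, hn.le⟩
    refine ⟨Nat.find hex, Nat.find_spec hex, fun i hi => ?_⟩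
    have := Nat.find_min hex hi
    push Not at this
    exact this
  have hb1 : 1 < (2:ℝ)^(43/24 : ℝ) := Real.one_lt_rpow (by norm_num) (by norm_num)
  have ha1 : (2:ℝ)^(-(5/48) : ℝ) < 1 :=
    Real.rpow_lt_one_of_one_lt_of_neg (by norm_num) (by norm_num)
  have hzn : z^(-(5/48) : ℝ) = n^(-(5/91) : ℝ) := by
    rw [hz, ← Real.rpow_mul hn0.le]; norm_num
  -- lower scales
  have s1 : ∑ i ∈ range J, C * (((2:ℝ)^i)^(43/24 : ℝ) / n) ≤
      C * (2^(43/24 : ℝ) / (2^(43/24 : ℝ) - 1)) * n^(-(5/91) : ℝ) := by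
    rw [← mul_sum, ← sum_div, mul_assoc]
    refine mul_le_mul_of_nonneg_left ?_ hC.le
    have g1 := geo_up (β := 43/24) (by norm_num) J
    have g2 : ((2:ℝ)^J)^(43/24 : ℝ) ≤ 2^(43/24 : ℝ) * z^(43/24 : ℝ) := by
      rw [← Real.mul_rpow (by norm_num) hz0.le]
      refine Real.rpow_le_rpow (by positivity) ?_ (by norm_num)
      rcases Nat.eq_zero_or_pos J with h0 | h0
      · rw [h0, pow_zero]; linarith
      · have h1 := hJ2 (J - 1) (by omega)
        have h2 : (2:ℝ)^J = 2 * 2^(J - 1) := by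
          rw [← pow_succ']; congr 1; omega
        linarith
    have g3 : z^(43/24 : ℝ) / n = n^(-(5/91) : ℝ) := by
      rw [hz, ← Real.rpow_mul hn0.le, div_eq_mul_inv, ← Real.rpow_neg_one n, ← Real.rpow_add hn0]
      norm_num
    calc (∑ i ∈ range J, ((2:ℝ)^i)^(43/24 : ℝ)) / n
        ≤ (((2:ℝ)^J)^(43/24 : ℝ) / (2^(43/24 : ℝ) - 1)) / n :=
          div_le_div_of_nonneg_right g1 hn0.le
      _ ≤ ((2^(43/24 : ℝ) * z^(43/24 : ℝ)) / (2^(43/24 : ℝ) - 1)) / n := by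
          refine div_le_div_of_nonneg_right (div_le_div_of_nonneg_right g2 ?_) hn0.le
          linarith
      _ = 2^(43/24 : ℝ) / (2^(43/24 : ℝ) - 1) * (z^(43/24 : ℝ) / n) := by ring
      _ = _ := by rw [g3]
  -- upper scales
  have s2 : ∑ i ∈ range M, ((2:ℝ)^(J + i))^(-(5/48) : ℝ) ≤
      1 / (1 - 2^(-(5/48) : ℝ)) * n^(-(5/91) : ℝ) := by
    have g1 := geo_dn (a := 5/48) (by norm_num) J M
    refine g1.trans ?_
    rw [← hzn, one_div, mul_comm, ← div_eq_mul_inv]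
    refine div_le_div_of_nonneg_right ?_ (by linarith)
    exact Real.rpow_le_rpow_of_nonpos hz0 hJ (by norm_num)
  -- combination
  have hterm : ∀ i : ℕ, ((2:ℝ)^i)^(-(5/48) : ℝ) * min 1 (C * (((2:ℝ)^i)^(2 - 5/48 : ℝ) / n)) ≤
      ((2:ℝ)^i)^(-(5/48) : ℝ) := fun i =>
    (mul_le_mul_of_nonneg_left (min_le_left _ _) (by positivity)).trans (mul_one _).le
  have hterm2 : ∀ i : ℕ, ((2:ℝ)^i)^(-(5/48) : ℝ) * min 1 (C * (((2:ℝ)^i)^(2 - 5/48 : ℝ) / n)) ≤
      C * (((2:ℝ)^i)^(43/24 : ℝ) / n) := by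
    intro i
    refine (mul_le_mul_of_nonneg_left (min_le_right _ _) (by positivity)).trans (le_of_eq ?_)
    have e : ((2:ℝ)^i)^(43/24 : ℝ) = ((2:ℝ)^i)^(-(5/48) : ℝ) * ((2:ℝ)^i)^(2 - 5/48 : ℝ) := by
      rw [← Real.rpow_add (by positivity)]; norm_num
    rw [e]; ring
  have hpos : ∀ i : ℕ, 0 ≤ ((2:ℝ)^i)^(-(5/48) : ℝ) *
      min 1 (C * (((2:ℝ)^i)^(2 - 5/48 : ℝ) / n)) := fun i =>
    mul_nonneg (by positivity) (le_min zero_le_one (by positivity))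
  calc ∑ i ∈ range M, ((2:ℝ)^i)^(-(5/48) : ℝ) * min 1 (C * (((2:ℝ)^i)^(2 - 5/48 : ℝ) / n))
      ≤ ∑ i ∈ range (J + M), ((2:ℝ)^i)^(-(5/48) : ℝ) *
          min 1 (C * (((2:ℝ)^i)^(2 - 5/48 : ℝ) / n)) :=
        sum_le_sum_of_subset_of_nonneg (range_mono (by omega)) fun i _ _ => hpos i
    _ = ∑ i ∈ range J, ((2:ℝ)^i)^(-(5/48) : ℝ) * min 1 (C * (((2:ℝ)^i)^(2 - 5/48 : ℝ) / n)) +
        ∑ i ∈ range M, ((2:ℝ)^(J + i))^(-(5/48) : ℝ) *
          min 1 (C * (((2:ℝ)^(J + i))^(2 - 5/48 : ℝ) / n)) := sum_range_add _ _ _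
    _ ≤ ∑ i ∈ range J, C * (((2:ℝ)^i)^(43/24 : ℝ) / n) +
        ∑ i ∈ range M, ((2:ℝ)^(J + i))^(-(5/48) : ℝ) :=
        add_le_add (sum_le_sum fun i _ => hterm2 i) (sum_le_sum fun i _ => hterm (J + i))
    _ ≤ _ := add_le_add s1 s2
    _ = _ := by ring

theorem exp_neg_le_inv {x : ℝ} (hx : 0 < x) : Real.exp (-x) ≤ 1 / x := by
  rw [Real.exp_neg, one_div]
  refine inv_anti₀ hx ?_
  have := Real.add_one_le_exp x
  linarith

theorem sqrt_le_self' {y : ℝ} (hy : 0 ≤ y) : Real.sqrt y ≤ y + 1 := by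
  rw [Real.sqrt_le_left (by linarith)]
  nlinarith

/-- the far scales -/
theorem far_term {k : ℝ} (hk : 0 ≤ k) : ∃ c : ℝ, 0 < c ∧ ∀ (v : ℝ) (D : ℕ), 0 ≤ v →
    min 1 (Real.exp ((k * ((2:ℝ)^D)^2 - v / 18) / 2)) * Real.exp (-((2:ℝ)^D / 8)) ≤
      Real.exp 1 * (16 * (1/2)^D) * Real.exp (-(c * Real.sqrt v)) := by
  refine ⟨min (1/72) (1 / (96 * (k + 1))), by positivity, fun v D hv => ?_⟩
  obtain ⟨c, hc⟩ : ∃ c : ℝ, c = min (1/72) (1 / (96 * (k + 1))) := ⟨_, rfl⟩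
  have hc0 : 0 < c := by rw [hc]; positivity
  have hc1 : c ≤ 1/72 := by rw [hc]; exact min_le_left _ _
  have hc2 : c ≤ 1 / (96 * (k + 1)) := by rw [hc]; exact min_le_right _ _
  rw [← hc]
  have hD : (0:ℝ) < 2^D := by positivity
  have hs := Real.sqrt_nonneg v
  have hsv : Real.sqrt v ≤ v + 1 := sqrt_le_self' hv
  have h16 : Real.exp (-((2:ℝ)^D / 16)) ≤ 16 * (1/2)^D := by
    have := exp_neg_le_inv (x := (2:ℝ)^D / 16) (by positivity)
    refine this.trans (le_of_eq ?_)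
    rw [one_div_pow, one_div_div]
    ring
  have e8 : Real.exp (-((2:ℝ)^D / 8)) = Real.exp (-((2:ℝ)^D / 16)) * Real.exp (-((2:ℝ)^D / 16)) := by
    rw [← Real.exp_add]; congr 1; ring
  have hp16 : 0 < Real.exp (-((2:ℝ)^D / 16)) := Real.exp_pos _
  have hle16 : Real.exp (-((2:ℝ)^D / 16)) ≤ 1 := by
    rw [Real.exp_le_one_iff]
    have : 0 < (2:ℝ)^D / 16 := by positivity
    linarith
  have hgoal : min 1 (Real.exp ((k * ((2:ℝ)^D)^2 - v / 18) / 2)) * Real.exp (-((2:ℝ)^D / 16)) ≤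
      Real.exp 1 * Real.exp (-(c * Real.sqrt v)) := by
    rw [← Real.exp_add]
    rcases le_or_gt (k * ((2:ℝ)^D)^2) (v / 36) with h | h
    · calc min 1 (Real.exp ((k * ((2:ℝ)^D)^2 - v / 18) / 2)) * Real.exp (-((2:ℝ)^D / 16))
          ≤ Real.exp ((k * ((2:ℝ)^D)^2 - v / 18) / 2) * 1 :=
            mul_le_mul (min_le_right _ _) hle16 hp16.le (Real.exp_pos _).le
        _ = Real.exp ((k * ((2:ℝ)^D)^2 - v / 18) / 2) := mul_one _
        _ ≤ _ := by
            refine Real.exp_le_exp.mpr ?_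
            have h1 : c * Real.sqrt v ≤ 1/72 * (v + 1) := by
              calc c * Real.sqrt v ≤ 1/72 * Real.sqrt v := mul_le_mul_of_nonneg_right hc1 hs
                _ ≤ _ := mul_le_mul_of_nonneg_left hsv (by norm_num)
            linarith
    · calc min 1 (Real.exp ((k * ((2:ℝ)^D)^2 - v / 18) / 2)) * Real.exp (-((2:ℝ)^D / 16))
          ≤ 1 * Real.exp (-((2:ℝ)^D / 16)) :=
            mul_le_mul_of_nonneg_right (min_le_left _ _) hp16.le
        _ = Real.exp (-((2:ℝ)^D / 16)) := one_mul _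
        _ ≤ _ := by
            refine Real.exp_le_exp.mpr ?_
            have h1 : Real.sqrt v ≤ 6 * (k + 1) * 2^D := by
              rw [Real.sqrt_le_left (by positivity)]
              have h2 : v < 36 * (k * ((2:ℝ)^D)^2) := by linarith
              have h3 : k * ((2:ℝ)^D)^2 ≤ (k + 1)^2 * ((2:ℝ)^D)^2 := by
                refine mul_le_mul_of_nonneg_right ?_ (by positivity)
                nlinarith
              calc v ≤ 36 * (k * ((2:ℝ)^D)^2) := h2.le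
                _ ≤ 36 * ((k + 1)^2 * ((2:ℝ)^D)^2) := by linarith
                _ = _ := by ring
            have h4 : c * Real.sqrt v ≤ 2^D / 16 := by
              calc c * Real.sqrt v ≤ (1 / (96 * (k + 1))) * (6 * (k + 1) * 2^D) :=
                    mul_le_mul hc2 h1 hs (by positivity)
                _ = 2^D / 16 := by
                    field_simp
                    ring
            linarith
  calc min 1 (Real.exp ((k * ((2:ℝ)^D)^2 - v / 18) / 2)) * Real.exp (-((2:ℝ)^D / 8))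
      = (min 1 (Real.exp ((k * ((2:ℝ)^D)^2 - v / 18) / 2)) * Real.exp (-((2:ℝ)^D / 16))) *
        Real.exp (-((2:ℝ)^D / 16)) := by rw [e8]; ring
    _ ≤ (Real.exp 1 * Real.exp (-(c * Real.sqrt v))) * (16 * (1/2)^D) :=
        mul_le_mul hgoal h16 hp16.le (by positivity)
    _ = _ := by ring

end TH992.F
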