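import Pool.Agent.TH992.F.D
import Pool.Agent.TH992.F.E1

/-!
The sum over the scales.
-/

set_option autoImplicit false

namespace TH992.F

open H974 Finset TH992.T
open Pool.Agent.H160R2.CV (Far nv)

/-- the volume at the correlation scale -/
theorem nu_facts {E s : ℝ} (hE : 1 ≤ E) (hs : 0 < s) {I : ℕ}
    (h1 : ((2:ℝ)^I) * s^(4/3 : ℝ) ≤ E) {n : ℝ} (hn : 1 ≤ n) :
    ((2:ℝ)^I)^(-(5/48) : ℝ) =
      n^(-(5/91) : ℝ) * (n / ((2:ℝ)^I)^(2 - 5/48 : ℝ))^(5/91 : ℝ) ∧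
    Real.sqrt (n * s^(91/36 : ℝ)) ≤ E * Real.sqrt (n / ((2:ℝ)^I)^(2 - 5/48 : ℝ)) := by
  have hn0 : 0 < n := by linarith
  have hI : (0:ℝ) < 2^I := by positivity
  have hW : 0 < ((2:ℝ)^I)^(2 - 5/48 : ℝ) := by positivity
  constructor
  · have e2 : (((2:ℝ)^I)^(2 - 5/48 : ℝ))^(5/91 : ℝ) = ((2:ℝ)^I)^(5/48 : ℝ) := by
      rw [← Real.rpow_mul hI.le]
      norm_num
    have e3 : n^(-(5/91) : ℝ) * n^(5/91 : ℝ) = 1 := by
      rw [← Real.rpow_add hn0]
      norm_num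
    rw [Real.div_rpow hn0.le hW.le, e2, Real.rpow_neg hI.le, mul_div_assoc', e3, one_div]
  · have h2 : ((2:ℝ)^I)^(2 - 5/48 : ℝ) * s^(91/36 : ℝ) ≤ E^2 := by
      have e : s^(91/36 : ℝ) = (s^(4/3 : ℝ))^(2 - 5/48 : ℝ) := by
        rw [← Real.rpow_mul hs.le]; norm_num
      rw [e, ← Real.mul_rpow hI.le (by positivity)]
      calc (((2:ℝ)^I) * s^(4/3 : ℝ))^(2 - 5/48 : ℝ) ≤ E^(2 - 5/48 : ℝ) :=
            Real.rpow_le_rpow (by positivity) h1 (by norm_num)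
        _ ≤ E^((2:ℕ) : ℝ) := Real.rpow_le_rpow_of_exponent_le hE (by norm_num)
        _ = E^2 := Real.rpow_natCast _ _
    have h3 : n * s^(91/36 : ℝ) ≤ E^2 * (n / ((2:ℝ)^I)^(2 - 5/48 : ℝ)) := by
      rw [mul_div_assoc', le_div_iff₀ hW]
      calc n * s^(91/36 : ℝ) * ((2:ℝ)^I)^(2 - 5/48 : ℝ)
          = n * (((2:ℝ)^I)^(2 - 5/48 : ℝ) * s^(91/36 : ℝ)) := by ring
        _ ≤ n * E^2 := mul_le_mul_of_nonneg_left h2 hn0.le
        _ = E^2 * n := mul_comm _ _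
    calc Real.sqrt (n * s^(91/36 : ℝ)) ≤ Real.sqrt (E^2 * (n / ((2:ℝ)^I)^(2 - 5/48 : ℝ))) :=
          Real.sqrt_le_sqrt h3
      _ = _ := by
          rw [Real.sqrt_mul (by positivity), Real.sqrt_sq (by linarith)]

theorem absorb {c x : ℝ} (hc : 0 < c) (hx : 0 ≤ x) :
    (1 + x) * Real.exp (-(c * x)) ≤ (1 + 2 / c) * Real.exp (-(c / 2 * x)) := by
  have e : Real.exp (-(c * x)) = Real.exp (-(c / 2 * x)) * Real.exp (-(c / 2 * x)) := by
    rw [← Real.exp_add]; congr 1; ring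
  have h1 : 0 < Real.exp (-(c / 2 * x)) := Real.exp_pos _
  have h2 : (1 + x) * Real.exp (-(c / 2 * x)) ≤ 1 + 2 / c := by
    rw [Real.exp_neg, ← div_eq_mul_inv, div_le_iff₀ (Real.exp_pos _)]
    have h3 := Real.add_one_le_exp (c / 2 * x)
    have h4 : 0 < 1 + 2 / c := by positivity
    have h5 : 0 ≤ c / 2 * x := by positivity
    calc 1 + x ≤ (1 + 2 / c) * (c / 2 * x + 1) := by
          have e2 : (1 + 2 / c) * (c / 2 * x + 1) = 1 + 2 / c + c / 2 * x + x := by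
            field_simp
            ring
          rw [e2]
          have : 0 < 2 / c := by positivity
          linarith
      _ ≤ _ := mul_le_mul_of_nonneg_left h3 h4.le
  calc (1 + x) * Real.exp (-(c * x)) = ((1 + x) * Real.exp (-(c / 2 * x))) *
        Real.exp (-(c / 2 * x)) := by rw [e]; ring
    _ ≤ _ := mul_le_mul_of_nonneg_right h2 h1.le

theorem rpow_le_sqrt {v : ℝ} (hv : 0 ≤ v) : v^(5/91 : ℝ) ≤ 1 + Real.sqrt v := by
  have hs := Real.sqrt_nonneg v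
  rcases le_or_gt v 1 with h | h
  · have := Real.rpow_le_one hv h (show (0:ℝ) ≤ 5/91 by norm_num)
    linarith
  · rw [Real.sqrt_eq_rpow]
    have := Real.rpow_le_rpow_of_exponent_le h.le (show (5/91 : ℝ) ≤ 1/2 by norm_num)
    linarith

theorem g_le (I d : ℕ) :
    (if I + 3 ≤ I + 1 + d then ((1:ℝ)/4)^(2^(I + 1 + d - 3 - I)) else 1) ≤
      3 * Real.exp (-((2:ℝ)^(d + 1) / 8)) := by
  split_ifs with h
  · obtain ⟨e, he⟩ : ∃ e : ℕ, d = e + 2 := ⟨d - 2, by omega⟩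
    have e1 : I + 1 + d - 3 - I = e := by omega
    rw [e1, he]
    have e2 : (2:ℝ)^(e + 2 + 1) / 8 = 2^e := by
      rw [pow_add, pow_add]; ring
    rw [e2]
    have h1 : (1/4 : ℝ) ≤ Real.exp (-1) := by
      rw [Real.exp_neg, one_div]
      apply inv_anti₀ (Real.exp_pos _)
      have := Real.exp_one_lt_d9
      linarith
    have h2 : ((1:ℝ)/4)^(2^e) ≤ Real.exp (-((2:ℝ)^e)) := by
      calc ((1:ℝ)/4)^(2^e) ≤ (Real.exp (-1))^(2^e) := pow_le_pow_left₀ (by norm_num) h1 _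
        _ = Real.exp (-((2:ℝ)^e)) := by
            rw [← Real.exp_nat_mul]
            congr 1
            push_cast
            ring
    have h3 : 0 < Real.exp (-((2:ℝ)^e)) := Real.exp_pos _
    linarith
  · have hd : d + 1 ≤ 2 := by omega
    have h1 : (2:ℝ)^(d + 1) ≤ 2^2 := pow_le_pow_right₀ (by norm_num) hd
    have h2 : Real.exp (-1) ≤ Real.exp (-((2:ℝ)^(d + 1) / 8)) := by
      refine Real.exp_le_exp.mpr ?_
      linarith
    have h3 : (1/3 : ℝ) ≤ Real.exp (-1) := by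
      rw [Real.exp_neg, one_div]
      apply inv_anti₀ (Real.exp_pos _)
      have := Real.exp_one_lt_d9
      linarith
    linarith

theorem sum_scales : ∃ C c : ℝ, 0 < C ∧ 0 < c ∧ ∀ p : ℝ, 1/2 < p → p ≤ 1 → ∀ n : ℝ, 1 ≤ n →
    ∀ J : ℕ, ∑ i ∈ range J, Pr (fun _ => p) (boxE (2 * 2^i)) (Ev n (2^i) (0, 0)) ≤
      C * n^(-(5/91) : ℝ) * Real.exp (-(c * Real.sqrt (n * (p - 1/2)^(91/36 : ℝ)))) := by
  obtain ⟨E, C0, c0, hE, hC0, hc0, hsc⟩ := scaleN
  obtain ⟨K, k, hK, hk, hterm⟩ := term hC0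
  obtain ⟨c1, hc1, hfar⟩ := far_term hk
  obtain ⟨Q, hQ⟩ : ∃ Q : ℝ, Q = 72 * (2^(43/24 : ℝ) / (2^(43/24 : ℝ) - 1)) +
    1 / (1 - 2^(-(5/48) : ℝ)) := ⟨_, rfl⟩
  have hb1 : 1 < (2:ℝ)^(43/24 : ℝ) := Real.one_lt_rpow (by norm_num) (by norm_num)
  have ha1 : (2:ℝ)^(-(5/48) : ℝ) < 1 :=
    Real.rpow_lt_one_of_one_lt_of_neg (by norm_num) (by norm_num)
  have hQ0 : 0 < Q := by
    rw [hQ]
    have h1 : 0 < (2:ℝ)^(43/24 : ℝ) - 1 := by linarith
    have h2 : 0 < 1 - (2:ℝ)^(-(5/48) : ℝ) := by linarith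
    positivity
  obtain ⟨c, hc⟩ : ∃ c : ℝ, c = min (1/72) (c1 / 2) := ⟨_, rfl⟩
  have hcpos : 0 < c := by rw [hc]; positivity
  have hcA : c ≤ 1/72 := by rw [hc]; exact min_le_left _ _
  have hcB : c ≤ c1 / 2 := by rw [hc]; exact min_le_right _ _
  refine ⟨K * Real.exp (k / 2) * Q * Real.exp 1 + K * (3 * (Real.exp 1 * 16)) * (1 + 2 / c1), c / E,
    by positivity, by positivity, fun p hp hp1 n hn J => ?_⟩
  obtain ⟨s, hs⟩ : ∃ s : ℝ, s = p - 1/2 := ⟨_, rfl⟩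
  have hs0 : 0 < s := by rw [hs]; linarith
  obtain ⟨I, hI1, hI2, hI3, hI4, hup, hlow, hlow2⟩ := hsc p hp hp1
  rw [← hs] at hI2 hI3 ⊢
  have hSc : Sc C0 p I := ⟨by linarith, hp1, hup⟩
  have ok := okq hSc.h0 hSc.h1
  have hn0 : 0 < n := by linarith
  obtain ⟨v, hv⟩ : ∃ v : ℝ, v = n / ((2:ℝ)^I)^(2 - 5/48 : ℝ) := ⟨_, rfl⟩
  obtain ⟨f1, f2⟩ := nu_facts hE hs0 hI2 hn
  rw [← hv] at f1 f2
  have hv0 : 0 < v := by rw [hv]; positivity
  have hsv := Real.sqrt_nonneg v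
  obtain ⟨T, hT⟩ : ∃ T : ℕ → ℝ, T = fun i =>
    Pr (fun _ => p) (boxE (2 * 2^i)) (Ev n (2^i) (0, 0)) := ⟨_, rfl⟩
  have hT0 : ∀ i, 0 ≤ T i := fun i => by rw [hT]; exact Pr_nonneg ok _ _
  have hTt : ∀ i m : ℕ, m ≤ i → m ≤ I → T i ≤ K * ((2:ℝ)^m)^(-(5/48) : ℝ) *
          min 1 (Real.exp ((k * ((2:ℝ)^(i - m))^2 - n / ((2:ℝ)^m)^(2 - 5/48 : ℝ) / 18) / 2)) *
          (if I + 3 ≤ i then (1/4)^(2^(i - 3 - I)) else 1) := fun i m h1 h2 => by
    rw [hT]
    exact hterm p I hSc hI1 hI4 i m h1 h2 n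
  -- near scales
  have n1 : ∀ i ∈ range (I + 1), T i ≤ (K * Real.exp (k / 2) * Real.exp (-(v / 72))) *
      (((2:ℝ)^i)^(-(5/48) : ℝ) * min 1 (72 * (((2:ℝ)^i)^(2 - 5/48 : ℝ) / n))) := by
    intro i hi
    rw [mem_range] at hi
    have h1 := hTt i i le_rfl (by omega)
    rw [if_neg (by omega), mul_one, Nat.sub_self, pow_zero, one_pow, mul_one] at h1
    obtain ⟨y, hy⟩ : ∃ y : ℝ, y = n / ((2:ℝ)^i)^(2 - 5/48 : ℝ) := ⟨_, rfl⟩
    have hy0 : 0 < y := by rw [hy]; positivity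
    have hyv : v ≤ y := by
      rw [hv, hy]
      refine div_le_div_of_nonneg_left hn0.le (by positivity) ?_
      refine Real.rpow_le_rpow (by positivity) ?_ (by norm_num)
      exact pow_le_pow_right₀ (by norm_num) (by omega)
    rw [← hy] at h1
    have h2 : min 1 (Real.exp ((k - y / 18) / 2)) ≤
        Real.exp (k / 2) * Real.exp (-(v / 72)) * min 1 (72 * (((2:ℝ)^i)^(2 - 5/48 : ℝ) / n)) := by
      have e1 : Real.exp ((k - y / 18) / 2) =
          Real.exp (k / 2) * Real.exp (-(y / 72)) * Real.exp (-(y / 72)) := by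
        rw [← Real.exp_add, ← Real.exp_add]; congr 1; ring
      have h3 : Real.exp (-(y / 72)) ≤ Real.exp (-(v / 72)) :=
        Real.exp_le_exp.mpr (by linarith)
      have h4 : Real.exp (-(y / 72)) ≤ min 1 (72 * (((2:ℝ)^i)^(2 - 5/48 : ℝ) / n)) := by
        refine le_min ?_ ?_
        · rw [Real.exp_le_one_iff]
          have : 0 < y / 72 := by positivity
          linarith
        · refine (exp_neg_le_inv (x := y / 72) (by positivity)).trans (le_of_eq ?_)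
          rw [hy]
          field_simp
      refine (min_le_right _ _).trans ?_
      rw [e1]
      exact mul_le_mul (mul_le_mul_of_nonneg_left h3 (Real.exp_pos _).le) h4 (Real.exp_pos _).le
        (by positivity)
    refine h1.trans ?_
    refine (mul_le_mul_of_nonneg_left h2 (by positivity)).trans (le_of_eq ?_)
    ring
  have n2 : ∑ i ∈ range (I + 1), T i ≤
      (K * Real.exp (k / 2) * Real.exp (-(v / 72))) * (Q * n^(-(5/91) : ℝ)) := by
    refine (sum_le_sum n1).trans ?_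
    rw [← mul_sum]
    refine mul_le_mul_of_nonneg_left ?_ (by positivity)
    rw [hQ]
    exact sum_min hn (by norm_num) (I + 1)
  -- far scales
  have m1 : ∀ d ∈ range J, T (I + 1 + d) ≤ (K * ((2:ℝ)^I)^(-(5/48) : ℝ) *
      (3 * (Real.exp 1 * 16) * Real.exp (-(c1 * Real.sqrt v)))) * (1/2)^(d + 1) := by
    intro d _
    have h1 := hTt (I + 1 + d) I (by omega) le_rfl
    have e1 : I + 1 + d - I = d + 1 := by omega
    rw [e1, ← hv] at h1
    have h2 := g_le I d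
    have h3 := hfar v (d + 1) hv0.le
    refine h1.trans ?_
    have h4 : 0 ≤ min 1 (Real.exp ((k * ((2:ℝ)^(d + 1))^2 - v / 18) / 2)) :=
      le_min zero_le_one (Real.exp_pos _).le
    calc _ ≤ K * ((2:ℝ)^I)^(-(5/48) : ℝ) *
          min 1 (Real.exp ((k * ((2:ℝ)^(d + 1))^2 - v / 18) / 2)) *
          (3 * Real.exp (-((2:ℝ)^(d + 1) / 8))) :=
          mul_le_mul_of_nonneg_left h2 (mul_nonneg (by positivity) h4)
      _ = (3 * (K * ((2:ℝ)^I)^(-(5/48) : ℝ))) *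
          (min 1 (Real.exp ((k * ((2:ℝ)^(d + 1))^2 - v / 18) / 2)) *
            Real.exp (-((2:ℝ)^(d + 1) / 8))) := by ring
      _ ≤ (3 * (K * ((2:ℝ)^I)^(-(5/48) : ℝ))) *
          (Real.exp 1 * (16 * (1/2)^(d + 1)) * Real.exp (-(c1 * Real.sqrt v))) :=
          mul_le_mul_of_nonneg_left h3 (by positivity)
      _ = _ := by ring
  have m2 : ∑ d ∈ range J, T (I + 1 + d) ≤ K * ((2:ℝ)^I)^(-(5/48) : ℝ) *
      (3 * (Real.exp 1 * 16) * Real.exp (-(c1 * Real.sqrt v))) := by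
    refine (sum_le_sum m1).trans ?_
    rw [← mul_sum]
    have h1 : ∑ d ∈ range J, ((1:ℝ)/2)^(d + 1) ≤ 1 := by
      have h8 := hasSum_geometric_of_lt_one (r := (1:ℝ)/2) (by norm_num) (by norm_num)
      have h9 := h8.summable.sum_le_tsum (range J) (fun k _ => pow_nonneg (by norm_num) _)
      rw [h8.tsum_eq] at h9
      have e : ∑ d ∈ range J, ((1:ℝ)/2)^(d + 1) = 1/2 * ∑ d ∈ range J, ((1:ℝ)/2)^d := by
        rw [mul_sum]; exact sum_congr rfl fun d _ => by rw [pow_succ]; ring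
      rw [e]
      norm_num at h9 ⊢
      linarith
    exact (mul_le_mul_of_nonneg_left h1 (by positivity)).trans (mul_one _).le
  -- combination
  have t1 : ∑ i ∈ range J, T i ≤ ∑ i ∈ range (I + 1), T i + ∑ d ∈ range J, T (I + 1 + d) := by
    rw [← sum_range_add]
    exact sum_le_sum_of_subset_of_nonneg (range_mono (by omega)) fun i _ _ => hT0 i
  have hnb : 0 < n^(-(5/91) : ℝ) := by positivity
  have hfin : Real.exp (-(c * Real.sqrt v)) ≤
      Real.exp (-(c / E * Real.sqrt (n * s^(91/36 : ℝ)))) := by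
    refine Real.exp_le_exp.mpr (neg_le_neg ?_)
    calc c / E * Real.sqrt (n * s^(91/36 : ℝ)) ≤ c / E * (E * Real.sqrt v) :=
          mul_le_mul_of_nonneg_left f2 (by positivity)
      _ = c * Real.sqrt v := by field_simp
  have t2 : Real.exp (-(v / 72)) ≤ Real.exp 1 * Real.exp (-(c * Real.sqrt v)) := by
    rw [← Real.exp_add]
    refine Real.exp_le_exp.mpr ?_
    have h1 : c * Real.sqrt v ≤ 1/72 * (v + 1) :=
      (mul_le_mul_of_nonneg_right hcA hsv).trans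
        (mul_le_mul_of_nonneg_left (sqrt_le_self' hv0.le) (by norm_num))
    linarith
  have t3 : ((2:ℝ)^I)^(-(5/48) : ℝ) * Real.exp (-(c1 * Real.sqrt v)) ≤
      n^(-(5/91) : ℝ) * ((1 + 2 / c1) * Real.exp (-(c * Real.sqrt v))) := by
    rw [f1, mul_assoc]
    refine mul_le_mul_of_nonneg_left ?_ hnb.le
    calc v^(5/91 : ℝ) * Real.exp (-(c1 * Real.sqrt v))
        ≤ (1 + Real.sqrt v) * Real.exp (-(c1 * Real.sqrt v)) :=
          mul_le_mul_of_nonneg_right (rpow_le_sqrt hv0.le) (Real.exp_pos _).le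
      _ ≤ (1 + 2 / c1) * Real.exp (-(c1 / 2 * Real.sqrt v)) := absorb hc1 hsv
      _ ≤ _ := by
          refine mul_le_mul_of_nonneg_left (Real.exp_le_exp.mpr (neg_le_neg ?_)) (by positivity)
          exact mul_le_mul_of_nonneg_right hcB hsv
  have hgoal : ∑ i ∈ range J, T i ≤
      (K * Real.exp (k / 2) * Q * Real.exp 1 + K * (3 * (Real.exp 1 * 16)) * (1 + 2 / c1)) *
        n^(-(5/91) : ℝ) * Real.exp (-(c * Real.sqrt v)) := by
    have a1 : ∑ i ∈ range (I + 1), T i ≤ (K * Real.exp (k / 2) * Q * n^(-(5/91) : ℝ)) *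
        (Real.exp 1 * Real.exp (-(c * Real.sqrt v))) := by
      refine n2.trans ?_
      calc (K * Real.exp (k / 2) * Real.exp (-(v / 72))) * (Q * n^(-(5/91) : ℝ))
          = (K * Real.exp (k / 2) * Q * n^(-(5/91) : ℝ)) * Real.exp (-(v / 72)) := by ring
        _ ≤ _ := mul_le_mul_of_nonneg_left t2 (by positivity)
    have a2 : ∑ d ∈ range J, T (I + 1 + d) ≤ (K * (3 * (Real.exp 1 * 16))) *
        (n^(-(5/91) : ℝ) * ((1 + 2 / c1) * Real.exp (-(c * Real.sqrt v)))) := by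
      refine m2.trans ?_
      calc K * ((2:ℝ)^I)^(-(5/48) : ℝ) *
            (3 * (Real.exp 1 * 16) * Real.exp (-(c1 * Real.sqrt v)))
          = (K * (3 * (Real.exp 1 * 16))) *
            (((2:ℝ)^I)^(-(5/48) : ℝ) * Real.exp (-(c1 * Real.sqrt v))) := by ring
        _ ≤ _ := mul_le_mul_of_nonneg_left t3 (by positivity)
    refine t1.trans ((add_le_add a1 a2).trans (le_of_eq ?_))
    ring
  have e : ∑ i ∈ range J, Pr (fun _ => p) (boxE (2 * 2^i)) (Ev n (2^i) (0, 0)) =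
      ∑ i ∈ range J, T i := by rw [hT]
  rw [e]
  refine hgoal.trans (mul_le_mul_of_nonneg_left hfin (by positivity))

end TH992.F
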