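import Pool.Agent.TH992.F.L3

/-!
Finite clusters which reach a large distance: the general bounds.
-/

set_option autoImplicit false

namespace TH992.F

open H974 Finset TH992.T MeasureTheory
open Pool.Agent.H160R2.CV (Far nv)
open Pool.Agent.H160R2.CV.Quad (bo LA LA_of_far far_of_LA LA_of_reach)

/-- the weight of the scale `i` -/
noncomputable def gw (I i : ℕ) : ℝ := if I + 3 ≤ i then (1/4 : ℝ)^(2^(i - 3 - I)) else 1

theorem gw_pos (I i : ℕ) : 0 < gw I i := by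
  unfold gw; split_ifs <;> positivity

theorem Ev_box {n : ℝ} {R : ℕ} {F : Finset Edg} :
    Ev n R (0, 0) (F ∩ boxE (2 * R)) ↔ Ev n R (0, 0) F := by
  have h := Ev_loc (n := n) (R := R) (v := (0, 0)) (F := F)
  rw [bo_zero] at h
  exact h.symm

theorem scale_bd {p : ℝ} (h0 : 0 ≤ p) (h1 : p ≤ 1) {I : ℕ} (hI : 1 ≤ I) (he : eps p (2^I) ≤ 1/100)
    {A : Finset Edg → Prop} (hA : ∀ F G : Finset Edg, F ⊆ G → A F → A G) {a : ℝ}
    (ha : ∀ S : Finset Edg, Pr (fun _ => p) S A ≤ a) (i : ℕ) :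
    Pr (fun _ => p) (boxE (2 * 2^i)) (fun F => A F ∧ Ev 0 (2^i) (0, 0) F) ≤ a * gw I i := by
  have ok := okq h0 h1
  unfold gw
  by_cases hc : I + 3 ≤ i
  · rw [if_pos hc]
    obtain ⟨U, hU⟩ : ∃ U : Finset Edg, U = boxE (32 * 2^i) := ⟨_, rfl⟩
    obtain ⟨B, hB⟩ : ∃ B : Finset Edg, B = boxE (2 * 2^i) := ⟨_, rfl⟩
    have hsub : B ⊆ U := by
      rw [hU, hB]
      exact boxE_mono (Nat.mul_le_mul_right _ (by norm_num))
    rw [← hB]
    have e1 : Pr (fun _ => p) U (fun F => A (F ∩ B) ∧ Ev 0 (2^i) (0, 0) (F ∩ B)) =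
        Pr (fun _ => p) B (fun F => A F ∧ Ev 0 (2^i) (0, 0) F) := by
      rw [Pr_local hsub (fun F _ => by simp only [inter_assoc, inter_self])]
      exact Pr_congr fun F hF => by rw [inter_eq_left.mpr hF]
    have hN : ∀ F G : Finset Edg, F ⊆ G → F ⊆ U → Gd (2^(i - 3)) F → Gd (2^(i - 3)) G :=
      fun F G h _ hF => Gd_mono h hF
    have e2 : Pr (fun _ => p) U (fun F => A (F ∩ B) ∧ Ev 0 (2^i) (0, 0) (F ∩ B)) ≤
        Pr (fun _ => p) U (fun F => A F ∧ ¬ Gd (2^(i - 3)) F) := by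
      refine Pr_mono ok ?_
      rintro F _ ⟨k1, k2⟩
      refine ⟨hA _ _ inter_subset_left k1, ?_⟩
      rw [hB, Ev_box] at k2
      refine Gd_of_Ev (i := i) (j := i - 3) (by omega) (by omega) ?_ k2
      rw [mem_Bq]
      refine ⟨⟨le_rfl, ?_⟩, le_rfl, ?_⟩ <;> simp
    have e3 : Pr (fun _ => p) U (fun F => A F ∧ ¬ Gd (2^(i - 3)) F) ≤
        Pr (fun _ => p) U A * Pr (fun _ => p) U (fun F => ¬ Gd (2^(i - 3)) F) := by
      refine Pr_harris_decr ok (A := A) (B := fun F => ¬ Gd (2^(i - 3)) F)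
        (fun F G h _ hF => hA F G h hF) ?_
      intro F G h _ hF hG
      exact hF fun hF' => hG (Gd_mono h hF')
    have h3 := pr_not_Gd h0 h1 hI he (i - 3 - I) (S := U) (by
      rw [hU]
      refine boxE_mono (Nat.mul_le_mul_left _ ?_)
      rw [← pow_add]
      exact Nat.pow_le_pow_right (by norm_num) (by omega))
    have e4 : 2^(i - 3 - I) * 2^I = 2^(i - 3) := by
      rw [← pow_add]; congr 1; omega
    rw [e4] at h3
    calc _ = _ := e1.symm
      _ ≤ _ := e2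
      _ ≤ _ := e3
      _ ≤ _ := mul_le_mul (ha U) h3 (Pr_nonneg ok _ _) ((Pr_nonneg ok _ _).trans (ha U))
  · rw [if_neg hc, mul_one]
    exact (Pr_mono ok fun F _ h => h.1).trans (ha _)

theorem gw_le (I i : ℕ) : gw I i ≤ 3 * Real.exp (-((2:ℝ)^i / 2^I / 8)) := by
  unfold gw
  split_ifs with h
  · obtain ⟨e, he⟩ : ∃ e : ℕ, i = e + 3 + I := ⟨i - 3 - I, by omega⟩
    have e1 : i - 3 - I = e := by omega
    rw [e1, he]
    have e2 : (2:ℝ)^(e + 3 + I) / 2^I / 8 = 2^e := by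
      rw [pow_add, pow_add]
      field_simp
      norm_num
    rw [e2]
    have h1 : (1/4 : ℝ) ≤ Real.exp (-1) := by
      rw [Real.exp_neg, one_div]
      apply inv_anti₀ (Real.exp_pos _)
      have := Real.exp_one_lt_d9
      linarith
    have h2 : ((1:ℝ)/4)^(2^e) ≤ Real.exp (-((2:ℝ)^e)) := by
      calc ((1:ℝ)/4)^(2^e) ≤ (Real.exp (-1))^(2^e) := pow_le_pow_left₀ (by norm_num) h1 _
        _ = Real.exp (-((2:ℝ)^e)) := by
            rw [← Real.exp_nat_mul]
            congr 1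
            push_cast
            ring
    have h3 : 0 < Real.exp (-((2:ℝ)^e)) := Real.exp_pos _
    linarith
  · have h1 : (2:ℝ)^i / 2^I / 8 ≤ 1 := by
      have h2 : (2:ℝ)^i ≤ 2^(I + 2) := pow_le_pow_right₀ (by norm_num) (by omega)
      have h3 : (2:ℝ)^(I + 2) = 4 * 2^I := by rw [pow_add]; ring
      have h4 : (0:ℝ) < 2^I := by positivity
      rw [div_div, div_le_one (by positivity)]
      linarith
    have h2 : Real.exp (-1) ≤ Real.exp (-((2:ℝ)^i / 2^I / 8)) := Real.exp_le_exp.mpr (by linarith)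
    have h3 : (1/3 : ℝ) ≤ Real.exp (-1) := by
      rw [Real.exp_neg, one_div]
      apply inv_anti₀ (Real.exp_pos _)
      have := Real.exp_one_lt_d9
      linarith
    linarith

theorem sum_half (I J : ℕ) :
    ∑ i ∈ range J, (if I ≤ i then (1/2 : ℝ)^(i - I) else 0) ≤ 2 - 2 * (1/2 : ℝ)^(J - I) := by
  induction J with
  | zero => simp
  | succ J ih =>
    rw [sum_range_succ]
    by_cases h : I ≤ J
    · rw [if_pos h]
      have e : J + 1 - I = (J - I) + 1 := by omega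
      rw [e, pow_succ]
      linarith
    · rw [if_neg h]
      have e : J + 1 - I = 0 := by omega
      have e' : J - I = 0 := by omega
      rw [e]
      rw [e'] at ih
      linarith

theorem sum_gw {I n : ℕ} (hn : 2^I ≤ n) (J : ℕ) :
    ∑ i ∈ range J, (if n < 2 * 2^i then gw I i else 0) ≤
      96 * Real.exp (-((n:ℝ) / 2^I / 32)) := by
  have h2I : (0:ℝ) < 2^I := by positivity
  have hterm : ∀ i ∈ range J, (if n < 2 * 2^i then gw I i else 0) ≤
      48 * Real.exp (-((n:ℝ) / 2^I / 32)) * (if I ≤ i then (1/2 : ℝ)^(i - I) else 0) := by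
    intro i _
    by_cases h : n < 2 * 2^i
    · rw [if_pos h]
      have hIi : I ≤ i := by
        by_contra hcon
        have h1 : 2^(i + 1) ≤ 2^I := Nat.pow_le_pow_right (by norm_num) (by omega)
        rw [pow_succ] at h1
        omega
      rw [if_pos hIi]
      have h1 := gw_le I i
      have hy : 0 < (2:ℝ)^i / 2^I / 16 := by positivity
      have h2 : Real.exp (-((2:ℝ)^i / 2^I / 16)) ≤ 16 * (1/2 : ℝ)^(i - I) := by
        refine (exp_neg_le_inv hy).trans (le_of_eq ?_)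
        have e1 : (2:ℝ)^i = 2^(i - I) * 2^I := by rw [← pow_add, Nat.sub_add_cancel hIi]
        rw [e1]
        field_simp
        rw [← mul_pow]
        norm_num
      have h3 : Real.exp (-((2:ℝ)^i / 2^I / 16)) ≤ Real.exp (-((n:ℝ) / 2^I / 32)) := by
        refine Real.exp_le_exp.mpr (neg_le_neg ?_)
        have h4 : (n:ℝ) ≤ 2 * 2^i := by exact_mod_cast h.le
        have h5 : (n:ℝ) / 2^I ≤ 2 * 2^i / 2^I := div_le_div_of_nonneg_right h4 h2I.le
        have h6 : 2 * (2:ℝ)^i / 2^I = 2 * ((2:ℝ)^i / 2^I) := by ring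
        rw [h6] at h5
        linarith
      have h4 : Real.exp (-((2:ℝ)^i / 2^I / 8)) =
          Real.exp (-((2:ℝ)^i / 2^I / 16)) * Real.exp (-((2:ℝ)^i / 2^I / 16)) := by
        rw [← Real.exp_add]; congr 1; ring
      rw [h4] at h1
      have h5 : Real.exp (-((2:ℝ)^i / 2^I / 16)) * Real.exp (-((2:ℝ)^i / 2^I / 16)) ≤
          (16 * (1/2 : ℝ)^(i - I)) * Real.exp (-((n:ℝ) / 2^I / 32)) :=
        mul_le_mul h2 h3 (Real.exp_pos _).le (by positivity)
      linarith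
    · rw [if_neg h]
      refine mul_nonneg (by positivity) ?_
      split_ifs <;> positivity
  refine (sum_le_sum hterm).trans ?_
  rw [← mul_sum]
  have h1 := sum_half I J
  have h2 : (0:ℝ) ≤ 2 * (1/2 : ℝ)^(J - I) := by positivity
  have h3 : (0:ℝ) < 48 * Real.exp (-((n:ℝ) / 2^I / 32)) := by positivity
  have h4 := mul_le_mul_of_nonneg_left (h1.trans (sub_le_self _ h2)) h3.le
  linarith

/-- a finite cluster which contains `x` has its radius in a dyadic interval -/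
theorem fin_scale2 {ω : sqLattice.edgeSet → Bool} (hfin : (cluster0 ω).Finite) {x : Vtx}
    (hx : x ∈ cluster0 ω) (hx1 : 1 ≤ nv x) :
    ∃ i : ℕ, nv x < 2 * 2^i ∧ Ev 0 (2^i) (0, 0) (FF (boxE (2 * 2^i)) ω) ∧
      Reach (↑(FF (boxE (2 * 2^i)) ω) : Set Edg) (0, 0) x := by
  classical
  obtain ⟨T, hT⟩ : ∃ T : Finset Vtx, T = hfin.toFinset := ⟨_, rfl⟩
  have hmem : ∀ u, u ∈ T ↔ Reach (opn ω) (0, 0) u := by
    intro u
    rw [hT, Set.Finite.mem_toFinset]
    exact open_reach ω _ _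
  have hxT : x ∈ T := by rw [hT, Set.Finite.mem_toFinset]; exact hx
  obtain ⟨u, hu, hmax⟩ := exists_max_image T (fun u => nv u) ⟨x, hxT⟩
  have hxu := hmax x hxT
  refine ⟨Nat.log 2 (nv u), ?_⟩
  obtain ⟨i, hi⟩ : ∃ i : ℕ, i = Nat.log 2 (nv u) := ⟨_, rfl⟩
  rw [← hi]
  have h1 : 2^i ≤ nv u := by rw [hi]; exact Nat.pow_log_le_self 2 (by omega)
  have h2 : nv u < 2 * 2^i := by
    have := Nat.lt_pow_succ_log_self (b := 2) (by norm_num) (nv u)
    rw [← hi, pow_succ] at this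
    omega
  refine ⟨by omega, ?_⟩
  obtain ⟨M, hM1, hM2⟩ := common_box (ω := ω) T (fun u hu => (hmem u).mp hu) (2 * 2^i)
  have hrF : ∀ w, Reach (↑(FF (boxE M) ω) : Set Edg) (0, 0) w ↔ w ∈ T := by
    intro w
    rw [FF_coe]
    exact ⟨fun h => (hmem w).mpr (h.mono Set.inter_subset_left), fun h => hM2 w h⟩
  have hfar : ¬ Far (0, 0) (2 * 2^i) (FF (boxE M) ω) := by
    rintro ⟨w, hw1, hw2⟩
    rw [show w - (0, 0) = w from sub_zero w] at hw1
    have := hmax w ((hrF w).mp hw2)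
    omega
  have hE : Ev 0 (2^i) (0, 0) (FF (boxE M) ω) := by
    refine ⟨⟨u, ?_, (hrF u).mpr hu⟩, hfar, ∅, by simp, fun w hw => by simp at hw⟩
    rw [show u - (0, 0) = u from sub_zero u]; exact h1
  have e2 : FF (boxE M) ω ∩ boxE (2 * 2^i) = FF (boxE (2 * 2^i)) ω :=
    FF_inter (boxE_mono hM1) ω
  constructor
  · rw [← e2, Ev_box]; exact hE
  · have h3 := stay hfar ((hrF x).mpr hxT)
    rw [bo_zero, ← coe_inter, e2] at h3
    exact h3

/-- far beyond the correlation length -/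
theorem trunc (p : unitInterval) {I : ℕ} (hI : 1 ≤ I) (he : eps (p:ℝ) (2^I) ≤ 1/100)
    {A : Finset Edg → Prop} (hA : ∀ F G : Finset Edg, F ⊆ G → A F → A G) {a : ℝ}
    (ha : ∀ S : Finset Edg, Pr (fun _ => (p:ℝ)) S A ≤ a) {n : ℕ} (hn : 2^I ≤ n)
    {E : Set (sqLattice.edgeSet → Bool)} (hE : ∀ ω ∈ E, ∃ i : ℕ, n < 2 * 2^i ∧
      A (FF (boxE (2 * 2^i)) ω) ∧ Ev 0 (2^i) (0, 0) (FF (boxE (2 * 2^i)) ω)) :
    (bondLaw p).real E ≤ a * (96 * Real.exp (-((n:ℝ) / 2^I / 32))) := by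
  have ok := okq p.2.1 p.2.2
  have ha0 : 0 ≤ a := (Pr_nonneg ok ∅ A).trans (ha ∅)
  refine real_le_of_union (bondLaw p) (U := fun i => {ω | n < 2 * 2^i ∧
    (A (FF (boxE (2 * 2^i)) ω) ∧ Ev 0 (2^i) (0, 0) (FF (boxE (2 * 2^i)) ω))}) ?_ fun J => ?_
  · intro ω hω
    obtain ⟨i, h1, h2, h3⟩ := hE ω hω
    exact Set.mem_iUnion.mpr ⟨i, h1, h2, h3⟩
  · have hterm : ∀ i ∈ range J, (bondLaw p).real {ω | n < 2 * 2^i ∧
        (A (FF (boxE (2 * 2^i)) ω) ∧ Ev 0 (2^i) (0, 0) (FF (boxE (2 * 2^i)) ω))} ≤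
        a * (if n < 2 * 2^i then gw I i else 0) := by
      intro i _
      by_cases h : n < 2 * 2^i
      · rw [if_pos h]
        have e1 : {ω : sqLattice.edgeSet → Bool | n < 2 * 2^i ∧ (A (FF (boxE (2 * 2^i)) ω) ∧
            Ev 0 (2^i) (0, 0) (FF (boxE (2 * 2^i)) ω))} =
            {ω | A (FF (boxE (2 * 2^i)) ω) ∧ Ev 0 (2^i) (0, 0) (FF (boxE (2 * 2^i)) ω)} := by
          ext ω
          simp only [Set.mem_ofPred_eq, h, true_and]
        rw [e1]
        have e2 := law_event p (boxE (2 * 2^i)) (fun F => A F ∧ Ev 0 (2^i) (0, 0) F)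
        rw [e2]
        exact scale_bd p.2.1 p.2.2 hI he hA ha i
      · rw [if_neg h, mul_zero]
        have e1 : {ω : sqLattice.edgeSet → Bool | n < 2 * 2^i ∧ (A (FF (boxE (2 * 2^i)) ω) ∧
            Ev 0 (2^i) (0, 0) (FF (boxE (2 * 2^i)) ω))} = ∅ := by
          ext ω
          simp only [Set.mem_ofPred_eq, h, false_and, Set.mem_empty_iff_false]
        rw [e1]
        simp
    refine (sum_le_sum hterm).trans ?_
    rw [← mul_sum]
    exact mul_le_mul_of_nonneg_left (sum_gw hn J) ha0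

/-- a local increasing event -/
theorem trunc0 (p : unitInterval) {A : Finset Edg → Prop}
    (hA : ∀ F G : Finset Edg, F ⊆ G → A F → A G) {m : ℕ} (hloc : ∀ F, A F → A (F ∩ boxE m))
    {a : ℝ} (ha : ∀ S : Finset Edg, Pr (fun _ => (p:ℝ)) S A ≤ a)
    {E : Set (sqLattice.edgeSet → Bool)} (hE : ∀ ω ∈ E, ∃ i : ℕ,
      A (FF (boxE (2 * 2^i)) ω)) : (bondLaw p).real E ≤ a := by
  have h1 : E ⊆ {ω | A (FF (boxE m) ω)} := by
    intro ω hω
    obtain ⟨i, h2⟩ := hE ω hω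
    refine hA _ _ ?_ (hloc _ h2)
    intro e he
    rw [mem_inter, mem_FF] at he
    rw [mem_FF]
    exact ⟨he.2, he.1.2⟩
  refine (measureReal_mono h1).trans ?_
  rw [law_event]
  exact ha _

/-- finite clusters with an increasing property -/
theorem fin_ge (p : unitInterval) {m : ℕ} (hm : 1 ≤ m) (A : Finset Edg → Prop) :
    Pr (fun _ => (p:ℝ)) (boxE m) A *
      Pr (fun _ => (p:ℝ)) (annE m (2 * m)) (Blk m ((2 * m : ℕ) : ℤ)) ≤
      (bondLaw p).real {ω | (cluster0 ω).Finite ∧ A (FF (boxE m) ω)} := by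
  have ok := okq p.2.1 p.2.2
  have s1 : boxE m ⊆ boxE (2 * m) := boxE_mono (by omega)
  have s2 : annE m (2 * m) ⊆ boxE (2 * m) := Finset.sdiff_subset
  have hi := Pr_indep (p := fun _ => (p:ℝ)) (U := boxE (2 * m)) (S := boxE m)
    (T := annE m (2 * m)) (A := fun F => A (F ∩ boxE m))
    (B := Blk m ((2 * m : ℕ) : ℤ)) s1 s2 Finset.disjoint_sdiff
    (fun F _ => by simp only [inter_assoc, inter_self])
    (fun F _ => Blk_local (by omega) (Finset.Subset.refl _) F)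
  have e1 : Pr (fun _ => (p:ℝ)) (boxE (2 * m)) (fun F => A (F ∩ boxE m)) =
      Pr (fun _ => (p:ℝ)) (boxE m) A := by
    rw [Pr_local s1 (fun F _ => by simp only [inter_assoc, inter_self])]
    exact Pr_congr fun F hF => by rw [inter_eq_left.mpr hF]
  have e2 : Pr (fun _ => (p:ℝ)) (boxE (2 * m)) (Blk m ((2 * m : ℕ) : ℤ)) =
      Pr (fun _ => (p:ℝ)) (annE m (2 * m)) (Blk m ((2 * m : ℕ) : ℤ)) :=
    Pr_local s2 (fun F _ => Blk_local (by omega) (Finset.Subset.refl _) F)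
  rw [e1, e2] at hi
  rw [← hi, ← law_event]
  refine measureReal_mono ?_
  rintro ω ⟨hAω, hB⟩
  have hfin : (cluster0 ω).Finite := by
    by_contra hinf
    have h1 := (infinite_iff ω).mp hinf (2 * m)
    obtain ⟨v, hv, hr⟩ := h1
    exact not_blk_of_arm (R1 := (m:ℤ)) (R2 := ((2 * m : ℕ) : ℤ)) (by positivity)
      (by push_cast; omega) (hr.mono Set.inter_subset_left) (by
        unfold onB at hv
        omega) hB
  refine ⟨hfin, ?_⟩
  rwa [FF_inter s1 ω] at hAω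

end TH992.F
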