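import Pool.Agent.TH992.F.H

/-!
The radius and the two-point function of finite clusters.
-/

set_option autoImplicit false

namespace TH992.F

open H974 Finset TH992.T MeasureTheory
open Pool.Agent.H160R2.CV (Far nv)
open Pool.Agent.H160R2.CV.Quad (bo LA LA_of_far far_of_LA LA_of_reach)

/-- beyond the correlation length -/
theorem form_far {E s α : ℝ} (hE : 1 ≤ E) (hα1 : α ≤ 1) {I n : ℕ}
    (hI : (2:ℝ)^I * s ≤ E) (hn : 2^I ≤ n) :
    ((2:ℝ)^I)^(-α) * (96 * Real.exp (-((n:ℝ) / 2^I / 32))) ≤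
      6144 * ((n:ℝ)^(-α) * Real.exp (-(1 / (64 * E) * (n * s)))) := by
  have h2I : (0:ℝ) < 2^I := by positivity
  have hn' : (2:ℝ)^I ≤ n := by exact_mod_cast hn
  have hn0 : (0:ℝ) < n := by linarith
  obtain ⟨y, hy⟩ : ∃ y : ℝ, y = (n:ℝ) / 2^I := ⟨_, rfl⟩
  have hy1 : 1 ≤ y := by rw [hy, le_div_iff₀ h2I]; linarith
  have hy0 : 0 < y := by linarith
  have hny : (n:ℝ) = y * 2^I := by rw [hy]; field_simp
  have e1 : ((2:ℝ)^I)^(-α) = (n:ℝ)^(-α) * y^α := by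
    rw [hny, Real.mul_rpow hy0.le h2I.le, mul_assoc, mul_comm (((2:ℝ)^I)^(-α)), ← mul_assoc,
      ← Real.rpow_add hy0]
    simp
  have h1 : y^α ≤ y := by
    calc y^α ≤ y^(1:ℝ) := Real.rpow_le_rpow_of_exponent_le hy1 hα1
      _ = y := Real.rpow_one y
  have h2 : y * Real.exp (-(y / 64)) ≤ 64 := by
    have h3 := exp_neg_le_inv (x := y / 64) (by positivity)
    have h4 := mul_le_mul_of_nonneg_left h3 hy0.le
    refine h4.trans (le_of_eq ?_)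
    field_simp
  have h5 : Real.exp (-(y / 64)) ≤ Real.exp (-(1 / (64 * E) * (n * s))) := by
    refine Real.exp_le_exp.mpr (neg_le_neg ?_)
    have h6 : (n:ℝ) * s ≤ y * E := by
      rw [hny]
      have := mul_le_mul_of_nonneg_left hI hy0.le
      linarith
    calc 1 / (64 * E) * (n * s) ≤ 1 / (64 * E) * (y * E) :=
          mul_le_mul_of_nonneg_left h6 (by positivity)
      _ = y / 64 := by field_simp
  have e2 : Real.exp (-(y / 32)) = Real.exp (-(y / 64)) * Real.exp (-(y / 64)) := by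
    rw [← Real.exp_add]; congr 1; ring
  rw [← hy, e1, e2]
  have h7 : y^α * Real.exp (-(y / 64)) ≤ 64 :=
    (mul_le_mul_of_nonneg_right h1 (Real.exp_pos _).le).trans h2
  have h8 : (0:ℝ) ≤ y^α * Real.exp (-(y / 64)) := by positivity
  calc (n:ℝ)^(-α) * y^α * (96 * (Real.exp (-(y / 64)) * Real.exp (-(y / 64))))
      = 96 * (n:ℝ)^(-α) * ((y^α * Real.exp (-(y / 64))) * Real.exp (-(y / 64))) := by ring
    _ ≤ 96 * (n:ℝ)^(-α) * (64 * Real.exp (-(1 / (64 * E) * (n * s)))) :=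
        mul_le_mul_of_nonneg_left (mul_le_mul h7 h5 (Real.exp_pos _).le (by norm_num))
          (by positivity)
    _ = _ := by ring

/-- below the correlation length -/
theorem form_near {E s : ℝ} (hE : 1 ≤ E) (hs : 0 ≤ s) {I n : ℕ}
    (hI : (2:ℝ)^I * s ≤ E) (hn : n ≤ 2^I) :
    1 ≤ 3 * Real.exp (-(1 / (64 * E) * (n * s))) := by
  have hn' : (n:ℝ) ≤ 2^I := by exact_mod_cast hn
  have h1 : 1 / (64 * E) * (n * s) ≤ 1 := by
    have h2 : (n:ℝ) * s ≤ E := (mul_le_mul_of_nonneg_right hn' hs).trans hI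
    calc 1 / (64 * E) * (n * s) ≤ 1 / (64 * E) * E :=
          mul_le_mul_of_nonneg_left h2 (by positivity)
      _ = 1 / 64 := by field_simp
      _ ≤ 1 := by norm_num
  have h3 : Real.exp (-1) ≤ Real.exp (-(1 / (64 * E) * (n * s))) :=
    Real.exp_le_exp.mpr (by linarith)
  have h4 : (1/3 : ℝ) ≤ Real.exp (-1) := by
    rw [Real.exp_neg, one_div]
    apply inv_anti₀ (Real.exp_pos _)
    have := Real.exp_one_lt_d9
    linarith
  linarith

/-! ### The radius -/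

theorem far_zero {r : ℕ} {F : Finset Edg} {x : Vtx} (hx : r ≤ nv x)
    (h : Reach (↑F : Set Edg) (0, 0) x) : Far (0, 0) r F :=
  ⟨x, by rwa [show x - (0, 0) = x from sub_zero x], h⟩

theorem arm_n {C p : ℝ} {I : ℕ} (h : Sc C p I) {n : ℕ} (hn : 1 ≤ n)
    {r : ℕ} (hr : r = min n (2^I)) : arm p r ≤ C * (r:ℝ)^(-(5/48) : ℝ) :=
  h.arm_le r (by rw [hr]; have : 1 ≤ 2^I := Nat.one_le_two_pow
                 omega) (by rw [hr]; exact min_le_right _ _)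

/-- The radius of finite clusters: upper bound. -/
theorem rad_upper : ∃ c C : ℝ, 0 < c ∧ 0 < C ∧ ∀ p : unitInterval, (1/2 : ℝ) < p →
    ∀ n : ℕ, 1 ≤ n →
      (bondLaw p).real {ω | (cluster0 ω).Finite ∧ ∃ x ∈ cluster0 ω, n ≤ nv x} ≤
        C * (n:ℝ)^(-(5/48) : ℝ) * Real.exp (-(c * (n * ((p:ℝ) - 1/2)^(4/3 : ℝ)))) := by
  obtain ⟨E, C0, c0, hE, hC0, hc0, hsc⟩ := scaleN
  refine ⟨1 / (64 * E), 6144 * C0, by positivity, by positivity, fun p hp n hn => ?_⟩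
  obtain ⟨s, hs⟩ : ∃ s : ℝ, s = ((p:ℝ) - 1/2)^(4/3 : ℝ) := ⟨_, rfl⟩
  have hs0 : 0 ≤ s := by rw [hs]; exact Real.rpow_nonneg (by linarith) _
  obtain ⟨I, hI1, hI2, hI3, hI4, hup, hlow, hlow2⟩ := hsc p hp p.2.2
  rw [← hs] at hI2 hI3 ⊢
  have hSc : Sc C0 p I := ⟨p.2.1, p.2.2, hup⟩
  have hn0 : (0:ℝ) < n := by exact_mod_cast hn
  obtain ⟨r, hr⟩ : ∃ r : ℕ, r = min n (2^I) := ⟨_, rfl⟩
  have harm := arm_n hSc hn hr
  have hA : ∀ F G : Finset Edg, F ⊆ G → Far (0, 0) r F → Far (0, 0) r G :=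
    fun F G h hF => far_mono_F h hF
  have ha : ∀ S : Finset Edg, Pr (fun _ => (p:ℝ)) S (Far (0, 0) r) ≤ arm p r :=
    fun S => pr_far p.2.1 p.2.2 S _ _
  have hsc2 : ∀ ω ∈ {ω : sqLattice.edgeSet → Bool | (cluster0 ω).Finite ∧
      ∃ x ∈ cluster0 ω, n ≤ nv x}, ∃ i : ℕ, n < 2 * 2^i ∧
      Far (0, 0) r (FF (boxE (2 * 2^i)) ω) ∧ Ev 0 (2^i) (0, 0) (FF (boxE (2 * 2^i)) ω) := by
    rintro ω ⟨hfin, x, hx, hnx⟩
    obtain ⟨i, h1, h2, h3⟩ := fin_scale2 hfin hx (hn.trans hnx)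
    exact ⟨i, by omega, far_zero ((by rw [hr]; exact (min_le_left _ _).trans hnx)) h3, h2⟩
  rcases le_total n (2^I) with h | h
  · rw [min_eq_left h] at hr
    have h1 := trunc0 p hA (m := r) (fun F hF => by
      have := (far_bo (le_refl r)).mp hF
      rwa [bo_zero] at this) ha (fun ω hω => by
        obtain ⟨i, -, h2, -⟩ := hsc2 ω hω
        exact ⟨i, h2⟩)
    refine (h1.trans harm).trans ?_
    rw [hr]
    have h2 := form_near hE hs0 hI2 h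
    have h3 : 0 < (n:ℝ)^(-(5/48) : ℝ) := by positivity
    have h4 : 0 < C0 * (n:ℝ)^(-(5/48) : ℝ) * Real.exp (-(1 / (64 * E) * (n * s))) := by positivity
    have h5 := mul_le_mul_of_nonneg_left h2 (mul_pos hC0 h3).le
    rw [mul_one] at h5
    calc _ ≤ _ := h5
      _ = 3 * (C0 * (n:ℝ)^(-(5/48) : ℝ) * Real.exp (-(1 / (64 * E) * (n * s)))) := by ring
      _ ≤ 6144 * (C0 * (n:ℝ)^(-(5/48) : ℝ) * Real.exp (-(1 / (64 * E) * (n * s)))) := by
          linarith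
      _ = _ := by ring
  · rw [min_eq_right h] at hr
    have h1 := trunc p hI1 hI4 hA ha h hsc2
    have e : ((r:ℕ):ℝ) = 2^I := by rw [hr]; push_cast; rfl
    rw [e] at harm
    refine h1.trans ((mul_le_mul_of_nonneg_right harm (by positivity)).trans ?_)
    have h2 := form_far (α := 5/48) hE (by norm_num) hI2 h
    have h3 := mul_le_mul_of_nonneg_left h2 hC0.le
    calc _ = C0 * (((2:ℝ)^I)^(-(5/48) : ℝ) * (96 * Real.exp (-((n:ℝ) / 2^I / 32)))) := by ring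
      _ ≤ _ := h3
      _ = _ := by ring

theorem arm_low {p c0 : ℝ} (hc0 : 0 < c0) {I : ℕ}
    (hl1 : ∀ n : ℕ, 1 ≤ n → n ≤ 2^I → c0 * (n:ℝ)^(-(5/48) : ℝ) ≤ arm p n)
    (hl2 : ∀ n : ℕ, c0 * ((2:ℝ)^I)^(-(5/48) : ℝ) ≤ arm p n) {n : ℕ} (hn : 1 ≤ n) :
    c0 * (n:ℝ)^(-(5/48) : ℝ) ≤ arm p n := by
  rcases le_total n (2^I) with h | h
  · exact hl1 n hn h
  · refine le_trans (mul_le_mul_of_nonneg_left ?_ hc0.le) (hl2 n)
    refine Real.rpow_le_rpow_of_nonpos (by positivity) ?_ (by norm_num)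
    exact_mod_cast h

/-- The radius of finite clusters: lower bound. -/
theorem rad_lower : ∃ c C : ℝ, 0 < c ∧ 0 < C ∧ ∀ p : unitInterval, (1/2 : ℝ) < p → (p:ℝ) ≤ 3/4 →
    ∀ n : ℕ, 1 ≤ n →
      c * (n:ℝ)^(-(5/48) : ℝ) * Real.exp (-(C * (n * ((p:ℝ) - 1/2)^(4/3 : ℝ)))) ≤
      (bondLaw p).real {ω | (cluster0 ω).Finite ∧ ∃ x ∈ cluster0 ω, n ≤ nv x} := by
  obtain ⟨E, C0, c0, hE, hC0, hc0, hsc⟩ := scaleN
  obtain ⟨cb, Cb, hcb, hCb, hblk⟩ := pr_Blk_ge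
  refine ⟨c0 * cb, Cb, by positivity, hCb, fun p hp hp1 n hn => ?_⟩
  obtain ⟨I, hI1, hI2, hI3, hI4, hup, hlow, hlow2⟩ := hsc p hp p.2.2
  have h1 := arm_low hc0 hlow hlow2 hn
  have h2 := hblk p hp.le hp1 n hn (annE n (2 * n)) (Finset.Subset.refl _)
  have h3 := fin_ge p hn (Far (0, 0) n)
  have e1 : Pr (fun _ => (p:ℝ)) (boxE n) (Far (0, 0) n) = arm p n :=
    pr_far_eq p (0, 0) n (by rw [bo_zero])
  rw [e1] at h3
  have h4 := mul_le_mul h1 h2 (by positivity) (arm_nonneg p.2.1 p.2.2 _)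
  have h5 : (bondLaw p).real {ω | (cluster0 ω).Finite ∧ Far (0, 0) n (FF (boxE n) ω)} ≤
      (bondLaw p).real {ω | (cluster0 ω).Finite ∧ ∃ x ∈ cluster0 ω, n ≤ nv x} := by
    refine measureReal_mono ?_
    rintro ω ⟨hf, x, hx1, hx2⟩
    refine ⟨hf, x, ?_, ?_⟩
    · refine (open_reach ω _ _).mpr (hx2.mono ?_)
      rw [FF_coe]
      exact Set.inter_subset_left
    · rwa [show x - (0, 0) = x from sub_zero x] at hx1
  calc _ = c0 * (n:ℝ)^(-(5/48) : ℝ) *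
        (cb * Real.exp (-(Cb * (n * ((p:ℝ) - 1/2)^(4/3 : ℝ))))) := by ring
    _ ≤ _ := h4
    _ ≤ _ := h3
    _ ≤ _ := h5

end TH992.F
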