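import Pool.Agent.TH992.F.K

/-!
The two-point function of finite clusters.
-/

set_option autoImplicit false

namespace TH992.F

open H974 Finset TH992.T MeasureTheory
open Pool.Agent.H160R2.CV (Far nv)
open Pool.Agent.H160R2.CV.Quad (bo LA LA_of_far far_of_LA LA_of_reach)

theorem bo_disj {x : Vtx} {r : ℕ} (hr : 2 * r < nv x) : Disjoint (bo (0, 0) r) (bo x r) := by
  rw [Finset.disjoint_left]
  rintro ⟨a, b, s⟩ h1 h2
  unfold bo at h1 h2
  unfold nv at hr
  cases s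
  · rw [mem_RE_false] at h1 h2
    simp only at h1
    omega
  · rw [mem_RE_true] at h1 h2
    simp only at h1
    omega

/-- arms from two distant points -/
theorem two_arm {p : ℝ} (h0 : 0 ≤ p) (h1 : p ≤ 1) {x : Vtx} {r : ℕ} (hr : 2 * r < nv x)
    (S : Finset Edg) :
    Pr (fun _ => p) S (fun F => Far (0, 0) r F ∧ Far x r F) ≤ (arm p r)^2 := by
  have ok := okq h0 h1
  have hi := Pr_indep (p := fun _ => p) (U := S) (S := bo (0, 0) r ∩ S) (T := bo x r ∩ S)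
    (A := Far (0, 0) r) (B := Far x r) inter_subset_right inter_subset_right
    ((bo_disj hr).mono inter_subset_left inter_subset_left)
    (fun F hF => far_loc hF le_rfl) (fun F hF => far_loc hF le_rfl)
  rw [hi, sq]
  exact mul_le_mul (pr_far h0 h1 S _ _) (pr_far h0 h1 S _ _) (Pr_nonneg ok _ _)
    (arm_nonneg h0 h1 _)

/-- The two-point function of finite clusters: upper bound. -/
theorem tp_upper : ∃ c C : ℝ, 0 < c ∧ 0 < C ∧ ∀ p : unitInterval, (1/2 : ℝ) < p →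
    ∀ x : Vtx, (bondLaw p).real {ω | (cluster0 ω).Finite ∧ x ∈ cluster0 ω} ≤
        C * ((nv x : ℝ) + 1)^(-(5/24) : ℝ) *
          Real.exp (-(c * (nv x * ((p:ℝ) - 1/2)^(4/3 : ℝ)))) := by
  obtain ⟨E, C0, c0, hE, hC0, hc0, hsc⟩ := scaleN
  obtain ⟨D, hD⟩ : ∃ D : ℝ, D = (10 * C0 + 5)^2 := ⟨_, rfl⟩
  have hD0 : 1 ≤ D := by rw [hD]; nlinarith
  refine ⟨1 / (64 * E), 2 * (6144 * D), by positivity, by positivity, fun p hp x => ?_⟩
  obtain ⟨n, hn⟩ : ∃ n : ℕ, n = nv x := ⟨_, rfl⟩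
  obtain ⟨s, hs⟩ : ∃ s : ℝ, s = ((p:ℝ) - 1/2)^(4/3 : ℝ) := ⟨_, rfl⟩
  have hs0 : 0 ≤ s := by rw [hs]; exact Real.rpow_nonneg (by linarith) _
  rw [← hn, ← hs]
  rcases Nat.eq_zero_or_pos n with h0 | hn1
  · rw [h0]
    simp only [Nat.cast_zero, zero_add, Real.one_rpow, zero_mul, mul_zero, neg_zero, Real.exp_zero,
      mul_one]
    exact measureReal_le_one.trans (by linarith)
  obtain ⟨I, hI1, hI2, hI3, hI4, hup, hlow, hlow2⟩ := hsc p hp p.2.2
  rw [← hs] at hI2 hI3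
  have hSc : Sc C0 p I := ⟨p.2.1, p.2.2, hup⟩
  have hn0 : (0:ℝ) < n := by exact_mod_cast hn1
  obtain ⟨t, ht⟩ : ∃ t : ℕ, t = min n (2^I) := ⟨_, rfl⟩
  have h2I : 1 ≤ 2^I := Nat.one_le_two_pow
  have ht1 : 1 ≤ t := by rw [ht]; exact le_min hn1 h2I
  have htn : t ≤ n := by rw [ht]; exact min_le_left _ _
  have htI : t ≤ 2^I := by rw [ht]; exact min_le_right _ _
  obtain ⟨r, hr⟩ : ∃ r : ℕ, r = t / 5 := ⟨_, rfl⟩
  have h2r : 2 * r < nv x := by rw [← hn, hr]; omega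
  have harm := arm_fifth hC0 hSc ht1 htI
  rw [← hr] at harm
  have ht0 : (0:ℝ) < t := by exact_mod_cast ht1
  have harm2 : (arm p r)^2 ≤ D * (t:ℝ)^(-(5/24) : ℝ) := by
    have h1 := pow_le_pow_left₀ (arm_nonneg p.2.1 p.2.2 r) harm 2
    refine h1.trans (le_of_eq ?_)
    rw [mul_pow, hD, ← Real.rpow_natCast ((t:ℝ)^(-(5/48) : ℝ)) 2, ← Real.rpow_mul ht0.le]
    norm_num
  obtain ⟨A, hAd⟩ : ∃ A : Finset Edg → Prop, A = fun F => Far (0, 0) r F ∧ Far x r F := ⟨_, rfl⟩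
  have hA : ∀ F G : Finset Edg, F ⊆ G → A F → A G := by
    intro F G h hF
    rw [hAd] at hF ⊢
    exact ⟨far_mono_F h hF.1, far_mono_F h hF.2⟩
  have ha : ∀ S : Finset Edg, Pr (fun _ => (p:ℝ)) S A ≤ (arm p r)^2 := by
    intro S
    rw [hAd]
    exact two_arm p.2.1 p.2.2 h2r S
  have hsc2 : ∀ ω ∈ {ω : sqLattice.edgeSet → Bool | (cluster0 ω).Finite ∧
      x ∈ cluster0 ω}, ∃ i : ℕ, n < 2 * 2^i ∧
      A (FF (boxE (2 * 2^i)) ω) ∧ Ev 0 (2^i) (0, 0) (FF (boxE (2 * 2^i)) ω) := by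
    rintro ω ⟨hfin, hx⟩
    obtain ⟨i, h1, h2, h3⟩ := fin_scale2 hfin hx (by rw [← hn]; exact hn1)
    refine ⟨i, by omega, ?_, h2⟩
    rw [hAd]
    refine ⟨far_zero (by omega) h3, (0, 0), ?_, h3.symm⟩
    have : nv ((0, 0) - x) = nv x := by
      unfold nv
      simp only [Prod.fst_sub, Prod.snd_sub]
      omega
    omega
  have hfin : (bondLaw p).real {ω | (cluster0 ω).Finite ∧ x ∈ cluster0 ω} ≤
      6144 * D * ((n:ℝ)^(-(5/24) : ℝ) * Real.exp (-(1 / (64 * E) * (n * s)))) := by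
    rcases le_total n (2^I) with h | h
    · rw [min_eq_left h] at ht
      have h1 := trunc0 p hA (m := n + r) (fun F hF => by
        rw [hAd] at hF ⊢
        have f1 := (far_bo (le_refl r)).mp hF.1
        have f2 := (far_bo (le_refl r)).mp hF.2
        refine ⟨far_mono_F (inter_subset_inter_left ?_) f1,
          far_mono_F (inter_subset_inter_left ?_) f2⟩
        · rw [bo_zero]; exact boxE_mono (by omega)
        · unfold bo boxE
          unfold nv at hn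
          push_cast
          exact RE_sub_RE (by omega) (by omega) (by omega) (by omega)) ha (fun ω hω => by
          obtain ⟨i, -, h2, -⟩ := hsc2 ω hω
          exact ⟨i, h2⟩)
      refine (h1.trans harm2).trans ?_
      rw [ht]
      have h2 := form_near hE hs0 hI2 h
      have h3 : 0 < (n:ℝ)^(-(5/24) : ℝ) := by positivity
      have hD1 : 0 < D := by linarith
      have h4 : 0 < D * ((n:ℝ)^(-(5/24) : ℝ) * Real.exp (-(1 / (64 * E) * (n * s)))) := by
        positivity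
      have h5 := mul_le_mul_of_nonneg_left h2 (mul_pos hD1 h3).le
      rw [mul_one] at h5
      calc _ ≤ _ := h5
        _ = 3 * (D * ((n:ℝ)^(-(5/24) : ℝ) * Real.exp (-(1 / (64 * E) * (n * s))))) := by ring
        _ ≤ 6144 * (D * ((n:ℝ)^(-(5/24) : ℝ) * Real.exp (-(1 / (64 * E) * (n * s))))) := by
            linarith
        _ = _ := by ring
    · rw [min_eq_right h] at ht
      have h1 := trunc p hI1 hI4 hA ha h hsc2
      have e : ((t:ℕ):ℝ) = 2^I := by rw [ht]; push_cast; rfl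
      rw [e] at harm2
      refine h1.trans ((mul_le_mul_of_nonneg_right harm2 (by positivity)).trans ?_)
      have h2 := form_far (α := 5/24) hE (by norm_num) hI2 h
      have h3 := mul_le_mul_of_nonneg_left h2 (by linarith : 0 ≤ D)
      calc _ = D * (((2:ℝ)^I)^(-(5/24) : ℝ) * (96 * Real.exp (-((n:ℝ) / 2^I / 32)))) := by ring
        _ ≤ _ := h3
        _ = _ := by ring
  have hpow : (n:ℝ)^(-(5/24) : ℝ) ≤ 2 * ((n:ℝ) + 1)^(-(5/24) : ℝ) := by
    have hn1' : (1:ℝ) ≤ n := by exact_mod_cast hn1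
    have h1 : (n:ℝ)^(-(5/24) : ℝ) ≤ (((n:ℝ) + 1) / 2)^(-(5/24) : ℝ) :=
      Real.rpow_le_rpow_of_nonpos (by positivity) (by linarith) (by norm_num)
    refine h1.trans ?_
    rw [Real.div_rpow (by positivity) (by norm_num), Real.rpow_neg (by norm_num : (0:ℝ) ≤ 2),
      div_inv_eq_mul, mul_comm]
    refine mul_le_mul_of_nonneg_right ?_ (by positivity)
    calc (2:ℝ)^(5/24 : ℝ) ≤ (2:ℝ)^(1:ℝ) :=
          Real.rpow_le_rpow_of_exponent_le (by norm_num) (by norm_num)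
      _ = 2 := Real.rpow_one 2
  refine hfin.trans ?_
  have hD1 : 0 < D := by linarith
  have h6 := mul_le_mul_of_nonneg_left hpow
    (show 0 ≤ 6144 * D * Real.exp (-(1 / (64 * E) * (n * s))) by positivity)
  linarith

/-- the two-point function at the critical point, in a box -/
theorem tp_crit : ∃ c : ℝ, 0 < c ∧ ∀ x : Vtx, 1 ≤ nv x →
    c * ((nv x : ℝ) + 1)^(-(5/24) : ℝ) ≤ Pr (fun _ => (1/2 : ℝ)) (boxE (5 * nv x)) (TP x) := by
  obtain ⟨κ, a, C, hκ, ha, hC, hG⟩ := Pool.Agent.W424.NC.nearG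
  refine ⟨a^2 * (4:ℝ)^(-(5/24) : ℝ) * κ^4, by positivity, fun x hx => ?_⟩
  obtain ⟨m, hm, hmn, hW, harm, hcase⟩ := hG (1/2) (nv x) (by norm_num) (by norm_num) hx
  have hmx : m = nv x := by
    rcases hcase with h | h
    · exact h
    · rw [show (1/2 : ℝ) - 1/2 = 0 by norm_num, Real.zero_rpow (by norm_num), mul_zero,
        mul_zero] at h
      linarith
  rw [← hmx]
  have h2 := two_point (q := 1/2) (by norm_num) (by norm_num) (r := m) hm (x1 := x.1) (x2 := x.2)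
    (by unfold inR; simp only; rw [hmx]; unfold nv; omega)
    (Finset.Subset.refl (boxE (5 * m)))
  have h3 : κ ≤ hh (1/2) ((6 * m : ℕ) : ℤ) ((2 * m : ℕ) : ℤ) := by
    refine (hW.pri (2 * m) (by omega) (by omega)).trans ?_
    apply hh_mono (by norm_num) (by norm_num)
    · push_cast; omega
    · push_cast; omega
    · push_cast; omega
  have h4 := pow_le_pow_left₀ hκ.le h3 4
  have hm0 : (0:ℝ) < m := by exact_mod_cast hm
  have hpow : ∀ k : ℕ, 1 ≤ k → k ≤ 4 * m →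
      a * (4:ℝ)^(-(5/48) : ℝ) * ((m:ℝ) + 1)^(-(5/48) : ℝ) ≤ arm (1/2) k := by
    intro k hk1 hk2
    refine le_trans ?_ (harm k hk1 hk2)
    rw [mul_assoc]
    apply mul_le_mul_of_nonneg_left _ ha.le
    rw [← Real.mul_rpow (by norm_num) (by linarith)]
    apply Real.rpow_le_rpow_of_nonpos (by exact_mod_cast hk1) _ (by norm_num)
    have : (k:ℝ) ≤ 4 * m := by exact_mod_cast hk2
    linarith
  have hsq : (a * (4:ℝ)^(-(5/48) : ℝ) * ((m:ℝ) + 1)^(-(5/48) : ℝ)) *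
      (a * (4:ℝ)^(-(5/48) : ℝ) * ((m:ℝ) + 1)^(-(5/48) : ℝ)) =
      a^2 * (4:ℝ)^(-(5/24) : ℝ) * ((m:ℝ) + 1)^(-(5/24) : ℝ) := by
    have e1 : (4:ℝ)^(-(5/24) : ℝ) = (4:ℝ)^(-(5/48) : ℝ) * (4:ℝ)^(-(5/48) : ℝ) := by
      rw [← Real.rpow_add (by norm_num)]; norm_num
    have e2 : ((m:ℝ) + 1)^(-(5/24) : ℝ) = ((m:ℝ) + 1)^(-(5/48) : ℝ) * ((m:ℝ) + 1)^(-(5/48) : ℝ) := by
      rw [← Real.rpow_add (by linarith)]; norm_num
    rw [e1, e2]
    ring
  have hb0 : 0 ≤ a * (4:ℝ)^(-(5/48) : ℝ) * ((m:ℝ) + 1)^(-(5/48) : ℝ) := by positivity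
  have h5 := mul_le_mul (hpow (3 * m) (by omega) (by omega)) (hpow (4 * m) (by omega) le_rfl)
    hb0 (arm_nonneg (by norm_num) (by norm_num) _)
  rw [hsq] at h5
  have h6 := mul_le_mul h5 h4 (by positivity)
    (mul_nonneg (arm_nonneg (by norm_num) (by norm_num) _)
      (arm_nonneg (by norm_num) (by norm_num) _))
  refine le_trans (le_of_eq ?_) (h6.trans h2)
  ring

/-- The two-point function of finite clusters: lower bound. -/
theorem tp_lower : ∃ c C : ℝ, 0 < c ∧ 0 < C ∧ ∀ p : unitInterval, (1/2 : ℝ) < p → (p:ℝ) ≤ 3/4 →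
    ∀ x : Vtx, c * ((nv x : ℝ) + 1)^(-(5/24) : ℝ) *
        Real.exp (-(C * (nv x * ((p:ℝ) - 1/2)^(4/3 : ℝ)))) ≤
      (bondLaw p).real {ω | (cluster0 ω).Finite ∧ x ∈ cluster0 ω} := by
  obtain ⟨c1, hc1, h1⟩ := tp_crit
  obtain ⟨cb, Cb, hcb, hCb, hblk⟩ := pr_Blk_ge
  refine ⟨min (c1 * cb) (cb * Real.exp (-Cb)), 5 * Cb, by positivity, by positivity,
    fun p hp hp1 x => ?_⟩
  obtain ⟨n, hn⟩ : ∃ n : ℕ, n = nv x := ⟨_, rfl⟩
  obtain ⟨s, hs⟩ : ∃ s : ℝ, s = ((p:ℝ) - 1/2)^(4/3 : ℝ) := ⟨_, rfl⟩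
  have hs0 : 0 ≤ s := by rw [hs]; exact Real.rpow_nonneg (by linarith) _
  have hs1 : s ≤ 1 := by
    rw [hs]; exact Real.rpow_le_one (by linarith) (by linarith) (by norm_num)
  have ok := okq p.2.1 p.2.2
  rw [← hn]
  rcases Nat.eq_zero_or_pos n with h0 | hn1
  · have h2 := hblk p hp.le hp1 1 le_rfl (annE 1 (2 * 1)) (Finset.Subset.refl _)
    have h3 := fin_ge p (le_refl 1) (fun _ => True)
    have e1 : Pr (fun _ => (p:ℝ)) (boxE 1) (fun _ => True) = 1 := Pr_true _ (fun _ _ => trivial)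
    rw [e1, one_mul] at h3
    have hx : x = (0, 0) := by
      rw [h0] at hn
      unfold nv at hn
      exact Prod.ext (by simp only; omega) (by simp only; omega)
    have h4 : (bondLaw p).real {ω | (cluster0 ω).Finite ∧ True} ≤
        (bondLaw p).real {ω | (cluster0 ω).Finite ∧ x ∈ cluster0 ω} := by
      refine measureReal_mono ?_
      rintro ω ⟨h5, -⟩
      refine ⟨h5, ?_⟩
      rw [hx]
      exact (open_reach ω _ _).mpr (Reach.refl _ _)
    rw [h0]
    simp only [Nat.cast_zero, zero_add, Real.one_rpow, zero_mul, mul_zero, neg_zero, Real.exp_zero,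
      mul_one]
    refine (min_le_right _ _).trans (le_trans ?_ (h2.trans (h3.trans h4)))
    rw [← hs]
    refine mul_le_mul_of_nonneg_left (Real.exp_le_exp.mpr (neg_le_neg ?_)) hcb.le
    push_cast
    rw [one_mul]
    calc Cb * s ≤ Cb * 1 := mul_le_mul_of_nonneg_left hs1 hCb.le
      _ = Cb := mul_one _
  · have h2 := hblk p hp.le hp1 (5 * n) (by omega) (annE (5 * n) (2 * (5 * n)))
      (Finset.Subset.refl _)
    have h3 := fin_ge p (m := 5 * n) (by omega) (TP x)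
    have h4 := h1 x (by rw [← hn]; exact hn1)
    rw [← hn] at h4
    have h5 : Pr (fun _ => (1/2 : ℝ)) (boxE (5 * n)) (TP x) ≤
        Pr (fun _ => (p:ℝ)) (boxE (5 * n)) (TP x) := by
      refine Pr_mono_param (okq (by norm_num) (by norm_num)) ok (fun _ => hp.le) ?_
      intro F G h _ hF
      exact Reach.mono (by exact_mod_cast h) hF
    have h6 : (bondLaw p).real {ω | (cluster0 ω).Finite ∧ TP x (FF (boxE (5 * n)) ω)} ≤
        (bondLaw p).real {ω | (cluster0 ω).Finite ∧ x ∈ cluster0 ω} := by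
      refine measureReal_mono ?_
      rintro ω ⟨h7, h8⟩
      refine ⟨h7, (open_reach ω _ _).mpr (Reach.mono ?_ h8)⟩
      rw [FF_coe]
      exact Set.inter_subset_left
    have h7 := mul_le_mul (h4.trans h5) h2 (by positivity) (Pr_nonneg ok _ _)
    refine le_trans ?_ (h7.trans (h3.trans h6))
    rw [← hs]
    have e1 : Real.exp (-(5 * Cb * (n * s))) = Real.exp (-(Cb * (((5 * n : ℕ) : ℝ) * s))) := by
      congr 1; push_cast; ring
    rw [e1]
    have h8 : 0 ≤ ((n:ℝ) + 1)^(-(5/24) : ℝ) * Real.exp (-(Cb * (((5 * n : ℕ) : ℝ) * s))) := by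
      positivity
    have h9 := mul_le_mul_of_nonneg_right (min_le_left (c1 * cb) (cb * Real.exp (-Cb))) h8
    calc _ = min (c1 * cb) (cb * Real.exp (-Cb)) *
          (((n:ℝ) + 1)^(-(5/24) : ℝ) * Real.exp (-(Cb * (((5 * n : ℕ) : ℝ) * s)))) := by ring
      _ ≤ _ := h9
      _ = _ := by ring

end TH992.F
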