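import Pool.Agent.TH992.F.D

/-!
Lower bounds: two vertices of a box are connected with probability of the order of the square of
the one-arm probability; large clusters.
-/

set_option autoImplicit false

namespace TH992.F

open H974 Finset TH992.T
open Pool.Agent.H160R2.CV (Far nv)
open Pool.Agent.H160R2.CV.Quad (bo LA LA_of_far far_of_LA LA_of_reach)

theorem arm_iff_far {r : ℕ} {F : Finset Edg} (hF : F ⊆ boxE r) : Arm r F ↔ Far (0, 0) r F := by
  constructor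
  · rintro ⟨v, hv, hr⟩
    refine ⟨v, ?_, hr.mono Set.inter_subset_left⟩
    rw [show v - (0, 0) = v from sub_zero v]
    unfold onB inR at hv
    unfold nv
    omega
  · intro h
    obtain ⟨w, k1, k2, k3⟩ := LA_of_far le_rfl h
    refine ⟨w, ?_, ?_⟩
    · unfold onB inR at *
      simp only at k1 k2 ⊢
      omega
    · rwa [bo_zero'] at k3
where
  bo_zero' : bo (0, 0) r = boxE r := by
    unfold bo boxE
    congr 1 <;> ring

theorem pr_far_eq (p : ℝ) (v : Vtx) (r : ℕ) {S : Finset Edg} (hS : bo v r ⊆ S) :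
    Pr (fun _ => p) S (Far v r) = arm p r := by
  have e1 : Pr (fun _ => p) S (Far v r) = Pr (fun _ => p) (bo v r) (Far v r) :=
    Pr_local hS (fun F _ => far_bo le_rfl)
  have e2 : Pr (fun _ => p) (bo v r) (Far v r) =
      Pr (fun _ => p) ((trl v.1 v.2).mp (boxE r)) (Far v r) :=
    congrArg (fun B => Pr (fun _ => p) B (Far v r)) (bo_trl v r)
  have e3 := (trl v.1 v.2).pr p (boxE r) (Far v r)
  refine e1.trans (e2.trans (e3.trans ?_))
  unfold arm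
  exact Pr_congr fun F hF => far_trl.trans (arm_iff_far hF).symm

/-- `v` and `x` are connected and have long arms -/
def Cn (r : ℕ) (v x : Vtx) (F : Finset Edg) : Prop := Far v r F ∧ Far x r F ∧ Reach (↑F) v x

theorem circ_join {R : ℕ} (hR : 1 ≤ R) {F : Finset Edg} {v x : Vtx} (hv : v ∈ Bq 0 0 R)
    (hx : x ∈ Bq 0 0 R) (h1 : Far v (5 * R) F) (h2 : Far x (5 * R) F)
    (hC : Circ ((2 * R : ℕ) : ℤ) ((4 * R : ℕ) : ℤ) F) : Reach (↑F : Set Edg) v x := by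
  obtain ⟨z, hz⟩ := circ_meet (R1 := ((2 * R : ℕ) : ℤ)) (R2 := ((4 * R : ℕ) : ℤ)) (by positivity)
    (by push_cast; omega) hC
  have key : ∀ w : Vtx, w ∈ Bq 0 0 R → Far w (5 * R) F → Reach (↑F : Set Edg) w z := by
    rintro w hw ⟨y, hy1, hy2⟩
    rw [mem_Bq] at hw
    unfold nv at hy1
    simp only [Prod.fst_sub, Prod.snd_sub] at hy1
    obtain ⟨y', k1, k2, k3⟩ := first_exit (a := -((4 * R : ℕ) : ℤ)) (b := ((4 * R : ℕ) : ℤ))
      (c := -((4 * R : ℕ) : ℤ)) (d := ((4 * R : ℕ) : ℤ)) (by unfold inR; push_cast; omega)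
      hy2 (by push_cast; omega)
    exact (hz w y' (by unfold inR; push_cast; omega) k2 k3).mono Set.inter_subset_left
  exact (key v hv h1).trans (key x hx h2).symm

theorem pr_Cn {p : ℝ} (hp : 1/2 ≤ p) (hp1 : p ≤ 1) {R : ℕ} (hR : 1 ≤ R) {v x : Vtx}
    (hv : v ∈ Bq 0 0 R) (hx : x ∈ Bq 0 0 R) {S : Finset Edg} (hS : boxE (6 * R) ⊆ S) :
    (1/2 : ℝ)^188 * (arm p (5 * R))^2 ≤ Pr (fun _ => p) S (Cn (5 * R) v x) := by
  have h0 : 0 ≤ p := by linarith
  have ok := okq h0 hp1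
  have hbo : ∀ w : Vtx, w ∈ Bq 0 0 R → bo w (5 * R) ⊆ S := by
    intro w hw
    refine Finset.Subset.trans ?_ hS
    rw [mem_Bq] at hw
    unfold bo boxE
    push_cast
    exact RE_sub_RE (by omega) (by omega) (by omega) (by omega)
  have e1 := pr_far_eq p v (5 * R) (hbo v hv)
  have e2 := pr_far_eq p x (5 * R) (hbo x hx)
  have e3 : (1/2 : ℝ)^188 ≤ Pr (fun _ => p) S (Circ ((2 * R : ℕ) : ℤ) ((4 * R : ℕ) : ℤ)) := by
    have h1 := pr_Circ h0 hp1 (R1 := ((2 * R : ℕ) : ℤ)) (R2 := ((4 * R : ℕ) : ℤ)) (by positivity)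
      (by push_cast; omega) (S := S) (Finset.Subset.trans (boxE_mono (show 4 * R ≤ 6 * R by omega)) hS)
    have h2 := rsw_p hp hp1 (n := (R:ℤ)) (w := 2 * ((4 * R : ℕ) : ℤ))
      (h := ((4 * R : ℕ) : ℤ) - ((2 * R : ℕ) : ℤ)) (by exact_mod_cast hR) (by push_cast; omega)
      (by push_cast; omega) (by push_cast; omega)
    calc (1/2 : ℝ)^188 = ((1/2 : ℝ)^47)^4 := by norm_num
      _ ≤ _ := pow_le_pow_left₀ (by positivity) h2 4
      _ ≤ _ := h1
  have i1 := Pr_harris ok (S := S) (A := Far v (5 * R)) (B := Far x (5 * R))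
    (fun F G h _ hF => far_mono_F h hF) (fun F G h _ hF => far_mono_F h hF)
  have i2 := Pr_harris ok (S := S) (A := fun F => Far v (5 * R) F ∧ Far x (5 * R) F)
    (B := Circ ((2 * R : ℕ) : ℤ) ((4 * R : ℕ) : ℤ))
    (fun F G h _ hF => ⟨far_mono_F h hF.1, far_mono_F h hF.2⟩) (fun F G h _ hF => hF.mono h)
  have i3 : Pr (fun _ => p) S (fun F => (Far v (5 * R) F ∧ Far x (5 * R) F) ∧
      Circ ((2 * R : ℕ) : ℤ) ((4 * R : ℕ) : ℤ) F) ≤ Pr (fun _ => p) S (Cn (5 * R) v x) :=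
    Pr_mono ok fun F _ h => ⟨h.1.1, h.1.2, circ_join hR hv hx h.1.1 h.1.2 h.2⟩
  rw [e1, e2] at i1
  have ha := arm_nonneg h0 hp1 (5 * R)
  calc (1/2 : ℝ)^188 * (arm p (5 * R))^2 = (arm p (5 * R) * arm p (5 * R)) * (1/2 : ℝ)^188 := by ring
    _ ≤ _ := mul_le_mul i1 e3 (by positivity) (Pr_nonneg ok _ _)
    _ ≤ _ := i2
    _ ≤ _ := i3

/-- `v` is connected to at least `t` vertices -/
def Vl (t : ℝ) (v : Vtx) (F : Finset Edg) : Prop :=
  ∃ T : Finset Vtx, t ≤ (T.card : ℝ) ∧ ∀ u ∈ T, Reach (↑F) v u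

theorem Vl_mono {t : ℝ} {v : Vtx} {F G : Finset Edg} (h : F ⊆ G) (hF : Vl t v F) : Vl t v G := by
  obtain ⟨T, h1, h2⟩ := hF
  exact ⟨T, h1, fun u hu => (h2 u hu).mono (by exact_mod_cast h)⟩

theorem Vl_trl {t : ℝ} {F : Finset Edg} {a b : ℤ} :
    Vl t (a, b) ((trl a b).mp F) ↔ Vl t (0, 0) F := by
  constructor
  · rintro ⟨T, h1, h2⟩
    refine ⟨T.map (trl a b).ψ.symm.toEmbedding, by rwa [card_map], fun u hu => ?_⟩
    rw [mem_map] at hu
    obtain ⟨w, hw, rfl⟩ := hu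
    have h3 := h2 w hw
    rw [← reach_trl (a := a) (b := b)]
    have e : (trl a b).ψ.symm.toEmbedding w = (w.1 - a, w.2 - b) := rfl
    rw [e]
    simpa using h3
  · rintro ⟨T, h1, h2⟩
    refine ⟨T.map (trl a b).ψ.toEmbedding, by rwa [card_map], fun u hu => ?_⟩
    rw [mem_map] at hu
    obtain ⟨w, hw, rfl⟩ := hu
    have h3 := h2 w hw
    rw [← reach_trl (a := a) (b := b)] at h3
    have e : (trl a b).ψ.toEmbedding w = (w.1 + a, w.2 + b) := rfl
    rw [e]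
    simpa using h3

theorem pr_Vl_le {p : ℝ} (h0 : 0 ≤ p) (h1 : p ≤ 1) {t : ℝ} {v : Vtx} {r : ℕ} {S : Finset Edg}
    (hS : S ⊆ bo v r) : Pr (fun _ => p) S (Vl t v) ≤ Pr (fun _ => p) (boxE r) (Vl t (0, 0)) := by
  have e1 : Pr (fun _ => p) S (Vl t v) ≤ Pr (fun _ => p) (bo v r) (Vl t v) :=
    Pr_mono_set (okq h0 h1) hS (fun F G h _ hF => Vl_mono h hF)
  have e2 : Pr (fun _ => p) (bo v r) (Vl t v) =
      Pr (fun _ => p) ((trl v.1 v.2).mp (boxE r)) (Vl t v) :=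
    congrArg (fun B => Pr (fun _ => p) B (Vl t v)) (bo_trl v r)
  have e3 := (trl v.1 v.2).pr p (boxE r) (Vl t v)
  exact e1.trans (e2.trans (e3.trans (Pr_congr fun F _ => Vl_trl))).le

/-- number of vertices of the box connected to `v` -/
noncomputable def Xv (R : ℕ) (v : Vtx) (F : Finset Edg) : ℝ := ∑ x ∈ Bq 0 0 R, ind (Cn (5 * R) v x F)

theorem Xv_nonneg (R : ℕ) (v : Vtx) (F : Finset Edg) : 0 ≤ Xv R v F :=
  sum_nonneg fun _ _ => ind_nonneg _

theorem Vl_of_Xv {R : ℕ} {v : Vtx} {F : Finset Edg} {t : ℝ} (h : t ≤ Xv R v F) : Vl t v F := by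
  classical
  refine ⟨(Bq 0 0 R).filter (fun x => Cn (5 * R) v x F), ?_, fun u hu => ?_⟩
  · refine h.trans (le_of_eq ?_)
    rw [card_filter]
    push_cast
    unfold Xv
    refine sum_congr rfl fun x _ => ?_
    by_cases hc : Cn (5 * R) v x F
    · rw [ind_of hc, if_pos hc]
    · rw [ind_not_of hc, if_neg hc]
  · rw [mem_filter] at hu
    exact hu.2.2.2

theorem sum_ind_le_MM {I i m : ℕ} (hmi : m ≤ i) (hmI : m ≤ I) (F : Finset Edg)
    (A : Vtx → Prop) (hA : ∀ v, A v → Far v (5 * 2^i) F) :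
    ∑ v ∈ Bq 0 0 (2^i), ind (A v) ≤ MM I i m F := by
  classical
  have e1 : ∑ v ∈ Bq 0 0 (2^i), ind (A v) = (((Bq 0 0 (2^i)).filter A).card : ℝ) := by
    rw [card_filter]
    push_cast
    refine sum_congr rfl fun v _ => ?_
    by_cases h : A v
    · rw [ind_of h, if_pos h]
    · rw [ind_not_of h, if_neg h]
  rw [e1]
  refine card_le_MM hmi hmI _ fun u hu => ?_
  rw [mem_filter] at hu
  refine ⟨?_, far_mono_r ?_ (hA u hu.2)⟩
  · have h1 := hu.1
    rw [mem_Bq] at h1 ⊢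
    push_cast at h1 ⊢
    generalize (2:ℤ)^i = Q at *
    obtain ⟨⟨a1, a2⟩, a3, a4⟩ := h1
    refine ⟨⟨?_, ?_⟩, ?_, ?_⟩ <;> linarith
  · have h1 : 2^m ≤ 2^i := Nat.pow_le_pow_right (by norm_num) hmi
    have h2 : 2^m / 5 ≤ 2^m := Nat.div_le_self _ _
    omega

theorem Xv_le {I i m : ℕ} (hmi : m ≤ i) (hmI : m ≤ I) (v : Vtx) (F : Finset Edg) :
    Xv (2^i) v F ≤ ind (Far v (5 * 2^i) F) * MM I i m F := by
  by_cases h : Far v (5 * 2^i) F
  · rw [ind_of h, one_mul]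
    exact sum_ind_le_MM hmi hmI F (fun x => Cn (5 * 2^i) v x F) fun x hx => hx.2.1
  · rw [ind_not_of h, zero_mul]
    refine le_of_eq (sum_eq_zero fun x _ => ind_not_of fun hC => h hC.1)

end TH992.F
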