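import Pool.Agent.TH992.F.L1

/-!
Lower bounds: the cluster of the origin is as large as possible with probability of the order of
the one-arm probability.
-/

set_option autoImplicit false

namespace TH992.F

open H974 Finset TH992.T
open Pool.Agent.H160R2.CV (Far nv)
open Pool.Agent.H160R2.CV.Quad (bo LA LA_of_far far_of_LA LA_of_reach)

theorem arm_five {p c0 : ℝ} (hc0 : 0 < c0) {I : ℕ}
    (hl1 : ∀ n : ℕ, 1 ≤ n → n ≤ 2^I → c0 * (n:ℝ)^(-(5/48) : ℝ) ≤ arm p n)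
    (hl2 : ∀ n : ℕ, c0 * ((2:ℝ)^I)^(-(5/48) : ℝ) ≤ arm p n) (i : ℕ) :
    c0 / 5 * ((2:ℝ)^(min i I))^(-(5/48) : ℝ) ≤ arm p (5 * 2^i) := by
  have h5 : (1/5 : ℝ) ≤ (5:ℝ)^(-(5/48) : ℝ) := by
    calc (1/5 : ℝ) = (5:ℝ)^(-1 : ℝ) := by rw [Real.rpow_neg_one]; norm_num
      _ ≤ _ := Real.rpow_le_rpow_of_exponent_le (by norm_num) (by norm_num)
  rcases le_or_gt I i with h | h
  · rw [min_eq_right h]
    refine le_trans (mul_le_mul_of_nonneg_right ?_ (by positivity)) (hl2 _)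
    linarith
  · rw [min_eq_left h.le]
    have h6 : c0 / 5 * ((2:ℝ)^i)^(-(5/48) : ℝ) ≤ c0 * (5 * (2:ℝ)^i)^(-(5/48) : ℝ) := by
      rw [Real.mul_rpow (by norm_num) (by positivity)]
      have h7 : 0 < ((2:ℝ)^i)^(-(5/48) : ℝ) := by positivity
      have h8 := mul_le_mul_of_nonneg_right h5 h7.le
      have h9 := mul_le_mul_of_nonneg_left h8 hc0.le
      linarith
    rcases Nat.le_total (5 * 2^i) (2^I) with h7 | h7
    · refine h6.trans (le_trans (le_of_eq ?_) (hl1 (5 * 2^i) ?_ h7))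
      · push_cast; rfl
      · have : 1 ≤ 2^i := Nat.one_le_two_pow
        omega
    · refine h6.trans (le_trans (mul_le_mul_of_nonneg_left ?_ hc0.le) (hl2 _))
      refine Real.rpow_le_rpow_of_nonpos (by positivity) ?_ (by norm_num)
      exact_mod_cast h7

theorem W_eq {i m : ℕ} (hmi : m ≤ i) : ((2:ℝ)^(i - m))^2 * ((2:ℝ)^m)^(2 - 5/48 : ℝ) =
    ((2:ℝ)^i)^2 * ((2:ℝ)^m)^(-(5/48) : ℝ) := by
  have e6 : ((2:ℝ)^m)^(2 - 5/48 : ℝ) = ((2:ℝ)^m)^2 * ((2:ℝ)^m)^(-(5/48) : ℝ) := by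
    rw [← Real.rpow_natCast ((2:ℝ)^m) 2, ← Real.rpow_add (by positivity)]
    congr 1
  have e7 : (2:ℝ)^(i - m) * 2^m = 2^i := by
    rw [← pow_add, Nat.sub_add_cancel hmi]
  rw [e6, ← e7]; ring

theorem big_vol {C0 c0 : ℝ} (hC0 : 0 < C0) (hc0 : 0 < c0) : ∃ c3 c4 : ℝ, 0 < c3 ∧ 0 < c4 ∧
    ∀ (p : ℝ) (I : ℕ), 1/2 < p → Sc C0 p I →
    (∀ n : ℕ, 1 ≤ n → n ≤ 2^I → c0 * (n:ℝ)^(-(5/48) : ℝ) ≤ arm p n) →
    (∀ n : ℕ, c0 * ((2:ℝ)^I)^(-(5/48) : ℝ) ≤ arm p n) → ∀ i m : ℕ, m = min i I →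
      c4 * ((2:ℝ)^m)^(-(5/48) : ℝ) ≤ Pr (fun _ => p) (boxE (7 * 2^i))
        (Vl (c3 * (((2:ℝ)^i)^2 * ((2:ℝ)^m)^(-(5/48) : ℝ))) (0, 0)) := by
  obtain ⟨K, hK, hmom⟩ := MM_mom hC0
  obtain ⟨κ, hκ⟩ : ∃ κ : ℝ, κ = (1/2 : ℝ)^188 * (c0 / 5)^2 := ⟨_, rfl⟩
  have hκ0 : 0 < κ := by rw [hκ]; positivity
  have hsK : 0 < Real.sqrt K := Real.sqrt_pos.mpr hK
  refine ⟨κ / (4 * Real.sqrt K), κ^2 / (16 * K), by positivity, by positivity,
    fun p I hp h hl1 hl2 i m hm => ?_⟩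
  have ok := okq h.h0 h.h1
  have hmi : m ≤ i := by rw [hm]; exact min_le_left _ _
  have hmI : m ≤ I := by rw [hm]; exact min_le_right _ _
  obtain ⟨R, hR⟩ : ∃ R : ℕ, R = 2^i := ⟨_, rfl⟩
  have hR1 : 1 ≤ R := by rw [hR]; exact Nat.one_le_two_pow
  have hRr : (R:ℝ) = 2^i := by rw [hR]; push_cast; rfl
  have hR0 : (0:ℝ) < R := by exact_mod_cast hR1
  obtain ⟨A, hA⟩ : ∃ A : ℝ, A = ((2:ℝ)^m)^(-(5/48) : ℝ) := ⟨_, rfl⟩
  have hA0 : 0 < A := by rw [hA]; positivity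
  obtain ⟨W, hW⟩ : ∃ W : ℝ, W = (R:ℝ)^2 * A := ⟨_, rfl⟩
  have hW0 : 0 < W := by rw [hW]; positivity
  obtain ⟨U, hU⟩ : ∃ U : Finset Edg, U = boxE (6 * R) := ⟨_, rfl⟩
  have hWe : ((2:ℝ)^(i - m))^2 * ((2:ℝ)^m)^(2 - 5/48 : ℝ) = W := by
    rw [W_eq hmi, hW, hRr, hA]
  obtain ⟨q2, q3⟩ := hmom p I h U i m
  rw [hWe] at q2 q3
  obtain ⟨t, ht⟩ : ∃ t : ℝ, t = κ / (4 * Real.sqrt K) * W := ⟨_, rfl⟩
  have ht0 : 0 < t := by rw [ht]; positivity
  have et : κ / (4 * Real.sqrt K) * (((2:ℝ)^i)^2 * ((2:ℝ)^m)^(-(5/48) : ℝ)) = t := by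
    rw [ht, hW, hRr, hA]
  rw [et, ← hA, ← hR]
  -- arms
  have harm := arm_five hc0 hl1 hl2 i
  rw [← hm, ← hA, ← hR] at harm
  -- first moment
  have hfst : κ * W^2 ≤ Ex (fun _ => p) U (fun F => ∑ v ∈ Bq 0 0 R, Xv R v F) := by
    rw [Ex_sum]
    have h1 : ∀ v ∈ Bq 0 0 R, (R:ℝ) * R * (κ * A^2) ≤ Ex (fun _ => p) U (Xv R v) := by
      intro v hv
      have e1 : Ex (fun _ => p) U (Xv R v) =
          ∑ x ∈ Bq 0 0 R, Pr (fun _ => p) U (Cn (5 * R) v x) := by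
        have e2 : Xv R v = fun F => ∑ x ∈ Bq 0 0 R, ind (Cn (5 * R) v x F) := rfl
        rw [e2, Ex_sum]
        rfl
      rw [e1]
      have h2 : ∀ x ∈ Bq 0 0 R, κ * A^2 ≤ Pr (fun _ => p) U (Cn (5 * R) v x) := by
        intro x hx
        refine le_trans ?_ (pr_Cn hp.le h.h1 hR1 hv hx (S := U) (by rw [hU]))
        have h3 : (c0 / 5 * A)^2 ≤ (arm p (5 * R))^2 := pow_le_pow_left₀ (by positivity) harm 2
        calc κ * A^2 = (1/2 : ℝ)^188 * (c0 / 5 * A)^2 := by rw [hκ]; ring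
          _ ≤ _ := mul_le_mul_of_nonneg_left h3 (by positivity)
      refine le_trans (le_of_eq ?_) (sum_le_sum h2)
      rw [sum_const, card_Bq, nsmul_eq_mul]
      push_cast
      ring
    refine le_trans (le_of_eq ?_) (sum_le_sum h1)
    rw [sum_const, card_Bq, nsmul_eq_mul, hW]
    push_cast
    ring
  -- the pointwise bound
  obtain ⟨G, hG⟩ : ∃ G : Finset Edg → ℝ, G = fun F => ∑ v ∈ Bq 0 0 R, ind (t ≤ Xv R v F) := ⟨_, rfl⟩
  obtain ⟨M, hM⟩ : ∃ M : Finset Edg → ℝ, M = fun F => MM I i m F := ⟨_, rfl⟩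
  have hM0 : ∀ F, 0 ≤ M F := fun F => by rw [hM]; exact MM_nonneg hC0 h i m F
  have hG0 : ∀ F, 0 ≤ G F := fun F => by rw [hG]; exact sum_nonneg fun _ _ => ind_nonneg _
  have hXle : ∀ v F, Xv R v F ≤ ind (Far v (5 * 2^i) F) * M F := fun v F => by
    rw [hM, hR]; exact Xv_le hmi hmI v F
  have hGM : ∀ F, G F ≤ M F := by
    intro F
    rw [hG, hM]
    simp only
    rw [hR]
    refine sum_ind_le_MM hmi hmI F (fun v => t ≤ Xv (2^i) v F) fun v hv => ?_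
    by_contra hcon
    have h1 := hXle v F
    rw [ind_not_of hcon, zero_mul, hR] at h1
    linarith
  have hpt : ∀ F, ∑ v ∈ Bq 0 0 R, Xv R v F ≤ t * M F + M F * G F := by
    intro F
    have h1 : ∀ v ∈ Bq 0 0 R, Xv R v F ≤
        t * ind (Far v (5 * 2^i) F) + M F * ind (t ≤ Xv R v F) := by
      intro v _
      have h2 := hXle v F
      by_cases h3 : t ≤ Xv R v F
      · rw [ind_of h3, mul_one]
        have h4 : ind (Far v (5 * 2^i) F) * M F ≤ 1 * M F :=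
          mul_le_mul_of_nonneg_right (ind_le_one _) (hM0 F)
        have h5 : 0 ≤ t * ind (Far v (5 * 2^i) F) := mul_nonneg ht0.le (ind_nonneg _)
        linarith
      · rw [ind_not_of h3, mul_zero, add_zero]
        push Not at h3
        by_cases h4 : Far v (5 * 2^i) F
        · rw [ind_of h4, mul_one]; exact h3.le
        · rw [ind_not_of h4, zero_mul] at h2
          rw [ind_not_of h4, mul_zero]; exact h2
    refine (sum_le_sum h1).trans ?_
    rw [sum_add_distrib, ← mul_sum, ← mul_sum]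
    have h2 : ∑ v ∈ Bq 0 0 R, ind (Far v (5 * 2^i) F) ≤ M F := by
      rw [hM, hR]
      exact sum_ind_le_MM hmi hmI F (fun v => Far v (5 * 2^i) F) fun v hv => hv
    have h3 := mul_le_mul_of_nonneg_left h2 ht0.le
    have e : M F * ∑ v ∈ Bq 0 0 R, ind (t ≤ Xv R v F) = M F * G F := by rw [hG]
    linarith
  -- moments
  have hEM : Ex (fun _ => p) U M ≤ Real.sqrt K * W := by
    have c1 := Ex_cs ok U M (fun _ => (1:ℝ))
    have e1 : Ex (fun _ => p) U (fun F => M F * 1) = Ex (fun _ => p) U M :=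
      Ex_congr fun F _ => mul_one _
    have e2 : Ex (fun _ => p) U (fun _ => (1:ℝ)^2) = 1 := by rw [Ex_const]; norm_num
    rw [e1, e2, mul_one] at c1
    have c2 : (Ex (fun _ => p) U M)^2 ≤ (Real.sqrt K * W)^2 := by
      refine c1.trans ?_
      rw [mul_pow, Real.sq_sqrt hK.le, hM]
      exact q2
    exact (abs_le_of_sq_le_sq' c2 (by positivity)).2
  have hEMG : (Ex (fun _ => p) U (fun F => M F * G F))^2 ≤ (K * W^3) * Ex (fun _ => p) U G := by
    have c1 := Ex_cs ok U (fun F => M F * Real.sqrt (G F)) (fun F => Real.sqrt (G F))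
    have e1 : Ex (fun _ => p) U (fun F => M F * Real.sqrt (G F) * Real.sqrt (G F)) =
        Ex (fun _ => p) U (fun F => M F * G F) := Ex_congr fun F _ => by
      rw [mul_assoc, Real.mul_self_sqrt (hG0 F)]
    have e2 : Ex (fun _ => p) U (fun F => (Real.sqrt (G F))^2) = Ex (fun _ => p) U G :=
      Ex_congr fun F _ => Real.sq_sqrt (hG0 F)
    rw [e1, e2] at c1
    refine c1.trans (mul_le_mul_of_nonneg_right ?_ (Ex_nonneg ok fun F _ => hG0 F))
    refine le_trans (Ex_mono ok fun F _ => ?_) q3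
    rw [mul_pow, Real.sq_sqrt (hG0 F)]
    have h1 := hGM F
    have h2 := hM0 F
    have e3 : MM I i m F = M F := by rw [hM]
    rw [e3]
    calc M F ^ 2 * G F ≤ M F ^ 2 * M F := mul_le_mul_of_nonneg_left h1 (by positivity)
      _ = M F ^ 3 := by ring
  have hsum : κ * W^2 ≤ t * Ex (fun _ => p) U M + Ex (fun _ => p) U (fun F => M F * G F) := by
    refine hfst.trans ?_
    rw [← Ex_mul_left, ← Ex_add]
    exact Ex_mono ok fun F _ => hpt F
  have hEG : κ^2 / (16 * K) * W ≤ Ex (fun _ => p) U G := by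
    by_contra hcon
    push Not at hcon
    have h1 : t * Ex (fun _ => p) U M ≤ κ / 4 * W^2 := by
      calc t * Ex (fun _ => p) U M ≤ t * (Real.sqrt K * W) := mul_le_mul_of_nonneg_left hEM ht0.le
        _ = _ := by rw [ht]; field_simp
    have h2 : (Ex (fun _ => p) U (fun F => M F * G F))^2 ≤ (κ / 4 * W^2)^2 := by
      refine hEMG.trans ?_
      calc (K * W^3) * Ex (fun _ => p) U G ≤ (K * W^3) * (κ^2 / (16 * K) * W) :=
            mul_le_mul_of_nonneg_left hcon.le (by positivity)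
        _ = _ := by field_simp; ring
    have h3 := (abs_le_of_sq_le_sq' h2 (by positivity)).2
    have h4 : 0 < κ * W^2 := by positivity
    linarith
  -- conclusion
  have hGle : Ex (fun _ => p) U G ≤ (R:ℝ) * R * Pr (fun _ => p) (boxE (7 * R)) (Vl t (0, 0)) := by
    rw [hG, Ex_sum]
    have h1 : ∀ v ∈ Bq 0 0 R, Ex (fun _ => p) U (fun F => ind (t ≤ Xv R v F)) ≤
        Pr (fun _ => p) (boxE (7 * R)) (Vl t (0, 0)) := by
      intro v hv
      refine le_trans (Pr_mono ok (A := fun F => t ≤ Xv R v F) (B := Vl t v)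
        fun F _ hF => Vl_of_Xv hF) ?_
      refine pr_Vl_le h.h0 h.h1 (S := U) ?_
      rw [hU]
      rw [mem_Bq] at hv
      unfold bo boxE
      push_cast
      exact RE_sub_RE (by omega) (by omega) (by omega) (by omega)
    refine (sum_le_sum h1).trans (le_of_eq ?_)
    rw [sum_const, card_Bq, nsmul_eq_mul]
    push_cast
    ring
  have h1 := hEG.trans hGle
  have h2 : ((R:ℝ) * R) * (κ^2 / (16 * K) * A) ≤
      ((R:ℝ) * R) * Pr (fun _ => p) (boxE (7 * R)) (Vl t (0, 0)) := by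
    refine le_trans (le_of_eq ?_) h1
    rw [hW]; ring
  exact le_of_mul_le_mul_left h2 (by positivity)

end TH992.F
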