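import Pool.Agent.TH992.F.E1

/-!
Sums over dyadic scales, for the moments.
-/

set_option autoImplicit false

namespace TH992.F

open Finset

theorem exp_sqrt_le {c y : ℝ} (hc : 0 < c) (hy : 0 < y) (k : ℕ) :
    Real.exp (-(c * Real.sqrt y)) ≤ ((2 * k).factorial / c^(2 * k)) / y^k := by
  have h1 := Real.pow_div_factorial_le_exp (x := c * Real.sqrt y) (by positivity) (2 * k)
  have hsy : 0 < Real.sqrt y := Real.sqrt_pos.mpr hy
  have e1 : (c * Real.sqrt y)^(2 * k) = c^(2 * k) * y^k := by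
    rw [mul_pow, pow_mul (Real.sqrt y), Real.sq_sqrt hy.le]
  rw [e1] at h1
  have hf : (0:ℝ) < (2 * k).factorial := by exact_mod_cast Nat.factorial_pos _
  rw [Real.exp_neg, div_div]
  have h2 : 0 < c^(2 * k) * y^k / (2 * k).factorial := by positivity
  refine (inv_anti₀ h2 h1).trans (le_of_eq ?_)
  rw [inv_div]

/-- the sum over the scales, for the moment of order `k` -/
theorem sum_mom {c : ℝ} (hc : 0 < c) {k : ℕ} (hk : 1 ≤ k) : ∃ C : ℝ, 0 < C ∧ ∀ z : ℝ, 1 ≤ z →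
    ∀ J : ℕ, ∑ j ∈ range J, ((2:ℝ)^(j + 1))^k * (((2:ℝ)^j)^(-(5/91) : ℝ) *
      Real.exp (-(c * Real.sqrt ((2:ℝ)^j / z)))) ≤ C * z^((k:ℝ) - 5/91) := by
  obtain ⟨M, hM⟩ : ∃ M : ℝ, M = ((2 * k).factorial : ℝ) / c^(2 * k) := ⟨_, rfl⟩
  have hM0 : 0 < M := by
    rw [hM]
    have hf : (0:ℝ) < (2 * k).factorial := by exact_mod_cast Nat.factorial_pos _
    positivity
  obtain ⟨β, hβ⟩ : ∃ β : ℝ, β = (k:ℝ) - 5/91 := ⟨_, rfl⟩
  have hk1 : (1:ℝ) ≤ k := by exact_mod_cast hk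
  have hβ0 : 0 < β := by rw [hβ]; linarith
  have h2β : 1 < (2:ℝ)^β := Real.one_lt_rpow (by norm_num) hβ0
  have h2a : (2:ℝ)^(-(5/91) : ℝ) < 1 := Real.rpow_lt_one_of_one_lt_of_neg (by norm_num) (by norm_num)
  have hd1 : 0 < (2:ℝ)^β - 1 := by linarith
  have hd2 : 0 < 1 - (2:ℝ)^(-(5/91) : ℝ) := by linarith
  refine ⟨2^k * (2^β / (2^β - 1) + M / (1 - 2^(-(5/91) : ℝ))), by positivity, fun z hz J => ?_⟩
  rw [← hβ]
  have hz0 : 0 < z := by linarith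
  obtain ⟨J0, hJ1, hJ2⟩ : ∃ J0 : ℕ, z ≤ (2:ℝ)^J0 ∧ (2:ℝ)^J0 ≤ 2 * z := by
    classical
    have hex : ∃ n : ℕ, z ≤ (2:ℝ)^n := by
      obtain ⟨n, hn⟩ := pow_unbounded_of_one_lt z (by norm_num : (1:ℝ) < 2)
      exact ⟨n, hn.le⟩
    refine ⟨Nat.find hex, Nat.find_spec hex, ?_⟩
    rcases Nat.eq_zero_or_pos (Nat.find hex) with h0 | h0
    · rw [h0]; linarith
    · have h1 := Nat.find_min hex (show Nat.find hex - 1 < Nat.find hex by omega)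
      push Not at h1
      have h2 : (2:ℝ)^(Nat.find hex) = 2 * 2^(Nat.find hex - 1) := by
        rw [← pow_succ', Nat.sub_add_cancel h0]
      linarith
  obtain ⟨f, hf⟩ : ∃ f : ℕ → ℝ, f = fun j => ((2:ℝ)^(j + 1))^k * (((2:ℝ)^j)^(-(5/91) : ℝ) *
      Real.exp (-(c * Real.sqrt ((2:ℝ)^j / z)))) := ⟨_, rfl⟩
  have hf0 : ∀ j, 0 ≤ f j := fun j => by rw [hf]; positivity
  have hpow : ∀ j : ℕ, ((2:ℝ)^(j + 1))^k * ((2:ℝ)^j)^(-(5/91) : ℝ) = 2^k * ((2:ℝ)^j)^β := by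
    intro j
    have e1 : ((2:ℝ)^(j + 1))^k = 2^k * ((2:ℝ)^j)^k := by rw [pow_succ, mul_pow, mul_comm]
    have e2 : ((2:ℝ)^j)^k = ((2:ℝ)^j)^(k:ℝ) := (Real.rpow_natCast _ _).symm
    rw [e1, e2, mul_assoc, ← Real.rpow_add (by positivity), hβ]
    congr 1
  have hup : ∀ j, f j ≤ 2^k * ((2:ℝ)^j)^β := by
    intro j
    rw [hf, ← hpow]
    simp only
    rw [← mul_assoc]
    refine mul_le_of_le_one_right (by positivity) ?_
    rw [Real.exp_le_one_iff]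
    have : 0 ≤ c * Real.sqrt ((2:ℝ)^j / z) := by positivity
    linarith
  have hdn : ∀ j, f j ≤ 2^k * (M * z^k) * ((2:ℝ)^j)^(-(5/91) : ℝ) := by
    intro j
    rw [hf]
    simp only
    have h1 := exp_sqrt_le hc (show 0 < (2:ℝ)^j / z by positivity) k
    rw [← hM, div_pow] at h1
    have e1 : ((2:ℝ)^(j + 1))^k = 2^k * ((2:ℝ)^j)^k := by rw [pow_succ, mul_pow, mul_comm]
    rw [e1]
    have h2 : ((2:ℝ)^j)^k * Real.exp (-(c * Real.sqrt ((2:ℝ)^j / z))) ≤ M * z^k := by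
      have h3 := mul_le_mul_of_nonneg_left h1 (show 0 ≤ ((2:ℝ)^j)^k by positivity)
      refine h3.trans (le_of_eq ?_)
      field_simp
    have h3 : 0 ≤ 2^k * ((2:ℝ)^j)^(-(5/91) : ℝ) := by positivity
    have h4 := mul_le_mul_of_nonneg_left h2 h3
    linarith
  have hsum : ∑ j ∈ range J, f j ≤ ∑ j ∈ range J0, f j + ∑ i ∈ range J, f (J0 + i) := by
    rw [← sum_range_add]
    exact sum_le_sum_of_subset_of_nonneg
      (fun j hj => by rw [mem_range] at hj ⊢; omega) fun j _ _ => hf0 j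
  have h1 : ∑ j ∈ range J0, f j ≤ 2^k * ((2^β / (2^β - 1)) * z^β) := by
    refine (sum_le_sum fun j _ => hup j).trans ?_
    rw [← mul_sum]
    refine mul_le_mul_of_nonneg_left ((geo_up hβ0 J0).trans ?_) (by positivity)
    have h2 : ((2:ℝ)^J0)^β ≤ 2^β * z^β := by
      rw [← Real.mul_rpow (by norm_num) hz0.le]
      exact Real.rpow_le_rpow (by positivity) hJ2 hβ0.le
    calc ((2:ℝ)^J0)^β / (2^β - 1) ≤ (2^β * z^β) / (2^β - 1) := div_le_div_of_nonneg_right h2 hd1.le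
      _ = _ := by ring
  have h2 : ∑ i ∈ range J, f (J0 + i) ≤ 2^k * ((M / (1 - 2^(-(5/91) : ℝ))) * z^β) := by
    refine (sum_le_sum fun i _ => hdn (J0 + i)).trans ?_
    rw [← mul_sum]
    have h3 := geo_dn (a := 5/91) (by norm_num) J0 J
    have h4 : ((2:ℝ)^J0)^(-(5/91) : ℝ) ≤ z^(-(5/91) : ℝ) :=
      Real.rpow_le_rpow_of_nonpos hz0 hJ1 (by norm_num)
    have h5 : z^k * z^(-(5/91) : ℝ) = z^β := by
      rw [← Real.rpow_natCast z k, ← Real.rpow_add hz0, hβ]; congr 1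
    have h6 : ∑ i ∈ range J, ((2:ℝ)^(J0 + i))^(-(5/91) : ℝ) ≤
        z^(-(5/91) : ℝ) / (1 - 2^(-(5/91) : ℝ)) :=
      h3.trans (div_le_div_of_nonneg_right h4 hd2.le)
    calc 2^k * (M * z^k) * ∑ i ∈ range J, ((2:ℝ)^(J0 + i))^(-(5/91) : ℝ)
        ≤ 2^k * (M * z^k) * (z^(-(5/91) : ℝ) / (1 - 2^(-(5/91) : ℝ))) :=
          mul_le_mul_of_nonneg_left h6 (by positivity)
      _ = 2^k * ((M / (1 - 2^(-(5/91) : ℝ))) * (z^k * z^(-(5/91) : ℝ))) := by ring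
      _ = _ := by rw [h5]
  have h3 : ∑ j ∈ range J, f j ≤ 2^k * (2^β / (2^β - 1) + M / (1 - 2^(-(5/91) : ℝ))) * z^β := by
    linarith
  have e : ∀ j, f j = ((2:ℝ)^(j + 1))^k * (((2:ℝ)^j)^(-(5/91) : ℝ) *
      Real.exp (-(c * Real.sqrt ((2:ℝ)^j / z)))) := fun j => by rw [hf]
  rw [sum_congr rfl fun j _ => (e j).symm]
  exact h3

end TH992.F
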