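import Pool.Agent.TH992.F.K

/-!
The distance to the infinite cluster.
-/

set_option autoImplicit false

namespace TH992.F

open H974 Finset TH992.T MeasureTheory
open Pool.Agent.H160R2.CV (Far nv)

/-- the cluster of `x` -/
def cl (x : Vtx) (ω : sqLattice.edgeSet → Bool) : Set Vtx := {v | (openGraph ω).Reachable x v}

theorem mem_cl {x v : Vtx} {ω : sqLattice.edgeSet → Bool} : v ∈ cl x ω ↔ Reach (opn ω) x v :=
  open_reach ω _ _

theorem not_blk_of_far {F : Finset Edg} {R1 R2 : ℤ} (h2 : R1 < R2) {u v : Vtx}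
    (hu : inR (-R1) R1 (-R1) R1 u)
    (h : Reach (↑F : Set Edg) u v) (hv : v.1 ≤ -R2 ∨ R2 ≤ v.1 ∨ v.2 ≤ -R2 ∨ R2 ≤ v.2) :
    ¬ Blk R1 R2 F := by
  obtain ⟨w, k1, k2, k3⟩ := first_exit (a := -R2) (b := R2) (c := -R2) (d := R2)
    (by unfold inR at hu ⊢; omega) h hv
  obtain ⟨⟨u1, u2⟩, ⟨u3, u4⟩⟩ := hu
  rintro ⟨hb1, hb2⟩
  rcases k2 with k2 | k2 | k2 | k2
  · apply hb1
    right
    obtain ⟨y1, y2, m1, m2, m3, -⟩ := sub_LR (a := -R2) (b := -R1) (c := -R2) (d := R2) (by omega)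
      (by rintro x y ⟨-, h⟩ _ _; simp only [mem_coe, mem_RE_true] at h; omega)
      (by rintro x y ⟨-, h⟩ _ _; simp only [mem_coe, mem_RE_false] at h; omega)
      k3.symm k2.le u1
    exact ⟨y1, y2, m1, m2, m3.mono (by rintro e ⟨⟨h4, -⟩, h5⟩; exact ⟨h4, h5⟩)⟩
  · apply hb1
    left
    obtain ⟨y1, y2, m1, m2, m3, -⟩ := sub_LR (a := R1) (b := R2) (c := -R2) (d := R2) (by omega)
      (by rintro x y ⟨-, h⟩ _ _; simp only [mem_coe, mem_RE_true] at h; omega)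
      (by rintro x y ⟨-, h⟩ _ _; simp only [mem_coe, mem_RE_false] at h; omega)
      k3 u2 k2.ge
    exact ⟨y1, y2, m1, m2, m3.mono (by rintro e ⟨⟨h4, -⟩, h5⟩; exact ⟨h4, h5⟩)⟩
  · apply hb2
    right
    obtain ⟨y1, y2, m1, m2, m3, -⟩ := sub_TB (a := -R2) (b := R2) (c := -R2) (d := -R1) (by omega)
      (by rintro x y ⟨-, h⟩ _ _; simp only [mem_coe, mem_RE_false] at h; omega)
      (by rintro x y ⟨-, h⟩ _ _; simp only [mem_coe, mem_RE_true] at h; omega)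
      k3.symm k2.le u3
    exact ⟨y1, y2, m1, m2, m3.mono (by rintro e ⟨⟨h4, -⟩, h5⟩; exact ⟨h4, h5⟩)⟩
  · apply hb2
    left
    obtain ⟨y1, y2, m1, m2, m3, -⟩ := sub_TB (a := -R2) (b := R2) (c := R1) (d := R2) (by omega)
      (by rintro x y ⟨-, h⟩ _ _; simp only [mem_coe, mem_RE_false] at h; omega)
      (by rintro x y ⟨-, h⟩ _ _; simp only [mem_coe, mem_RE_true] at h; omega)
      k3 u4 k2.ge
    exact ⟨y1, y2, m1, m2, m3.mono (by rintro e ⟨⟨h4, -⟩, h5⟩; exact ⟨h4, h5⟩)⟩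

/-- no infinite cluster near the origin: lower bound -/
theorem hole_lower : ∃ c C : ℝ, 0 < c ∧ 0 < C ∧ ∀ p : unitInterval, (1/2 : ℝ) < p →
    (p:ℝ) ≤ 3/4 → ∀ n : ℕ, 1 ≤ n →
      c * Real.exp (-(C * (n * ((p:ℝ) - 1/2)^(4/3 : ℝ)))) ≤
        (bondLaw p).real {ω | ∀ x : Vtx, nv x ≤ n → (cl x ω).Finite} := by
  obtain ⟨cb, Cb, hcb, hCb, hblk⟩ := pr_Blk_ge
  refine ⟨cb, Cb, hcb, hCb, fun p hp hp1 n hn => ?_⟩
  have h2 := hblk p hp.le hp1 n hn (annE n (2 * n)) (Finset.Subset.refl _)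
  refine h2.trans ?_
  rw [← law_event]
  refine measureReal_mono ?_
  intro ω hω x hx
  have hB : Blk (n:ℤ) ((2 * n : ℕ) : ℤ) (FF (annE n (2 * n)) ω) := hω
  by_contra hinf
  have hfin : (Set.Icc (-((2 * n : ℕ) : ℤ)) ((2 * n : ℕ) : ℤ) ×ˢ
      Set.Icc (-((2 * n : ℕ) : ℤ)) ((2 * n : ℕ) : ℤ)).Finite :=
    (Set.finite_Icc _ _).prod (Set.finite_Icc _ _)
  obtain ⟨v, hv, hv'⟩ := Set.Infinite.exists_notMem_finite hinf hfin
  obtain ⟨M, hM⟩ := Pool.Agent.W424.NC.reach_box (mem_cl.mp hv)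
  have s1 : boxE M ⊆ boxE (max M (2 * n)) := boxE_mono (le_max_left _ _)
  have hr : Reach (↑(FF (boxE (max M (2 * n))) ω) : Set Edg) x v := by
    rw [FF_coe]
    exact hM.mono (Set.inter_subset_inter_right _ (by exact_mod_cast s1))
  refine not_blk_of_far (R1 := (n:ℤ)) (R2 := ((2 * n : ℕ) : ℤ)) (by push_cast; omega) ?_ hr ?_ ?_
  · unfold nv at hx
    unfold inR
    omega
  · simp only [Set.mem_prod, Set.mem_Icc] at hv'
    omega
  · rw [Blk_local (n := n) (m := 2 * n) (by omega) (Finset.Subset.refl _),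
      FF_inter (T := annE n (2 * n))]
    · exact hB
    · exact Finset.sdiff_subset.trans (boxE_mono (le_max_right _ _))

theorem chain_far {N : ℕ} (hN : 2 ≤ N) {F : Finset Edg} (J : ℕ)
    (hC : Circ N ((2 * N : ℕ) : ℤ) F) (h : ∀ j ≤ J, Step N j F)
    {u w : Vtx} (hu : nv u ≤ N) (hw : 2 * N ≤ nv w) (hr : Reach (↑F : Set Edg) u w) :
    ∃ v : Vtx, 2 * (2^J * N) ≤ nv v ∧ Reach (↑F : Set Edg) u v := by
  have hN' : (2:ℤ) ≤ N := by exact_mod_cast hN
  have hu' : inR (-(N:ℤ)) N (-(N:ℤ)) N u := by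
    unfold nv at hu; unfold inR; omega
  obtain ⟨z, hz⟩ := circ_meet (R1 := (N:ℤ)) (R2 := ((2 * N : ℕ) : ℤ)) (by omega)
    (by push_cast; omega) hC
  obtain ⟨a, v, hv, hza, hst⟩ := chain_conn hN (F := F) (z := z) hz J h
  obtain ⟨w', k1, k2, k3⟩ := first_exit (a := -((2 * N : ℕ) : ℤ)) (b := ((2 * N : ℕ) : ℤ))
    (c := -((2 * N : ℕ) : ℤ)) (d := ((2 * N : ℕ) : ℤ)) (by unfold inR at hu' ⊢; push_cast; omega)
    hr (by unfold nv at hw; push_cast; omega)
  have h1 := hz u w' hu' k2 k3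
  obtain ⟨M, hM⟩ : ∃ M : ℕ, M = 2^J * N := ⟨_, rfl⟩
  rw [← hM] at hst hza ⊢
  by_cases hev : Even J
  · rw [if_pos hev] at hst
    refine ⟨v, ?_, (h1.mono Set.inter_subset_left).trans ((hza.mono Set.inter_subset_left).trans
      (hst.2.2.mono Set.inter_subset_left))⟩
    have h2 := hst.2.1
    unfold nv
    omega
  · rw [if_neg hev] at hst
    refine ⟨v, ?_, (h1.mono Set.inter_subset_left).trans ((hza.mono Set.inter_subset_left).trans
      (hst.2.2.mono Set.inter_subset_left))⟩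
    have h2 := hst.2.1
    unfold nv
    omega

/-- the failure events -/
def Bad (N : ℕ) (i : ℕ) : Set (sqLattice.edgeSet → Bool) :=
  if i = 0 then {ω | ¬ Circ N ((2 * N : ℕ) : ℤ) (FF (boxE (2 * N)) ω)}
  else {ω | ¬ Step N (i - 1) (FF (boxE (2 * (2^(i - 1) * N))) ω)}

theorem hole_bad {N n : ℕ} (hN : 2 ≤ N) (hn : N ≤ n) {ω : sqLattice.edgeSet → Bool}
    (h : ∀ x : Vtx, nv x ≤ n → (cl x ω).Finite) : ∃ i, ω ∈ Bad N i := by
  by_contra hcon
  push Not at hcon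
  have hC : Circ N ((2 * N : ℕ) : ℤ) (FF (boxE (2 * N)) ω) := by
    have h1 := hcon 0
    unfold Bad at h1
    rw [if_pos rfl, Set.mem_ofPred_eq, not_not] at h1
    exact h1
  have hS : ∀ j, Step N j (FF (boxE (2 * (2^j * N))) ω) := by
    intro j
    have h1 := hcon (j + 1)
    unfold Bad at h1
    rw [if_neg (Nat.succ_ne_zero j), Nat.add_sub_cancel, Set.mem_ofPred_eq, not_not] at h1
    exact h1
  have h0 := hS 0
  unfold Step at h0
  rw [if_pos (by decide), pow_zero, one_mul] at h0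
  obtain ⟨y, y', hy, hy', hr⟩ := h0
  have hN' : (2:ℤ) ≤ N := by exact_mod_cast hN
  have hu : nv ((0, y) : Vtx) ≤ N := by unfold nv; simp only; omega
  have hfin := h (0, y) (hu.trans hn)
  obtain ⟨B, hB⟩ := (hfin.image nv).bddAbove
  have hB' : ∀ v ∈ cl (0, y) ω, nv v ≤ B := fun v hv => hB (Set.mem_image_of_mem _ hv)
  obtain ⟨F, hF⟩ : ∃ F : Finset Edg, F = FF (boxE (2 * (2^B * N))) ω := ⟨_, rfl⟩
  have hmono : ∀ k : ℕ, k ≤ 2 * (2^B * N) → FF (boxE k) ω ⊆ F := by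
    intro k hk e he
    rw [hF]
    rw [mem_FF] at he ⊢
    exact ⟨boxE_mono hk he.1, he.2⟩
  have hle : N ≤ 2^B * N := Nat.le_mul_of_pos_left _ (by positivity)
  obtain ⟨v, hv1, hv2⟩ := chain_far hN (F := F) B (hC.mono (hmono _ (by omega)))
    (fun j hj => (hS j).mono (hmono _ (Nat.mul_le_mul_left _ (Nat.mul_le_mul_right _
      (Nat.pow_le_pow_right (by norm_num) hj)))))
    (u := (0, y)) (w := (2 * (N:ℤ), y')) hu (by unfold nv; simp only; omega)
    (hr.mono (by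
      rintro e ⟨he, -⟩
      exact hmono _ (by omega) he))
  have hv3 : v ∈ cl (0, y) ω := by
    rw [mem_cl]
    refine hv2.mono ?_
    rw [hF, FF_coe]
    exact Set.inter_subset_left
  have h3 := hB' v hv3
  have h4 : B < 2^B := Nat.lt_two_pow_self
  have h5 : 2^B ≤ 2^B * N := Nat.le_mul_of_pos_right _ (by omega)
  omega

theorem hole_prob (p : unitInterval) {I : ℕ} (hI : 1 ≤ I) (he : eps (p:ℝ) (2^I) ≤ 1/100)
    {j n : ℕ} (hn : 2^j * 2^I ≤ n) :
    (bondLaw p).real {ω | ∀ x : Vtx, nv x ≤ n → (cl x ω).Finite} ≤ (1/4 : ℝ)^(2^j) := by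
  have h0 : (0:ℝ) ≤ p := p.2.1
  have h1 : (p:ℝ) ≤ 1 := p.2.2
  have h2I : 2 ≤ 2^I := by
    calc 2 = 2^1 := rfl
      _ ≤ 2^I := Nat.pow_le_pow_right (by norm_num) hI
  obtain ⟨N, hN⟩ : ∃ N : ℕ, N = 2^j * 2^I := ⟨_, rfl⟩
  have hN2 : 2 ≤ N := by
    rw [hN]
    exact h2I.trans (Nat.le_mul_of_pos_left _ (by positivity))
  rw [← hN] at hn
  obtain ⟨q, hq⟩ : ∃ q : ℝ, q = (1/4 : ℝ)^(2^j) := ⟨_, rfl⟩
  have hq0 : 0 < q := by rw [hq]; positivity
  rw [← hq]
  have hep : ∀ k : ℕ, 25 * eps p (2^k * N) ≤ q * (1/4)^k := by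
    intro k
    have h3 := H31K.eps_pow2 h0 h1 h2I he (k + j)
    have e : 2^(k + j) * 2^I = 2^k * N := by rw [hN, pow_add]; ring
    rw [e] at h3
    refine h3.trans ?_
    rw [hq, ← pow_add]
    refine pow_le_pow_of_le_one (by norm_num) (by norm_num) ?_
    have h4 : k + 1 ≤ 2^k := Nat.lt_two_pow_self
    have h5 : 1 ≤ 2^j := Nat.one_le_two_pow
    rw [pow_add]
    nlinarith
  have hU0 : (bondLaw p).real (Bad N 0) ≤ 4/5 * q := by
    unfold Bad
    rw [if_pos rfl]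
    have e1 := law_event p (boxE (2 * N)) (fun F => ¬ Circ N ((2 * N : ℕ) : ℤ) F)
    rw [e1, Pr_not]
    have e2 := pr_circ_ge h0 h1 hN2 (S := boxE (2 * N)) (Finset.Subset.refl _)
    have e3 := hep 0
    rw [pow_zero, one_mul, pow_zero, mul_one] at e3
    linarith
  have hU1 : ∀ k : ℕ, (bondLaw p).real (Bad N (k + 1)) ≤ 1/25 * q * (1/4)^k := by
    intro k
    unfold Bad
    rw [if_neg (Nat.succ_ne_zero k), Nat.add_sub_cancel]
    have e1 := law_event p (boxE (2 * (2^k * N))) (fun F => ¬ Step N k F)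
    rw [e1, Pr_not, pr_step (Finset.Subset.refl _)]
    have e3 := hep k
    linarith
  have hgeo : ∀ J : ℕ, ∑ k ∈ range J, (1/4 : ℝ)^k ≤ 2 := by
    intro J
    have h8 := hasSum_geometric_of_lt_one (r := (1/4 : ℝ)) (by norm_num) (by norm_num)
    have h9 := h8.summable.sum_le_tsum (range J) (fun k _ => by positivity)
    rw [h8.tsum_eq] at h9
    norm_num at h9 ⊢
    linarith
  refine real_le_of_union (bondLaw p) (U := Bad N) ?_ fun J => ?_
  · intro ω hω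
    obtain ⟨i, hi⟩ := hole_bad hN2 hn hω
    exact Set.mem_iUnion.mpr ⟨i, hi⟩
  · rcases J with _ | J
    · simp only [range_zero, sum_empty]
      exact hq0.le
    · rw [sum_range_succ']
      have h3 := sum_le_sum fun k (_ : k ∈ range J) => hU1 k
      rw [← mul_sum] at h3
      have h4 := mul_le_mul_of_nonneg_left (hgeo J) (show 0 ≤ 1/25 * q by positivity)
      linarith

/-- no infinite cluster near the origin: upper bound -/
theorem hole_upper : ∃ c C : ℝ, 0 < c ∧ 0 < C ∧ ∀ p : unitInterval, (1/2 : ℝ) < p →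
    ∀ n : ℕ, 1 ≤ n →
      (bondLaw p).real {ω | ∀ x : Vtx, nv x ≤ n → (cl x ω).Finite} ≤
        C * Real.exp (-(c * (n * ((p:ℝ) - 1/2)^(4/3 : ℝ)))) := by
  obtain ⟨E, C0, c0, hE, hC0, hc0, hsc⟩ := scaleN
  refine ⟨1 / (64 * E), 3, by positivity, by norm_num, fun p hp n hn => ?_⟩
  obtain ⟨s, hs⟩ : ∃ s : ℝ, s = ((p:ℝ) - 1/2)^(4/3 : ℝ) := ⟨_, rfl⟩
  have hs0 : 0 ≤ s := by rw [hs]; exact Real.rpow_nonneg (by linarith) _
  obtain ⟨I, hI1, hI2, hI3, hI4, hup, hlow, hlow2⟩ := hsc p hp p.2.2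
  rw [← hs] at hI2 hI3 ⊢
  rcases le_total n (2^I) with h | h
  · exact measureReal_le_one.trans (form_near hE hs0 hI2 h)
  · have h2I : 0 < 2^I := by positivity
    obtain ⟨j, hj1, hj2⟩ : ∃ j : ℕ, 2^j * 2^I ≤ n ∧ n < 2 * (2^j * 2^I) := by
      refine ⟨Nat.log 2 (n / 2^I), ?_, ?_⟩
      · have h1 : n / 2^I ≠ 0 := by
          have := (Nat.one_le_div_iff h2I).mpr h
          omega
        have h2 := Nat.pow_log_le_self 2 h1
        exact (Nat.mul_le_mul_right _ h2).trans (Nat.div_mul_le_self _ _)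
      · have h2 := Nat.lt_pow_succ_log_self (b := 2) (by norm_num) (n / 2^I)
        have h3 := (Nat.div_lt_iff_lt_mul h2I).mp h2
        rw [pow_succ] at h3
        calc n < _ := h3
          _ = _ := by ring
    refine (hole_prob p hI1 hI4 hj1).trans ?_
    have h1 : (1/4 : ℝ) ≤ Real.exp (-1) := by
      rw [Real.exp_neg, one_div]
      apply inv_anti₀ (Real.exp_pos _)
      have := Real.exp_one_lt_d9
      linarith
    have h2 : ((1:ℝ)/4)^(2^j) ≤ Real.exp (-((2:ℝ)^j)) := by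
      calc ((1:ℝ)/4)^(2^j) ≤ (Real.exp (-1))^(2^j) := pow_le_pow_left₀ (by norm_num) h1 _
        _ = Real.exp (-((2:ℝ)^j)) := by
            rw [← Real.exp_nat_mul]
            congr 1
            push_cast
            ring
    have h3 : 1 / (64 * E) * (n * s) ≤ (2:ℝ)^j := by
      have h4 : (n:ℝ) ≤ 2 * (2^j * 2^I) := by exact_mod_cast hj2.le
      have h5 : (n:ℝ) * s ≤ 2 * 2^j * E := by
        calc (n:ℝ) * s ≤ 2 * (2^j * 2^I) * s := mul_le_mul_of_nonneg_right h4 hs0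
          _ = 2 * 2^j * (2^I * s) := by ring
          _ ≤ _ := mul_le_mul_of_nonneg_left hI2 (by positivity)
      calc 1 / (64 * E) * (n * s) ≤ 1 / (64 * E) * (2 * 2^j * E) :=
            mul_le_mul_of_nonneg_left h5 (by positivity)
        _ = 2^j / 32 := by field_simp; norm_num
        _ ≤ 2^j := by
            have : (0:ℝ) < 2^j := by positivity
            linarith
    have h4 : Real.exp (-((2:ℝ)^j)) ≤ Real.exp (-(1 / (64 * E) * (n * s))) :=
      Real.exp_le_exp.mpr (neg_le_neg h3)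
    have h5 := Real.exp_pos (-(1 / (64 * E) * (n * s)))
    linarith

end TH992.F
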